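import Mathlib
import Pool.Agent.TH109.Q.Defs

set_option autoImplicit false
open scoped Classical
namespace Pool.Agent.TH298.J1970
open Pool.Agent.Helper943.LM (UA wpow)
open Pool.Agent.TH109.M Pool.Agent.TH109.Q
variable {G : Type} [Group G]

/-- the concatenation of blocks -/
def VV {A : Type} (X Y : List A) : List Bool → List A
  | [] => []
  | b :: bs => (if b then X else Y) ++ VV X Y bs

theorem VV_len {A : Type} {X Y : List A} (h : X.length = Y.length) (bs : List Bool) :
    (VV X Y bs).length = bs.length * X.length := by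
  induction bs with
  | nil => simp [VV]
  | cons b bs ih =>
    rw [VV, List.length_append, ih, List.length_cons]
    cases b
    · simp only [Bool.false_eq_true, if_false]; rw [← h]; ring
    · simp only [if_true]; ring

theorem VV_inj {A : Type} {X Y : List A} (h : X.length = Y.length) (hne : X ≠ Y) :
    ∀ bs cs : List Bool, bs.length = cs.length → VV X Y bs = VV X Y cs → bs = cs := by
  intro bs
  induction bs with
  | nil =>
    intro cs hl _
    exact (List.length_eq_zero_iff.mp hl.symm).symm
  | cons b bs ih =>
    intro cs hl he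
    cases cs with
    | nil => simp at hl
    | cons c cs =>
      rw [VV, VV] at he
      have hlen : (if b then X else Y).length = (if c then X else Y).length := by
        cases b <;> cases c <;> simp [h]
      obtain ⟨h1, h2⟩ := List.append_inj he hlen
      have h3 := ih cs (by simpa using hl) h2
      have h4 : b = c := by
        cases b <;> cases c <;> simp at h1 ⊢
        · exact hne h1.symm
        · exact hne h1
      rw [h3, h4]

theorem VV_run (U : UA G) {s : U.S} {X Y : List U.A} (hX : U.run s X = s) (hY : U.run s Y = s)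
    (bs : List Bool) : U.run s (VV X Y bs) = s := by
  induction bs with
  | nil => rfl
  | cons b bs ih =>
    rw [VV, UA.run_append]
    cases b
    · simp only [Bool.false_eq_true, if_false]; rw [hY, ih]
    · simp only [if_true]; rw [hX, ih]

/-- number of words -/
theorem card_words {A : Type} [Fintype A] (k : ℕ) (W : Finset (List A))
    (hW : ∀ w ∈ W, w.length ≤ k) : W.card ≤ (Fintype.card A + 1) ^ k := by
  induction k generalizing W with
  | zero =>
    have : W ⊆ {[]} := by
      intro w hw
      have := hW w hw
      rw [Finset.mem_singleton]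
      exact List.length_eq_zero_iff.mp (by omega)
    exact (Finset.card_le_card this).trans (by simp)
  | succ k ih =>
    let T : Finset (List A) := W.image List.tail
    have hT : ∀ w ∈ T, w.length ≤ k := by
      intro w hw
      obtain ⟨v, hv, rfl⟩ := Finset.mem_image.mp hw
      have := hW v hv
      rw [List.length_tail]; omega
    have h1 : W ⊆ (Finset.univ : Finset (Option A)).biUnion (fun o => T.image (fun w =>
        match o with | none => w | some a => a :: w)) := by
      intro w hw
      rw [Finset.mem_biUnion]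
      cases w with
      | nil =>
        refine ⟨none, Finset.mem_univ _, ?_⟩
        rw [Finset.mem_image]
        exact ⟨[], Finset.mem_image.mpr ⟨[], hw, rfl⟩, rfl⟩
      | cons a w =>
        refine ⟨some a, Finset.mem_univ _, ?_⟩
        rw [Finset.mem_image]
        exact ⟨w, Finset.mem_image.mpr ⟨a :: w, hw, rfl⟩, rfl⟩
    have h2 := (Finset.card_le_card h1).trans (Finset.card_biUnion_le_card_mul _ _ T.card
      (fun o _ => Finset.card_image_le))
    rw [Finset.card_univ, Fintype.card_option] at h2
    refine h2.trans ?_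
    rw [pow_succ, mul_comm]
    exact Nat.mul_le_mul_right _ (ih T hT)

theorem inv_ev (U : UA G) (y : List U.A) :
    (U.ev y)⁻¹ = ((y.reverse).map (fun a => (U.mu a)⁻¹)).prod := by
  unfold UA.ev
  rw [List.prod_inv_reverse, List.map_map, List.map_reverse]
  rfl

theorem flow (U : UA G) : ∃ c : ℕ, ∀ j k : ℕ, ∃ Θ : Finset G, (Θ : Set G) ⊆ Bl U (c * (j + k + 1)) ∧
    ∀ (E : Finset G) (m : G → G → ℕ) (b : ℕ) (D : Finset G),
      (∀ g ∈ D, ∃ l : List G, l.Nodup ∧ l.toFinset = E ∧ ∃ u y : List U.A, u ++ y ∈ U.L ∧
        Big U (U.run U.s0 u) ∧ y.length ≤ k ∧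
        g = (l.map (fun e => e ^ (m g e))).prod * U.ev (u ++ y)) →
      (∀ g ∈ D, ∀ θ ∈ Θ, ∀ e ∈ E, m g e ≤ m (g * θ) e + b ∧ m (g * θ) e ≤ m g e + b) →
      2 ^ j * D.card ≤
        (E.card.factorial * (2 * b + 1) ^ E.card * c ^ (k + 1)) *
          (Finset.image₂ (· * ·) D Θ).card := by
  have := U.finA
  have := U.finS
  let _ := Fintype.ofFinite U.A
  let _ := Fintype.ofFinite U.S
  -- branching data
  have hdat : ∀ s : U.S, ∃ q X Y a : List U.A, Big U s →
      U.run (U.run s q) X = U.run s q ∧ U.run (U.run s q) Y = U.run s q ∧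
      X.length = Y.length ∧ X ≠ Y ∧ U.run (U.run s q) a ∈ U.acc := by
    intro s
    by_cases h : Big U s
    · obtain ⟨s', ⟨q, hq⟩, hl, X, Y, hX, hY, hlen, hne⟩ := h
      obtain ⟨-, a, ha⟩ := hl
      exact ⟨q, X, Y, a, fun _ => by rw [hq]; exact ⟨hX, hY, hlen, hne, ha⟩⟩
    · exact ⟨[], [], [], [], fun h' => absurd h' h⟩
  choose q X Y a hd using hdat
  let Q : ℕ := ∑ s : U.S, ((q s).length + (X s).length + (a s).length)
  have hQ : ∀ s, (q s).length + (X s).length + (a s).length ≤ Q := fun s =>
    Finset.single_le_sum (f := fun s => (q s).length + (X s).length + (a s).length)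
      (fun _ _ => Nat.zero_le _) (Finset.mem_univ s)
  let c : ℕ := Q + (Fintype.card U.S + 1) * (Fintype.card U.A + 1) + 1
  refine ⟨c, fun j k => ?_⟩
  let wd : U.S → (Fin j → Bool) → List U.A := fun s W =>
    q s ++ VV (X s) (Y s) (List.ofFn W) ++ a s
  let Wk : Finset (List U.A) := (U.finite_le k).toFinset
  have hWk : ∀ y, y ∈ Wk ↔ y.length ≤ k := fun y => by
    simp [Wk]
  let θ : U.S × List U.A × (Fin j → Bool) → G := fun p => (U.ev p.2.1)⁻¹ * U.ev (wd p.1 p.2.2)
  let Θ0 : Finset (U.S × List U.A × (Fin j → Bool)) :=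
    (Finset.univ.filter (fun s => Big U s)) ×ˢ (Wk ×ˢ Finset.univ)
  refine ⟨Θ0.image θ, ?_, ?_⟩
  · intro x hx
    rw [Finset.mem_coe, Finset.mem_image] at hx
    obtain ⟨⟨s, y, W⟩, hp, rfl⟩ := hx
    rw [Finset.mem_product, Finset.mem_product] at hp
    obtain ⟨hs, hy, -⟩ := hp
    have hs' : Big U s := (Finset.mem_filter.mp hs).2
    obtain ⟨h1, h2, h3, h4, h5⟩ := hd s hs'
    have hy' : y.length ≤ k := (hWk y).mp hy
    refine ⟨(y.reverse).map (fun a => (U.mu a)⁻¹) ++ (wd s W).map U.mu, ?_, ?_, ?_⟩
    · rw [List.length_append, List.length_map, List.length_map, List.length_reverse,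
        List.length_append, List.length_append, VV_len h3, List.length_ofFn]
      have h6 := hQ s
      have h7 : (X s).length ≤ Q := by omega
      have h8 : Q ≤ c := by simp only [c]; omega
      have h9 : 1 ≤ c := by simp only [c]; omega
      calc y.length + ((q s).length + j * (X s).length + (a s).length)
          ≤ k + (Q + j * Q) := by
            have := Nat.mul_le_mul_left j h7
            omega
        _ ≤ c * k + (c + j * c) := by
            have := Nat.mul_le_mul_left j h8
            have := Nat.mul_le_mul_right k h9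
            omega
        _ = c * (j + k + 1) := by ring
    · intro x hx
      rw [List.mem_append, List.mem_map, List.mem_map] at hx
      rcases hx with ⟨b, -, rfl⟩ | ⟨b, -, rfl⟩
      · exact Or.inr ⟨b, rfl⟩
      · exact Or.inl ⟨b, rfl⟩
    · rw [List.prod_append, ← inv_ev]
      rfl
  · intro E m b D hD hm
    have hD' : ∀ g : G, ∃ (l : List G) (u y : List U.A), g ∈ D → l.Nodup ∧ l.toFinset = E ∧
        u ++ y ∈ U.L ∧ Big U (U.run U.s0 u) ∧ y.length ≤ k ∧
        g = (l.map (fun e => e ^ (m g e))).prod * U.ev (u ++ y) := by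
      intro g
      by_cases hg : g ∈ D
      · obtain ⟨l, h1, h2, u, y, h3, h4, h5, h6⟩ := hD g hg
        exact ⟨l, u, y, fun _ => ⟨h1, h2, h3, h4, h5, h6⟩⟩
      · exact ⟨[], [], [], fun h => absurd h hg⟩
    choose l u y hl using hD'
    let S : G → U.S := fun g => U.run U.s0 (u g)
    let x : G × (Fin j → Bool) → G := fun p => p.1 * θ (S p.1, y p.1, p.2)
    let T : Finset (List G × (E → ℕ) × (U.S × List U.A) × G) :=
      (E.toList.permutations.toFinset) ×ˢ ((Fintype.piFinset (fun _ : E => Finset.range (2 * b + 1))) ×ˢ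
        ((Finset.univ ×ˢ Wk) ×ˢ (Finset.image₂ (· * ·) D (Θ0.image θ))))
    let Ψ : G × (Fin j → Bool) → List G × (E → ℕ) × (U.S × List U.A) × G := fun p =>
      (l p.1, (fun e => m p.1 e + b - m (x p) e), (S p.1, y p.1), x p)
    have hθmem : ∀ g ∈ D, ∀ W : Fin j → Bool, θ (S g, y g, W) ∈ Θ0.image θ := by
      intro g hg W
      obtain ⟨h1, h2, h3, h4, h5, h6⟩ := hl g hg
      refine Finset.mem_image_of_mem _ ?_
      rw [Finset.mem_product, Finset.mem_product]
      exact ⟨Finset.mem_filter.mpr ⟨Finset.mem_univ _, h4⟩, (hWk _).mpr h5, Finset.mem_univ _⟩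
    have hmaps : Set.MapsTo Ψ ((D ×ˢ (Finset.univ : Finset (Fin j → Bool)) : Finset _) : Set _)
        (T : Set _) := by
      rintro ⟨g, W⟩ hp
      rw [Finset.mem_coe, Finset.mem_product] at hp
      have hg : g ∈ D := hp.1
      obtain ⟨h1, h2, h3, h4, h5, h6⟩ := hl g hg
      rw [Finset.mem_coe, Finset.mem_product, Finset.mem_product, Finset.mem_product]
      refine ⟨?_, ?_, ?_, ?_⟩
      · rw [List.mem_toFinset, List.mem_permutations]
        change (l g).Perm E.toList
        rw [List.perm_ext_iff_of_nodup h1 (Finset.nodup_toList E)]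
        intro e
        rw [Finset.mem_toList, ← h2, List.mem_toFinset]
      · rw [Fintype.mem_piFinset]
        intro e
        rw [Finset.mem_range]
        have := (hm g hg _ (hθmem g hg W) e e.2).1
        change m g e + b - m (g * θ (S g, y g, W)) e < 2 * b + 1
        omega
      · rw [Finset.mem_product]
        exact ⟨Finset.mem_univ _, (hWk _).mpr h5⟩
      · exact Finset.mem_image₂_of_mem hg (hθmem g hg W)
    have hxval : ∀ g ∈ D, ∀ W : Fin j → Bool, x (g, W) =
        ((l g).map (fun e => e ^ (m g e))).prod * U.ev (u g ++ wd (S g) W) := by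
      intro g hg W
      obtain ⟨h1, h2, h3, h4, h5, h6⟩ := hl g hg
      calc x (g, W) = g * ((U.ev (y g))⁻¹ * U.ev (wd (S g) W)) := rfl
        _ = (((l g).map (fun e => e ^ (m g e))).prod * U.ev (u g ++ y g)) *
            ((U.ev (y g))⁻¹ * U.ev (wd (S g) W)) := by rw [← h6]
        _ = _ := by
          rw [UA.ev_append U (u g) (y g), UA.ev_append U (u g) (wd (S g) W)]
          group
    have hL : ∀ g ∈ D, ∀ W : Fin j → Bool, u g ++ wd (S g) W ∈ U.L := by
      intro g hg W
      obtain ⟨-, -, -, h4, -, -⟩ := hl g hg
      obtain ⟨h1, h2, h3, h5, h6⟩ := hd (S g) h4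
      rw [UA.mem_L, UA.run_append]
      change U.run (S g) (q (S g) ++ VV (X (S g)) (Y (S g)) (List.ofFn W) ++ a (S g)) ∈ U.acc
      rw [UA.run_append, UA.run_append, VV_run U h1 h2]
      exact h6
    have hinj : Set.InjOn Ψ ((D ×ˢ (Finset.univ : Finset (Fin j → Bool)) : Finset _) : Set _) := by
      rintro ⟨g, W⟩ hp ⟨g', W'⟩ hp' heq
      rw [Finset.mem_coe, Finset.mem_product] at hp hp'
      have hg : g ∈ D := hp.1
      have hg' : g' ∈ D := hp'.1
      have e1 : l g = l g' := congrArg Prod.fst heq
      have e2 : (fun e : E => m g e + b - m (x (g, W)) e) =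
          fun e : E => m g' e + b - m (x (g', W')) e := congrArg (fun t => t.2.1) heq
      have e3 : S g = S g' := congrArg (fun t => t.2.2.1.1) heq
      have e4 : y g = y g' := congrArg (fun t => t.2.2.1.2) heq
      have e5 : x (g, W) = x (g', W') := congrArg (fun t => t.2.2.2) heq
      obtain ⟨h1, h2, h3, h4, h5, h6⟩ := hl g hg
      obtain ⟨h1', h2', h3', h4', h5', h6'⟩ := hl g' hg'
      have hmm : ∀ e ∈ E, m g e = m g' e := by
        intro e he
        have h7 : m g e + b - m (x (g, W)) e = m g' e + b - m (x (g', W')) e :=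
          congrFun e2 ⟨e, he⟩
        rw [← e5] at h7
        have h8 : m (x (g, W)) e ≤ m g e + b := (hm g hg _ (hθmem g hg W) e he).2
        have h9 : m (x (g', W')) e ≤ m g' e + b := (hm g' hg' _ (hθmem g' hg' W') e he).2
        rw [← e5] at h9
        omega
      have hP : ((l g).map (fun e => e ^ (m g e))).prod =
          ((l g').map (fun e => e ^ (m g' e))).prod := by
        rw [← e1]
        congr 1
        apply List.map_congr_left
        intro e he
        have : e ∈ E := by rw [← h2, List.mem_toFinset]; exact he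
        rw [hmm e this]
      have h7 : U.ev (u g ++ wd (S g) W) = U.ev (u g' ++ wd (S g') W') := by
        have h8 := e5
        rw [hxval g hg W, hxval g' hg' W', hP] at h8
        exact mul_left_cancel h8
      have h8 := U.ev_inj (hL g hg W) (hL g' hg' W') h7
      rw [← e3] at h8
      obtain ⟨d1, d2, d3, d4, d5⟩ := hd (S g) h4
      have hlen : ∀ W : Fin j → Bool, (wd (S g) W).length =
          (q (S g)).length + j * (X (S g)).length + (a (S g)).length := by
        intro W
        rw [List.length_append, List.length_append, VV_len d3, List.length_ofFn]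
      obtain ⟨h9, h10⟩ := List.append_inj' h8 (by rw [hlen, hlen])
      have h11 : VV (X (S g)) (Y (S g)) (List.ofFn W) = VV (X (S g)) (Y (S g)) (List.ofFn W') := by
        have h12 := List.append_cancel_right h10
        exact List.append_cancel_left h12
      have h12 := VV_inj d3 d4 _ _ (by rw [List.length_ofFn, List.length_ofFn]) h11
      have h13 : W = W' := List.ofFn_injective h12
      have h14 : g = g' := by
        rw [h6, h6', hP, h9, e4]
      rw [h13, h14]
    have hcard := Finset.card_le_card_of_injOn Ψ hmaps hinj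
    rw [Finset.card_product, Finset.card_univ, Fintype.card_fun, Fintype.card_bool,
      Fintype.card_fin, Finset.card_product, Finset.card_product, Finset.card_product,
      Finset.card_product, Fintype.card_piFinset, Finset.card_univ] at hcard
    have c1 : (E.toList.permutations.toFinset).card ≤ E.card.factorial := by
      refine (List.toFinset_card_le _).trans ?_
      rw [List.length_permutations, Finset.length_toList]
    have c2 : ∏ _e : E, (Finset.range (2 * b + 1)).card = (2 * b + 1) ^ E.card := by
      rw [Finset.prod_const, Finset.card_range, Finset.card_univ, Fintype.card_coe]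
    have c3 : Fintype.card U.S * Wk.card ≤ c ^ (k + 1) := by
      have h1 := card_words k Wk (fun w hw => (hWk w).mp hw)
      have h2 : Fintype.card U.S ≤ c := by
        have : Fintype.card U.S + 1 ≤ (Fintype.card U.S + 1) * (Fintype.card U.A + 1) :=
          Nat.le_mul_of_pos_right _ (Nat.succ_pos _)
        simp only [c]; omega
      have h3 : Fintype.card U.A + 1 ≤ c := by
        have : Fintype.card U.A + 1 ≤ (Fintype.card U.S + 1) * (Fintype.card U.A + 1) :=
          Nat.le_mul_of_pos_left _ (Nat.succ_pos _)
        simp only [c]; omega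
      rw [pow_succ, mul_comm (c ^ k)]
      exact Nat.mul_le_mul h2 (h1.trans (Nat.pow_le_pow_left h3 k))
    rw [c2] at hcard
    calc 2 ^ j * D.card = D.card * 2 ^ j := mul_comm _ _
      _ ≤ _ := hcard
      _ ≤ E.card.factorial * ((2 * b + 1) ^ E.card * (c ^ (k + 1) *
            (Finset.image₂ (· * ·) D (Θ0.image θ)).card)) :=
          Nat.mul_le_mul c1 (Nat.mul_le_mul_left _ (Nat.mul_le_mul_right _ c3))
      _ = _ := by ring

end Pool.Agent.TH298.J1970

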