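import Mathlib
import Pool.Agent.TH109.Q.Defs

set_option autoImplicit false
open scoped Classical
namespace Pool.Agent.TH298.J1971
open Pool.Agent.Helper943.LM (UA wpow)
open Pool.Agent.TH109.M Pool.Agent.TH109.Q
variable {G : Type} [Group G]

theorem fol_mono_aux (Θ Θ' : Finset G) (h : Θ ⊆ Θ') (n : ℕ)
    (hF : ∃ F : Finset G, F.Nonempty ∧ n * (Finset.image₂ (· * ·) F Θ').card ≤ (n + 1) * F.card) :
    ∃ F : Finset G, F.Nonempty ∧ n * (Finset.image₂ (· * ·) F Θ).card ≤ (n + 1) * F.card := by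
  obtain ⟨F, h1, h2⟩ := hF
  refine ⟨F, h1, le_trans (Nat.mul_le_mul_left _ (Finset.card_le_card ?_)) h2⟩
  exact Finset.image₂_subset_left h

/-- iterated products -/
noncomputable def Pw (Θ : Finset G) : ℕ → Finset G
  | 0 => {1}
  | m + 1 => Finset.image₂ (· * ·) (Pw Θ m) Θ

theorem Pw_ne (Θ : Finset G) (h : Θ.Nonempty) (m : ℕ) : (Pw Θ m).Nonempty := by
  induction m with
  | zero => exact Finset.singleton_nonempty _
  | succ m ih => exact Finset.Nonempty.image₂ ih h

theorem Pw_sub (hc : ∀ a b : G, a * b = b * a) (Θ : Finset G) (m : ℕ) :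
    (Pw Θ m).card ≤ (m + 1) ^ Θ.card := by
  let _ : CommGroup G := { ‹Group G› with mul_comm := hc }
  have h1 : Pw Θ m ⊆ (Fintype.piFinset (fun _ : Θ => Finset.range (m + 1))).image
      (fun c => ∏ θ : Θ, (θ : G) ^ c θ) := by
    induction m with
    | zero =>
      intro x hx
      rw [Finset.mem_image]
      refine ⟨fun _ => 0, ?_, ?_⟩
      · rw [Fintype.mem_piFinset]
        intro a
        exact Finset.mem_range.mpr (by omega)
      · have : x = 1 := Finset.mem_singleton.mp hx
        rw [this]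
        simp
    | succ m ih =>
      intro x hx
      obtain ⟨a, ha, b, hb, rfl⟩ := Finset.mem_image₂.mp hx
      obtain ⟨c, hc1, rfl⟩ := Finset.mem_image.mp (ih ha)
      rw [Fintype.mem_piFinset] at hc1
      rw [Finset.mem_image]
      refine ⟨fun θ => c θ + if θ = ⟨b, hb⟩ then 1 else 0, ?_, ?_⟩
      · rw [Fintype.mem_piFinset]
        intro θ
        have := Finset.mem_range.mp (hc1 θ)
        rw [Finset.mem_range]
        split_ifs <;> omega
      · simp only [pow_add, Finset.prod_mul_distrib]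
        congr 1
        have : ∀ θ : Θ, (θ : G) ^ (if θ = ⟨b, hb⟩ then 1 else 0) =
            if θ = ⟨b, hb⟩ then b else 1 := by
          intro θ
          split_ifs with h
          · rw [h, pow_one]
          · rw [pow_zero]
        rw [Finset.prod_congr rfl fun θ _ => this θ, Finset.prod_ite_eq' Finset.univ]
        simp
  refine (Finset.card_le_card h1).trans (Finset.card_image_le.trans ?_)
  rw [Fintype.card_piFinset]
  simp

theorem fol_comm (h : ∀ a b : G, a * b = b * a) : Fol G := by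
  intro Θ0 n
  rcases Nat.eq_zero_or_pos n with hn | hn
  · subst hn
    exact ⟨{1}, Finset.singleton_nonempty _, by simp⟩
  apply fol_mono_aux Θ0 (insert 1 Θ0) (Finset.subset_insert _ _) n
  set Θ := insert (1 : G) Θ0
  have hne : Θ.Nonempty := Finset.insert_nonempty _ _
  by_contra hcon
  push Not at hcon
  have h1 : ∀ m, (n + 1) * (Pw Θ m).card < n * (Pw Θ (m + 1)).card := fun m =>
    hcon (Pw Θ m) (Pw_ne Θ hne m)
  have hn0 : (0 : ℝ) < n := by exact_mod_cast hn
  set r : ℝ := ((n : ℝ) + 1) / n with hr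
  have hr1 : 1 < r := by
    rw [hr, lt_div_iff₀ hn0]
    linarith
  have h2 : ∀ m : ℕ, r ^ m ≤ ((Pw Θ m).card : ℝ) := by
    intro m
    induction m with
    | zero => simp [Pw]
    | succ m ih =>
      have h3 : (((n + 1) * (Pw Θ m).card : ℕ) : ℝ) < ((n * (Pw Θ (m + 1)).card : ℕ) : ℝ) := by
        exact_mod_cast h1 m
      push_cast at h3
      rw [pow_succ]
      have h4 : r ^ m * r ≤ ((Pw Θ m).card : ℝ) * r :=
        mul_le_mul_of_nonneg_right ih (by positivity)
      refine h4.trans ?_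
      rw [hr, mul_div_assoc', div_le_iff₀ hn0]
      linarith
  have h3 : ∀ m : ℕ, r ^ m ≤ ((m : ℝ) + 1) ^ Θ.card := by
    intro m
    refine (h2 m).trans ?_
    exact_mod_cast Pw_sub h Θ m
  have h4 := tendsto_pow_const_div_const_pow_of_one_lt Θ.card hr1
  have h5 := (h4.comp (Filter.tendsto_add_atTop_nat 1)).eventually
    (gt_mem_nhds (show (0 : ℝ) < 1 / r by positivity))
  obtain ⟨m, hm⟩ := h5.exists
  simp only [Function.comp_apply] at hm
  have h6 := h3 m
  have hrm : 0 < r ^ (m + 1) := by positivity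
  rw [div_lt_div_iff₀ hrm (by positivity), pow_succ] at hm
  push_cast at hm
  have hr0 : 0 < r := by linarith
  nlinarith [mul_le_mul_of_nonneg_right h6 hr0.le]

theorem fol_ext {N : Subgroup G} [N.Normal] (h1 : Fol N) (h2 : Fol (G ⧸ N)) : Fol G := by
  intro Θ n
  rcases Nat.eq_zero_or_pos n with hn | hn
  · subst hn
    exact ⟨{1}, Finset.singleton_nonempty _, by simp⟩
  set n' := 3 * n with hn'
  let mk : G → G ⧸ N := fun g => (g : G ⧸ N)
  let σ : G ⧸ N → G := Quotient.out
  have hσ : ∀ q, mk (σ q) = q := fun q => Quotient.out_eq' q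
  obtain ⟨Fb, hFb, hFb2⟩ := h2 (Θ.image mk) n'
  have hmk : ∀ a : N, mk (a : G) = 1 := fun a => (QuotientGroup.eq_one_iff (a : G)).mpr a.2
  have hmem : ∀ (q : G ⧸ N) (θ : G), σ q * θ * (σ (q * mk θ))⁻¹ ∈ N := by
    intro q θ
    rw [← QuotientGroup.eq_one_iff]
    change mk (σ q * θ * (σ (q * mk θ))⁻¹) = 1
    have : mk (σ q * θ * (σ (q * mk θ))⁻¹) = mk (σ q) * mk θ * (mk (σ (q * mk θ)))⁻¹ := rfl
    rw [this, hσ, hσ, mul_inv_cancel]
  let K : Finset N := Finset.image₂ (fun q θ => ⟨σ q * θ * (σ (q * mk θ))⁻¹, hmem q θ⟩) Fb Θ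
  obtain ⟨Fn, hFn, hFn2⟩ := h1 K n'
  refine ⟨Finset.image₂ (fun (a : N) q => (a : G) * σ q) Fn Fb, Finset.Nonempty.image₂ hFn hFb, ?_⟩
  have hcard : (Finset.image₂ (fun (a : N) q => (a : G) * σ q) Fn Fb).card =
      Fn.card * Fb.card := by
    rw [Finset.card_image₂_iff]
    rintro ⟨a, q⟩ _ ⟨b, q'⟩ _ hab
    simp only at hab
    have hq : q = q' := by
      have h3 := congrArg mk hab
      have h4 : ∀ (a : N) (q : G ⧸ N), mk ((a : G) * σ q) = q := by
        intro a q
        have : mk ((a : G) * σ q) = mk (a : G) * mk (σ q) := rfl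
        rw [this, hσ, hmk, one_mul]
      rwa [h4, h4] at h3
    subst hq
    have ha : (a : G) = b := mul_right_cancel hab
    exact Prod.ext (Subtype.ext ha) rfl
  have hsub : (Finset.image₂ (· * ·) (Finset.image₂ (fun (a : N) q => (a : G) * σ q) Fn Fb) Θ) ⊆
      Finset.image₂ (fun (a : N) q => (a : G) * σ q) (Finset.image₂ (· * ·) Fn K)
        (Finset.image₂ (· * ·) Fb (Θ.image mk)) := by
    intro x hx
    obtain ⟨y, hy, θ, hθ, rfl⟩ := Finset.mem_image₂.mp hx
    obtain ⟨a, ha, q, hq, rfl⟩ := Finset.mem_image₂.mp hy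
    refine Finset.mem_image₂.mpr ⟨a * ⟨σ q * θ * (σ (q * mk θ))⁻¹, hmem q θ⟩,
      Finset.mem_image₂_of_mem ha (Finset.mem_image₂_of_mem hq hθ), q * mk θ,
      Finset.mem_image₂_of_mem hq (Finset.mem_image_of_mem _ hθ), ?_⟩
    simp only [Subgroup.coe_mul]
    group
  have hle := (Finset.card_le_card hsub).trans (Finset.card_image₂_le _ _ _)
  rw [hcard]
  set x := (Finset.image₂ (· * ·) (Finset.image₂ (fun (a : N) q => (a : G) * σ q) Fn Fb) Θ).card
  set A := (Finset.image₂ (· * ·) Fn K).card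
  set B := (Finset.image₂ (· * ·) Fb (Θ.image mk)).card
  -- `n' A ≤ (n'+1) |Fn|`, `n' B ≤ (n'+1) |Fb|`
  have hA : n' * A ≤ (n' + 1) * Fn.card := by convert hFn2
  have hB : n' * B ≤ (n' + 1) * Fb.card := by convert hFb2
  have h5 : (n' * A) * (n' * B) ≤ ((n' + 1) * Fn.card) * ((n' + 1) * Fb.card) :=
    Nat.mul_le_mul hA hB
  have h6 : n' * n' * x ≤ n' * n' * (A * B) := Nat.mul_le_mul_left _ hle
  have h7 : n * ((n' + 1) * (n' + 1)) ≤ (n + 1) * (n' * n') := by
    rw [hn']
    nlinarith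
  have h8 : (n' * n') * (n * x) ≤ (n' * n') * ((n + 1) * (Fn.card * Fb.card)) := by
    calc (n' * n') * (n * x) = n * (n' * n' * x) := by ring
      _ ≤ n * (n' * n' * (A * B)) := Nat.mul_le_mul_left _ h6
      _ = n * ((n' * A) * (n' * B)) := by ring
      _ ≤ n * (((n' + 1) * Fn.card) * ((n' + 1) * Fb.card)) := Nat.mul_le_mul_left _ h5
      _ = n * ((n' + 1) * (n' + 1)) * (Fn.card * Fb.card) := by ring
      _ ≤ (n + 1) * (n' * n') * (Fn.card * Fb.card) := Nat.mul_le_mul_right _ h7
      _ = (n' * n') * ((n + 1) * (Fn.card * Fb.card)) := by ring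
  exact Nat.le_of_mul_le_mul_left h8 (by positivity)

theorem fol_derived (n : ℕ) : ∀ (G : Type) [Group G], derivedSeries G n = ⊥ → Fol G := by
  induction n with
  | zero =>
    intro G _ h
    apply fol_comm
    intro a b
    rw [derivedSeries_zero] at h
    have h1 : ∀ x : G, x = 1 := by
      intro x
      have : x ∈ (⊥ : Subgroup G) := by rw [← h]; exact Subgroup.mem_top x
      exact Subgroup.mem_bot.mp this
    rw [h1 a, h1 b]
  | succ n ih =>
    intro G _ h
    have hN : (derivedSeries G n).Normal := inferInstance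
    apply fol_ext (N := derivedSeries G n)
    · apply fol_comm
      intro a b
      rw [derivedSeries_succ, Subgroup.commutator_eq_bot_iff_le_centralizer] at h
      have h1 := Subgroup.mem_centralizer_iff.mp (h a.2) b b.2
      exact Subtype.ext h1.symm
    · apply ih
      rw [← map_derivedSeries_eq (QuotientGroup.mk'_surjective (derivedSeries G n))]
      rw [Subgroup.map_eq_bot_iff, QuotientGroup.ker_mk']

theorem fol_solvable (h : IsSolvable G) : Fol G := by
  obtain ⟨n, hn⟩ := h.solvable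
  exact fol_derived n G hn

end Pool.Agent.TH298.J1971

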