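import Pool.Agent.TH490.StmF

/-!
# The local lemma for `MP_325b7c_co` (helper490)
-/

set_option autoImplicit false

namespace Pool.Agent.TH298.MP325LLL

open Finset Classical Pool.Agent.TH490

/-- events depending on disjoint sets of coordinates are independent (counting form) -/
lemma indep {J P : Type} [Fintype J] [Fintype P] (V : Finset J) (A B : (J → P) → Prop)
    (hA : ∀ f g, (∀ j ∈ V, f j = g j) → A f → A g)
    (hB : ∀ f g, (∀ j, j ∉ V → f j = g j) → B f → B g) :
    (univ.filter (fun f : J → P => A f ∧ B f)).card * Fintype.card (J → P) =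
      (univ.filter (fun f : J → P => A f)).card * (univ.filter (fun f : J → P => B f)).card := by
  rw [← Finset.card_univ, ← Finset.card_product, ← Finset.card_product]
  refine Finset.card_bij' (fun p _ => (V.piecewise p.1 p.2, V.piecewise p.2 p.1))
    (fun p _ => (V.piecewise p.1 p.2, V.piecewise p.2 p.1)) ?_ ?_ ?_ ?_
  · intro p hp
    simp only [mem_product, mem_filter, mem_univ, true_and, and_true] at hp ⊢
    refine ⟨hA _ _ (fun j hj => ?_) hp.1, hB _ _ (fun j hj => ?_) hp.2⟩
    · simp [hj]
    · simp [hj]
  · intro p hp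
    simp only [mem_product, mem_filter, mem_univ, true_and, and_true] at hp ⊢
    refine ⟨hA _ _ (fun j hj => ?_) hp.1, hB _ _ (fun j hj => ?_) hp.2⟩
    · simp [hj]
    · simp [hj]
  · intro p _
    ext j <;> by_cases hj : j ∈ V <;> simp [hj]
  · intro p _
    ext j <;> by_cases hj : j ∈ V <;> simp [hj]

variable {J P E : Type} [Fintype J] [Fintype P] [Fintype E]

/-- the configurations avoiding the events of `S` -/
noncomputable def av (A : E → (J → P) → Prop) (S : Finset E) : Finset (J → P) :=
  univ.filter (fun f => ∀ e ∈ S, ¬ A e f)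

/-- the probability of an event -/
noncomputable def pp (A : E → (J → P) → Prop) (e : E) : ℝ :=
  ((univ.filter (fun f : J → P => A e f)).card : ℝ) / (Fintype.card P : ℝ) ^ Fintype.card J

omit [Fintype E] in
lemma pp_nonneg (A : E → (J → P) → Prop) (e : E) : 0 ≤ pp A e := by unfold pp; positivity

lemma card_J [Nonempty P] : (Fintype.card (J → P) : ℝ) = (Fintype.card P : ℝ) ^ Fintype.card J := by
  rw [Fintype.card_fun]; push_cast; rfl

lemma sum_biUnion_le' {α β : Type*} (s : Finset α) (t : α → Finset β) (w : β → ℝ) (hw : ∀ b, 0 ≤ w b) :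
    ∑ b ∈ s.biUnion t, w b ≤ ∑ a ∈ s, ∑ b ∈ t a, w b := by
  induction s using Finset.induction_on with
  | empty => simp
  | insert a s ha ih =>
    rw [biUnion_insert, sum_insert ha]
    have h1 := sum_union_inter (s₁ := t a) (s₂ := s.biUnion t) (f := w)
    have h2 : 0 ≤ ∑ b ∈ t a ∩ s.biUnion t, w b := sum_nonneg fun b _ => hw b
    linarith

/-- the main induction -/
lemma main [Nonempty P] (vbl : E → Finset J) (A : E → (J → P) → Prop)
    (h4 : ∀ e, (vbl e).card ≤ 4)
    (hd : ∀ e f g, (∀ j ∈ vbl e, f j = g j) → A e f → A e g)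
    (hs : ∀ j, ∑ e ∈ univ.filter (fun e => j ∈ vbl e), pp A e ≤ 1 / 16) :
    ∀ (m : ℕ) (S : Finset E), S.card = m → ∀ e : E,
      ((univ.filter (fun f : J → P => A e f ∧ ∀ e' ∈ S, ¬ A e' f)).card : ℝ) ≤
        2 * pp A e * (av A S).card := by
  have hN : (0:ℝ) < (Fintype.card P : ℝ) ^ Fintype.card J := by
    have : 0 < Fintype.card P := Fintype.card_pos
    positivity
  -- neighbours
  have hnb : ∀ e : E, ∀ S : Finset E, ∑ e' ∈ S.filter (fun e' => ¬ Disjoint (vbl e') (vbl e)), pp A e' ≤ 1 / 4 := by
    intro e S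
    calc ∑ e' ∈ S.filter (fun e' => ¬ Disjoint (vbl e') (vbl e)), pp A e'
        ≤ ∑ e' ∈ (vbl e).biUnion (fun j => univ.filter (fun e' => j ∈ vbl e')), pp A e' := by
          refine sum_le_sum_of_subset_of_nonneg ?_ (fun _ _ _ => pp_nonneg _ _)
          intro e' he'
          rw [mem_filter, Finset.not_disjoint_iff] at he'
          obtain ⟨_, j, h1, h2⟩ := he'
          rw [mem_biUnion]
          exact ⟨j, h2, by simp [h1]⟩
      _ ≤ ∑ j ∈ vbl e, ∑ e' ∈ univ.filter (fun e' => j ∈ vbl e'), pp A e' :=
          sum_biUnion_le' (vbl e) _ _ (fun _ => pp_nonneg _ _)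
      _ ≤ ∑ j ∈ vbl e, (1 / 16 : ℝ) := sum_le_sum fun j _ => hs j
      _ = (vbl e).card * (1 / 16 : ℝ) := by rw [sum_const, nsmul_eq_mul]
      _ ≤ 4 * (1 / 16 : ℝ) := by
          have : ((vbl e).card : ℝ) ≤ 4 := by exact_mod_cast h4 e
          gcongr
      _ = 1 / 4 := by norm_num
  -- independence
  have hind : ∀ e : E, ∀ S : Finset E, (∀ e' ∈ S, Disjoint (vbl e') (vbl e)) →
      ((univ.filter (fun f : J → P => A e f ∧ ∀ e' ∈ S, ¬ A e' f)).card : ℝ) = pp A e * (av A S).card := by
    intro e S hS
    have h1 := indep (vbl e) (fun f => A e f) (fun f => ∀ e' ∈ S, ¬ A e' f) (hd e) (by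
      intro f g hfg h e' he' hA
      refine h e' he' (hd e' g f (fun j hj => ?_) hA)
      exact (hfg j (Finset.disjoint_left.mp (hS e' he') hj)).symm)
    have h2 : ((univ.filter (fun f : J → P => A e f ∧ ∀ e' ∈ S, ¬ A e' f)).card : ℝ) *
        (Fintype.card P : ℝ) ^ Fintype.card J =
        ((univ.filter (fun f : J → P => A e f)).card : ℝ) * (av A S).card := by
      rw [← card_J]
      have h3 : (univ.filter (fun f : J → P => A e f ∧ ∀ e' ∈ S, ¬ A e' f)).card * Fintype.card (J → P) =
          (univ.filter (fun f : J → P => A e f)).card * (av A S).card := by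
        unfold av
        convert h1
      exact_mod_cast h3
    unfold pp
    rw [div_mul_eq_mul_div, eq_div_iff hN.ne']
    exact h2
  intro m
  induction m using Nat.strong_induction_on with
  | _ m ih =>
    intro S hSm e
    set S1 := S.filter (fun e' => ¬ Disjoint (vbl e') (vbl e)) with hS1
    set S2 := S.filter (fun e' => Disjoint (vbl e') (vbl e)) with hS2
    have hsub : S2 ⊆ S := filter_subset _ _
    -- the restriction to the non-neighbours
    have h1 : ((univ.filter (fun f : J → P => A e f ∧ ∀ e' ∈ S, ¬ A e' f)).card : ℝ) ≤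
        pp A e * (av A S2).card := by
      rw [← hind e S2 (fun e' he' => (mem_filter.mp he').2)]
      have : (univ.filter (fun f : J → P => A e f ∧ ∀ e' ∈ S, ¬ A e' f)) ⊆
          (univ.filter (fun f : J → P => A e f ∧ ∀ e' ∈ S2, ¬ A e' f)) := by
        intro f hf
        simp only [mem_filter, mem_univ, true_and] at hf ⊢
        exact ⟨hf.1, fun e' he' => hf.2 e' (hsub he')⟩
      exact_mod_cast card_le_card this
    have hav : ∀ T : Finset E, (0:ℝ) ≤ (av A T).card := fun T => Nat.cast_nonneg _
    -- removal of the neighbours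
    have h2 : ((av A S2).card : ℝ) ≤ 2 * (av A S).card := by
      by_cases hne : S1 = ∅
      · have : S2 = S := by
          rw [hS2, filter_eq_self]
          intro e' he'
          by_contra hcon
          have : e' ∈ S1 := by rw [hS1, mem_filter]; exact ⟨he', hcon⟩
          rw [hne] at this
          exact absurd this (notMem_empty _)
        rw [this]
        linarith [hav S]
      · have hlt : S2.card < m := by
          rw [← hSm]
          refine card_lt_card ⟨hsub, fun hcon => hne ?_⟩
          rw [hS1, filter_eq_empty_iff]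
          intro e' he'
          rw [not_not]
          exact (mem_filter.mp (hcon he')).2
        have hcov : av A S2 ⊆ av A S ∪ S1.biUnion (fun e' =>
            univ.filter (fun f : J → P => A e' f ∧ ∀ e'' ∈ S2, ¬ A e'' f)) := by
          intro f hf
          simp only [av, mem_filter, mem_univ, true_and, mem_union, mem_biUnion] at hf ⊢
          by_cases h : ∀ e' ∈ S, ¬ A e' f
          · exact Or.inl h
          · right
            push Not at h
            obtain ⟨e', he', hA⟩ := h
            refine ⟨e', ?_, hA, hf⟩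
            rw [hS1, mem_filter]
            refine ⟨he', fun hdis => hf e' ?_ hA⟩
            rw [hS2, mem_filter]
            exact ⟨he', hdis⟩
        have h3 : ((av A S2).card : ℝ) ≤ (av A S).card + ∑ e' ∈ S1,
            ((univ.filter (fun f : J → P => A e' f ∧ ∀ e'' ∈ S2, ¬ A e'' f)).card : ℝ) := by
          have := (card_le_card hcov).trans ((card_union_le _ _).trans (Nat.add_le_add_left card_biUnion_le _))
          exact_mod_cast this
        have h4 : ∑ e' ∈ S1, ((univ.filter (fun f : J → P => A e' f ∧ ∀ e'' ∈ S2, ¬ A e'' f)).card : ℝ) ≤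
            ∑ e' ∈ S1, 2 * pp A e' * (av A S2).card := sum_le_sum fun e' _ => ih _ hlt S2 rfl e'
        have h5 : ∑ e' ∈ S1, 2 * pp A e' * ((av A S2).card : ℝ) = 2 * (∑ e' ∈ S1, pp A e') * (av A S2).card := by
          rw [mul_sum, sum_mul]
        have h6 := hnb e S
        rw [← hS1] at h6
        rw [h5] at h4
        have h7 : 2 * (∑ e' ∈ S1, pp A e') * ((av A S2).card : ℝ) ≤ 1 / 2 * (av A S2).card :=
          mul_le_mul_of_nonneg_right (by linarith) (hav S2)
        linarith
    calc ((univ.filter (fun f : J → P => A e f ∧ ∀ e' ∈ S, ¬ A e' f)).card : ℝ)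
        ≤ pp A e * (av A S2).card := h1
      _ ≤ pp A e * (2 * (av A S).card) := mul_le_mul_of_nonneg_left h2 (pp_nonneg _ _)
      _ = _ := by ring

theorem slll : S_LLL := by
  intro J P E _ _ _ _ vbl A h4 hne hd hs
  have hs' : ∀ j, ∑ e ∈ univ.filter (fun e => j ∈ vbl e), pp A e ≤ 1 / 16 := hs
  have hm := main vbl A h4 hd hs'
  have hpe : ∀ e, pp A e ≤ 1 / 16 := by
    intro e
    obtain ⟨j, hj⟩ := hne e
    refine le_trans ?_ (hs' j)
    exact single_le_sum (f := fun e => pp A e) (fun e _ => pp_nonneg A e) (by simp [hj])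
  have hpos : ∀ S : Finset E, 0 < ((av A S).card : ℝ) := by
    intro S
    induction S using Finset.induction_on with
    | empty =>
      have : (av A (∅ : Finset E)) = univ := by ext f; simp [av]
      rw [this, Finset.card_univ]
      exact_mod_cast Fintype.card_pos
    | insert e S _ ih =>
      have h1 := hm _ S rfl e
      have hcov : av A S ⊆ av A (insert e S) ∪ univ.filter (fun f : J → P => A e f ∧ ∀ e' ∈ S, ¬ A e' f) := by
        intro f hf
        simp only [av, mem_filter, mem_univ, true_and, mem_union, mem_insert, forall_eq_or_imp] at hf ⊢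
        by_cases h : A e f
        · exact Or.inr ⟨h, hf⟩
        · exact Or.inl ⟨h, hf⟩
      have h2 : ((av A S).card : ℝ) ≤ (av A (insert e S)).card +
          ((univ.filter (fun f : J → P => A e f ∧ ∀ e' ∈ S, ¬ A e' f)).card : ℝ) := by
        exact_mod_cast (card_le_card hcov).trans (card_union_le _ _)
      have h3 : 2 * pp A e * ((av A S).card : ℝ) ≤ 2 * (1 / 16) * (av A S).card := by
        have := hpe e
        gcongr
      linarith
  have hfin := hpos univ
  have hfin' : 0 < (av A univ).card := by exact_mod_cast hfin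
  obtain ⟨f, hf⟩ := card_pos.mp hfin'
  simp only [av, mem_filter, mem_univ, true_and, forall_true_left] at hf
  exact ⟨f, hf⟩

end Pool.Agent.TH298.MP325LLL
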