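import Pool.Agent.TH490.StmN

/-!
# Elementary bounds for one step of the nibble, for `MP_325b7c_co` (helper490)
-/

set_option autoImplicit false

namespace Pool.Agent.TH298.MP325NE

open Finset Classical Pool.Agent.TH490

variable {n : ℕ} {X ι : Type} [Fintype X] [Fintype ι]

lemma hat_nonneg {D : Nib n X ι} {R : ℕ} {s : NSt n X ι} (hs : NInv D R s) (v : X) : 0 ≤ hat D s v := by
  unfold hat
  have := hs.w_nonneg v
  split_ifs <;> linarith

lemma eng_nonneg {D : Nib n X ι} {R : ℕ} {s : NSt n X ι} (hs : NInv D R s) (β : ι) (e : Finset X) (u : X) :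
    0 ≤ eng D s β e u := by
  unfold eng
  refine mul_nonneg ?_ (prod_nonneg fun v _ => hat_nonneg hs v)
  split_ifs
  · exact zero_le_one
  · exact (Real.exp_pos _).le

lemma FN_nonneg {D : Nib n X ι} {R : ℕ} {s : NSt n X ι} (hs : NInv D R s) (u : X) : 0 ≤ FN D s u :=
  sum_nonneg fun β _ => sum_nonneg fun e _ => eng_nonneg hs β e u

lemma FT_nonneg {D : Nib n X ι} {R : ℕ} {s : NSt n X ι} (hs : NInv D R s) (u : X) : 0 ≤ FT D s u :=
  sum_nonneg fun β _ => sum_nonneg fun e _ => eng_nonneg hs β e u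

lemma GG_nonneg {D : Nib n X ι} {R : ℕ} {s : NSt n X ι} (hs : NInv D R s) (hR : 1 ≤ R) (u : X) :
    0 ≤ GG D R s u := by
  unfold GG
  have h1 := FN_nonneg hs u
  have h2 := FT_nonneg hs u
  have h3 := hs.L_nonneg u
  have h4 : 0 ≤ Real.log R := Real.log_nonneg (by exact_mod_cast hR)
  positivity

theorem nelem : N_elem := by
  intro K
  refine ⟨1, fun R hR n X ι _ _ D hD s hs hst => ?_⟩
  -- the total weight
  have h1 : 1 / 2 < ∑ y ∈ lst D s.t, s.w y := by
    refine (hs.Ylow s.t hst le_rfl).trans_le ?_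
    unfold YY yt
    refine sum_le_sum fun u _ => ?_
    have h2 := GG_nonneg hs hR u
    have h3 : max 0 (1 - GG D R s u) ≤ 1 := max_le zero_le_one (by linarith)
    have h4 := hs.w_nonneg u
    nlinarith
  have hS0 : 0 < ∑ y ∈ lst D s.t, s.w y := by linarith
  have h2 : ∑ x ∈ lst D s.t, pr D s x = 1 := by
    unfold pr
    rw [← sum_div, div_self hS0.ne']
  have hRr : 0 ≤ (R : ℝ) ^ (-(99 / 100) : ℝ) := Real.rpow_nonneg (Nat.cast_nonneg _) _
  have hpr0 : ∀ x, 0 ≤ pr D s x := fun x => div_nonneg (hs.w_nonneg x) hS0.le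
  have h3 : ∀ x ∈ lst D s.t, 0 ≤ pr D s x ∧ pr D s x ≤ 2 * s.w x ∧
      pr D s x ≤ 2 * (R : ℝ) ^ (-(99 / 100) : ℝ) := by
    intro x hx
    have hxt : (D.o x : ℕ) = s.t := (mem_filter.mp hx).2
    have h4 : pr D s x ≤ 2 * s.w x := by
      unfold pr
      rw [div_le_iff₀ hS0]
      have := hs.w_nonneg x
      nlinarith
    refine ⟨hpr0 x, h4, h4.trans ?_⟩
    have := hs.w_le x hxt.ge
    linarith
  refine ⟨h1, h2, h3, ?_, ?_, ?_⟩
  · intro v hv
    have hNs : (lst D s.t).filter (fun x => blkN D s x v) ⊆ (lst D s.t).filter (fun x => blk D s x v) := by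
      intro x hx
      rw [mem_filter] at hx ⊢
      exact ⟨hx.1, Or.inl hx.2⟩
    have hTs : (lst D s.t).filter (fun x => blkT D s x v) ⊆ (lst D s.t).filter (fun x => blk D s x v) := by
      intro x hx
      rw [mem_filter] at hx ⊢
      exact ⟨hx.1, Or.inr hx.2⟩
    refine ⟨sum_nonneg fun x _ => hpr0 x, sum_le_sum_of_subset_of_nonneg hNs fun x _ _ => hpr0 x,
      sum_le_sum_of_subset_of_nonneg hTs fun x _ _ => hpr0 x, ?_, ?_⟩
    · have hU : (lst D s.t).filter (fun x => blk D s x v) ⊆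
          (lst D s.t).filter (fun x => blkN D s x v) ∪ (lst D s.t).filter (fun x => blkT D s x v) := by
        intro x hx
        rw [mem_union, mem_filter, mem_filter]
        rw [mem_filter] at hx
        rcases hx.2 with h | h
        · exact Or.inl ⟨hx.1, h⟩
        · exact Or.inr ⟨hx.1, h⟩
      have h4 := sum_le_sum_of_subset_of_nonneg (f := fun x => pr D s x) hU fun x _ _ => hpr0 x
      have h5 := sum_union_inter (s₁ := (lst D s.t).filter (fun x => blkN D s x v))
        (s₂ := (lst D s.t).filter (fun x => blkT D s x v)) (f := fun x => pr D s x)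
      have h6 : 0 ≤ ∑ x ∈ (lst D s.t).filter (fun x => blkN D s x v) ∩ (lst D s.t).filter (fun x => blkT D s x v),
          pr D s x := sum_nonneg fun x _ => hpr0 x
      unfold hb hN hT
      linarith
    · have hcard : ((lst D s.t).filter (fun x => blk D s x v)).card ≤ K := by
        refine le_trans (card_le_card ?_) (hD.H3 s.t (D.o v : ℕ) hv.ne)
        intro x hx
        rw [mem_filter] at hx ⊢
        refine ⟨hx.1, v, by simp [lst], ?_⟩
        rcases hx.2 with ⟨β, _, e, he, htop, hxe, _⟩ | ⟨β, _, e, he, htop, hxe, _⟩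
        · exact ⟨v, β, β, hD.conf_sub β e he hxe, hD.conf_sub β e he htop.1, hD.conf_sub β e he htop.1,
            hD.conf_sub β e he htop.1⟩
        · exact ⟨v, β, β, hD.conf_sub β e he hxe, hD.conf_sub β e he htop.1, hD.conf_sub β e he htop.1,
            hD.conf_sub β e he htop.1⟩
      unfold hb
      calc ∑ x ∈ (lst D s.t).filter (fun x => blk D s x v), pr D s x
          ≤ ∑ x ∈ (lst D s.t).filter (fun x => blk D s x v), 2 * (R : ℝ) ^ (-(99 / 100) : ℝ) :=
            sum_le_sum fun x hx => (h3 x (mem_filter.mp hx).1).2.2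
        _ = ((lst D s.t).filter (fun x => blk D s x v)).card * (2 * (R : ℝ) ^ (-(99 / 100) : ℝ)) := by
            rw [sum_const, nsmul_eq_mul]
        _ ≤ K * (2 * (R : ℝ) ^ (-(99 / 100) : ℝ)) := by
            have : (((lst D s.t).filter (fun x => blk D s x v)).card : ℝ) ≤ K := by exact_mod_cast hcard
            gcongr
        _ = _ := by ring
  · intro β hβ
    refine ⟨sum_nonneg fun x _ => hpr0 x, ?_⟩
    have hcard : ((lst D s.t).filter (fun x => x ∈ D.B β)).card ≤ K := by
      refine le_trans (card_le_card ?_) (hD.H9 β hβ s.t)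
      intro x hx
      rw [mem_filter] at hx
      rw [mem_inter]
      exact ⟨hx.2, hx.1⟩
    unfold mB
    calc ∑ x ∈ (lst D s.t).filter (fun x => x ∈ D.B β), pr D s x
        ≤ ∑ x ∈ (lst D s.t).filter (fun x => x ∈ D.B β), 2 * (R : ℝ) ^ (-(99 / 100) : ℝ) :=
          sum_le_sum fun x hx => (h3 x (mem_filter.mp hx).1).2.2
      _ = ((lst D s.t).filter (fun x => x ∈ D.B β)).card * (2 * (R : ℝ) ^ (-(99 / 100) : ℝ)) := by
          rw [sum_const, nsmul_eq_mul]
      _ ≤ K * (2 * (R : ℝ) ^ (-(99 / 100) : ℝ)) := by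
          have : (((lst D s.t).filter (fun x => x ∈ D.B β)).card : ℝ) ≤ K := by exact_mod_cast hcard
          gcongr
      _ = _ := by ring
  · intro β hβ
    have h4 := hs.Xup β hβ
    unfold XX at h4
    have h5 : 0 ≤ Real.exp (-s.LB β) * ∑ v ∈ (D.B β).filter (fun v => s.t ≤ (D.o v : ℕ)), s.w v :=
      mul_nonneg (Real.exp_pos _).le (sum_nonneg fun v _ => hs.w_nonneg v)
    linarith

end Pool.Agent.TH298.MP325NE
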