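import Pool.Agent.TH490.StmP

/-!
# Random permutations and small sets, double counting, for `MP_325b7c_co` (helper490)
-/

set_option autoImplicit false

namespace Pool.Agent.TH298.MP325P2a

open Finset Classical Pool.Agent.TH490

/-- the number of permutations mapping `T` into `B` -/
lemma perm_count {I : Type} [Fintype I] (B T : Finset I) :
    (univ.filter (fun π : Equiv.Perm I => ∀ x ∈ T, π x ∈ B)).card * (Fintype.card I) ^ T.card ≤
      B.card ^ T.card * (Fintype.card I).factorial := by
  induction T using Finset.induction_on with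
  | empty =>
    simp [Fintype.card_perm]
  | insert x T hx ih =>
    set m := Fintype.card I with hm
    set a := (univ.filter (fun π : Equiv.Perm I => ∀ x ∈ T, π x ∈ B)).card with ha
    set a' := (univ.filter (fun π : Equiv.Perm I => ∀ y ∈ insert x T, π y ∈ B)).card with ha'
    have hjm : T.card < m := by
      rw [hm, ← Finset.card_univ]
      exact card_lt_card ⟨subset_univ _, fun h => hx (h (mem_univ x))⟩
    have hbm : B.card ≤ m := Finset.card_le_univ B
    -- double counting
    have h1 : ∑ y ∈ univ \ T, (univ.filter (fun π : Equiv.Perm I => (∀ z ∈ T, π z ∈ B) ∧ π y ∈ B)).card =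
        (m - T.card) * a' := by
      have h2 : ∀ y ∈ univ \ T, (univ.filter (fun π : Equiv.Perm I => (∀ z ∈ T, π z ∈ B) ∧ π y ∈ B)).card = a' := by
        intro y hy
        have hyT : y ∉ T := (mem_sdiff.mp hy).2
        rw [ha']
        have hsw : ∀ z ∈ T, Equiv.swap x y z = z := by
          intro z hz
          refine Equiv.swap_apply_of_ne_of_ne ?_ ?_
          · rintro rfl; exact hx hz
          · rintro rfl; exact hyT hz
        refine Finset.card_bij' (fun π _ => π * Equiv.swap x y) (fun π _ => π * Equiv.swap x y) ?_ ?_ ?_ ?_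
        · intro π hπ
          simp only [mem_filter, mem_univ, true_and, mem_insert, forall_eq_or_imp, Equiv.Perm.coe_mul,
            Function.comp_apply, Equiv.swap_apply_left] at hπ ⊢
          exact ⟨hπ.2, fun z hz => by rw [hsw z hz]; exact hπ.1 z hz⟩
        · intro π hπ
          simp only [mem_filter, mem_univ, true_and, mem_insert, forall_eq_or_imp, Equiv.Perm.coe_mul,
            Function.comp_apply, Equiv.swap_apply_right] at hπ ⊢
          exact ⟨fun z hz => by rw [hsw z hz]; exact hπ.2 z hz, hπ.1⟩
        · intro π _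
          simp [mul_assoc]
        · intro π _
          simp [mul_assoc]
      rw [sum_congr rfl h2, sum_const, smul_eq_mul, card_sdiff_of_subset (subset_univ T), Finset.card_univ]
    have h3 : ∑ y ∈ univ \ T, (univ.filter (fun π : Equiv.Perm I => (∀ z ∈ T, π z ∈ B) ∧ π y ∈ B)).card =
        a * (B.card - T.card) := by
      simp_rw [Finset.card_filter]
      rw [sum_comm]
      have h4 : ∀ π : Equiv.Perm I, ∑ y ∈ univ \ T, (if (∀ z ∈ T, π z ∈ B) ∧ π y ∈ B then 1 else 0) =
          if (∀ z ∈ T, π z ∈ B) then B.card - T.card else 0 := by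
        intro π
        by_cases h : ∀ z ∈ T, π z ∈ B
        · simp only [if_pos h]
          have e : ∀ y, (if (∀ z ∈ T, π z ∈ B) ∧ π y ∈ B then 1 else 0) = if π y ∈ B then 1 else 0 := by
            intro y
            by_cases hy : π y ∈ B
            · rw [if_pos hy, if_pos ⟨h, hy⟩]
            · rw [if_neg hy, if_neg (fun h' => hy h'.2)]
          simp_rw [e]
          rw [← Finset.card_filter]
          have e2 : (univ \ T).filter (fun y => π y ∈ B) = (B.map π.symm.toEmbedding) \ T := by
            ext y
            simp only [mem_filter, mem_sdiff, mem_univ, true_and, mem_map, Equiv.coe_toEmbedding]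
            constructor
            · rintro ⟨h1, h2⟩
              exact ⟨⟨π y, h2, by simp⟩, h1⟩
            · rintro ⟨⟨z, hz, rfl⟩, h2⟩
              exact ⟨h2, by simpa using hz⟩
          rw [e2, card_sdiff_of_subset, card_map]
          intro z hz
          rw [mem_map]
          exact ⟨π z, h z hz, by simp⟩
        · simp only [if_neg h]
          refine sum_eq_zero fun y _ => if_neg (fun h' => h h'.1)
      rw [sum_congr rfl fun π _ => h4 π, ← sum_filter, sum_const, smul_eq_mul, ha]
    have h5 : (m - T.card) * a' = a * (B.card - T.card) := h1.symm.trans h3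
    -- the ratio
    have h6 : a' * m ≤ B.card * a := by
      by_cases hb : T.card ≤ B.card
      · have h7 : (m - T.card) * (a' * m) ≤ (m - T.card) * (B.card * a) := by
          have e1 : (m - T.card) * (a' * m) = a * ((B.card - T.card) * m) := by
            rw [← mul_assoc, h5]; ring
          have e2 : (m - T.card) * (B.card * a) = a * (B.card * (m - T.card)) := by ring
          rw [e1, e2]
          refine Nat.mul_le_mul_left _ ?_
          obtain ⟨u, hu⟩ := Nat.exists_eq_add_of_le hb
          obtain ⟨v, hv⟩ := Nat.exists_eq_add_of_le hjm.le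
          rw [hu, hv, Nat.add_sub_cancel_left, Nat.add_sub_cancel_left]
          rw [hu, hv] at hbm
          nlinarith
        exact Nat.le_of_mul_le_mul_left h7 (by omega)
      · have h8 : a' = 0 := by
          have : B.card - T.card = 0 := by omega
          rw [this, mul_zero] at h5
          rcases Nat.mul_eq_zero.mp h5 with h | h
          · omega
          · exact h
        rw [h8, zero_mul]
        exact Nat.zero_le _
    rw [card_insert_of_notMem hx, pow_succ, pow_succ]
    calc a' * (m ^ T.card * m) = (a' * m) * m ^ T.card := by ring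
      _ ≤ (B.card * a) * m ^ T.card := Nat.mul_le_mul_right _ h6
      _ = B.card * (a * m ^ T.card) := by ring
      _ ≤ B.card * (B.card ^ T.card * m.factorial) := Nat.mul_le_mul_left _ ih
      _ = _ := by ring

theorem bad : P2_bad := by
  intro n r B ε hε0 hε1 hB
  set m := n * r with hm
  have hcard : Fintype.card (Fin n × Fin r) = m := by simp [hm]
  set k := r / 4 + 1 with hk
  have hfix : ∀ (i : Fin n) (S : Finset (Fin r)), S.card = k →
      ((univ.filter (fun π : Equiv.Perm (Fin n × Fin r) => ∀ s ∈ S, π (i, s) ∈ B)).card : ℝ) ≤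
        ε ^ k * (m.factorial : ℝ) := by
    intro i S hS
    have h1 := perm_count B (S.image (fun s => (i, s)))
    have hc : (S.image (fun s => (i, s))).card = k := by
      rw [card_image_of_injective _ (fun s s' h => (Prod.mk.inj h).2), hS]
    rw [hc, hcard] at h1
    have h1 : (univ.filter (fun π : Equiv.Perm (Fin n × Fin r) => ∀ s ∈ S, π (i, s) ∈ B)).card * m ^ k ≤
        B.card ^ k * m.factorial := by
      refine le_trans (Nat.mul_le_mul_right _ (card_le_card ?_)) h1
      intro π hπ
      simp only [mem_filter, mem_univ, true_and, Finset.forall_mem_image] at hπ ⊢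
      exact hπ
    have h2 : ((univ.filter (fun π : Equiv.Perm (Fin n × Fin r) => ∀ s ∈ S, π (i, s) ∈ B)).card : ℝ) * (m:ℝ) ^ k ≤
        (B.card : ℝ) ^ k * (m.factorial : ℝ) := by exact_mod_cast h1
    have hm0 : 0 < m := by
      rcases Nat.eq_zero_or_pos r with h | h
      · exfalso
        have : S.card ≤ r := by simpa using Finset.card_le_univ S
        omega
      · exact Nat.mul_pos (Fin.pos i) h
    have hm0' : (0:ℝ) < (m:ℝ) ^ k := by
      have : (0:ℝ) < m := by exact_mod_cast hm0
      positivity
    have hB' : (B.card : ℝ) ≤ ε * m := by rw [hm]; push_cast; exact hB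
    have h3 : (B.card : ℝ) ^ k ≤ (ε * m) ^ k := pow_le_pow_left₀ (Nat.cast_nonneg _) hB' k
    have h4 : ((univ.filter (fun π : Equiv.Perm (Fin n × Fin r) => ∀ s ∈ S, π (i, s) ∈ B)).card : ℝ) * (m:ℝ) ^ k ≤
        (ε ^ k * (m.factorial : ℝ)) * (m:ℝ) ^ k := by
      refine h2.trans ?_
      calc (B.card : ℝ) ^ k * (m.factorial : ℝ) ≤ (ε * m) ^ k * (m.factorial : ℝ) :=
            mul_le_mul_of_nonneg_right h3 (Nat.cast_nonneg _)
        _ = _ := by rw [mul_pow]; ring
    exact le_of_mul_le_mul_right h4 hm0'
  have hsub : (univ.filter (fun π : Equiv.Perm (Fin n × Fin r) =>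
      ∃ i, r < 4 * (univ.filter (fun s : Fin r => π (i, s) ∈ B)).card)) ⊆
      (univ : Finset (Fin n)).biUnion (fun i => ((univ : Finset (Fin r)).powersetCard k).biUnion (fun S =>
        univ.filter (fun π : Equiv.Perm (Fin n × Fin r) => ∀ s ∈ S, π (i, s) ∈ B))) := by
    intro π hπ
    simp only [mem_filter, mem_univ, true_and] at hπ
    obtain ⟨i, hi⟩ := hπ
    have h1 : k ≤ (univ.filter (fun s : Fin r => π (i, s) ∈ B)).card := by omega
    obtain ⟨S, hS, hSk⟩ := Finset.exists_subset_card_eq h1
    simp only [mem_biUnion, mem_univ, true_and, mem_powersetCard, mem_filter]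
    refine ⟨i, S, ⟨subset_univ _, hSk⟩, fun s hs => ?_⟩
    exact (mem_filter.mp (hS hs)).2
  have h1 : ((univ.filter (fun π : Equiv.Perm (Fin n × Fin r) =>
      ∃ i, r < 4 * (univ.filter (fun s : Fin r => π (i, s) ∈ B)).card)).card : ℝ) ≤
      ∑ i : Fin n, ∑ S ∈ (univ : Finset (Fin r)).powersetCard k,
        ((univ.filter (fun π : Equiv.Perm (Fin n × Fin r) => ∀ s ∈ S, π (i, s) ∈ B)).card : ℝ) := by
    have h2 := (card_le_card hsub).trans (card_biUnion_le.trans (sum_le_sum fun i _ => card_biUnion_le))
    exact_mod_cast h2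
  refine h1.trans ?_
  have h2 : ∑ i : Fin n, ∑ S ∈ (univ : Finset (Fin r)).powersetCard k,
        ((univ.filter (fun π : Equiv.Perm (Fin n × Fin r) => ∀ s ∈ S, π (i, s) ∈ B)).card : ℝ) ≤
      ∑ i : Fin n, ∑ S ∈ (univ : Finset (Fin r)).powersetCard k, ε ^ k * (m.factorial : ℝ) :=
    sum_le_sum fun i _ => sum_le_sum fun S hS => hfix i S (mem_powersetCard.mp hS).2
  refine h2.trans ?_
  rw [sum_const, sum_const, Finset.card_univ, Fintype.card_fin, card_powersetCard, Finset.card_univ, Fintype.card_fin,
    nsmul_eq_mul, nsmul_eq_mul]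
  have h3 : ((r.choose k : ℕ) : ℝ) ≤ 2 ^ r := by exact_mod_cast Nat.choose_le_two_pow r k
  have h4 : ε ^ k ≤ ε ^ ((r:ℝ) / 4) := by
    rcases hε0.eq_or_lt with h | h
    · rw [← h, zero_pow (by omega)]
      exact Real.rpow_nonneg le_rfl _
    · rw [← Real.rpow_natCast ε k]
      refine Real.rpow_le_rpow_of_exponent_ge h hε1 ?_
      have : r < 4 * k := by omega
      have : (r:ℝ) < 4 * k := by exact_mod_cast this
      linarith
  have h5 : 0 ≤ ε ^ k := pow_nonneg hε0 k
  calc (n:ℝ) * (((r.choose k : ℕ) : ℝ) * (ε ^ k * (m.factorial : ℝ)))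
      ≤ (n:ℝ) * (2 ^ r * (ε ^ ((r:ℝ) / 4) * (m.factorial : ℝ))) := by gcongr
    _ = _ := by ring

theorem double : P2_double := by
  intro I P _ _ _ A F δ hδ h1 h2
  have hfac : (0:ℝ) < ((Fintype.card I).factorial : ℝ) := by exact_mod_cast Nat.factorial_pos _
  -- indicator
  set g : (I → P) → ℝ := fun f => if A f ∧ F f then 1 else 0 with hg
  have e1 : ((univ.filter (fun f : I → P => A f ∧ F f)).card : ℝ) = ∑ f, g f := by
    rw [Finset.card_filter]; push_cast; rfl
  have e2 : ∀ π : Equiv.Perm I, ∑ f, g (f ∘ π) = ∑ f, g f := by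
    intro π
    exact Equiv.sum_comp ((π.symm).arrowCongr (Equiv.refl P)) g
  have e3 : ∑ π : Equiv.Perm I, ∑ f, g (f ∘ π) = ((Fintype.card I).factorial : ℝ) * ∑ f, g f := by
    rw [sum_congr rfl fun π _ => e2 π, sum_const, Finset.card_univ, Fintype.card_perm, nsmul_eq_mul]
  have e4 : ∀ f : I → P, ∑ π : Equiv.Perm I, g (f ∘ π) ≤ δ * (Fintype.card I).factorial := by
    intro f
    by_cases hf : A f
    · refine le_trans ?_ (h1 f hf)
      rw [Finset.card_filter]
      push_cast
      refine sum_le_sum fun π _ => ?_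
      simp only [hg]
      by_cases hF : F (f ∘ π)
      · rw [if_pos ⟨h2 f π hf, hF⟩, if_pos hF]
      · rw [if_neg (fun h => hF h.2), if_neg hF]
    · have : ∑ π : Equiv.Perm I, g (f ∘ π) = 0 := by
        refine sum_eq_zero fun π _ => ?_
        simp only [hg]
        refine if_neg fun h => hf ?_
        have h3 := h2 (f ∘ π) π⁻¹ h.1
        have h4 : (f ∘ π) ∘ ⇑(π⁻¹) = f := by
          funext x; simp
        rwa [h4] at h3
      rw [this]
      positivity
  have e5 : ∑ π : Equiv.Perm I, ∑ f, g (f ∘ π) ≤ ((Fintype.card P : ℝ) ^ Fintype.card I) *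
      (δ * (Fintype.card I).factorial) := by
    rw [sum_comm]
    refine (sum_le_sum fun f _ => e4 f).trans ?_
    rw [sum_const, Finset.card_univ, Fintype.card_fun, nsmul_eq_mul]
    push_cast
    exact le_rfl
  rw [e3] at e5
  rw [e1]
  have e6 : ((Fintype.card I).factorial : ℝ) * ∑ f, g f ≤ ((Fintype.card I).factorial : ℝ) *
      (δ * (Fintype.card P : ℝ) ^ Fintype.card I) := e5.trans (le_of_eq (by ring))
  exact le_of_mul_le_mul_left e6 hfac

theorem p2a : P2_bad ∧ P2_double := ⟨bad, double⟩

end Pool.Agent.TH298.MP325P2a
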