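import Pool.Agent.TH719.ED.Defs

set_option autoImplicit false

namespace Pool.Agent.TH719.ED
open scoped Pointwise
open Filter Topology

namespace HR298

section exfacts
variable {G : Type} [Group G] (S : Finset G)

theorem Ex_succ (n : ℕ) (F : G → ℝ) :
    Ex S (n + 1) F = (∑ s ∈ S, Ex S n (fun y => F (s * y))) / S.card := rfl

theorem Ex_add (n : ℕ) : ∀ F H : G → ℝ, Ex S n (fun y => F y + H y) = Ex S n F + Ex S n H := by
  induction n with
  | zero => intro F H; rfl
  | succ n ih =>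
    intro F H
    rw [Ex_succ, Ex_succ, Ex_succ, ← add_div, ← Finset.sum_add_distrib]
    congr 1
    apply Finset.sum_congr rfl
    intro s _
    exact ih _ _

theorem Ex_smul (n : ℕ) : ∀ (a : ℝ) (F : G → ℝ), Ex S n (fun y => a * F y) = a * Ex S n F := by
  induction n with
  | zero => intro F H; rfl
  | succ n ih =>
    intro a F
    rw [Ex_succ, Ex_succ, ← mul_div_assoc, Finset.mul_sum]
    congr 1
    apply Finset.sum_congr rfl
    intro s _
    exact ih _ _

theorem Ex_mono (n : ℕ) : ∀ F H : G → ℝ, (∀ y, F y ≤ H y) → Ex S n F ≤ Ex S n H := by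
  induction n with
  | zero => intro F H h; exact h 1
  | succ n ih =>
    intro F H h
    rw [Ex_succ, Ex_succ]
    apply div_le_div_of_nonneg_right _ (by positivity)
    apply Finset.sum_le_sum
    intro s _
    exact ih _ _ (fun y => h _)

theorem Ex_const (hne : S.Nonempty) (n : ℕ) : ∀ a : ℝ, Ex S n (fun _ => a) = a := by
  induction n with
  | zero => intro a; rfl
  | succ n ih =>
    intro a
    rw [Ex_succ]
    simp only [ih]
    have : (S.card : ℝ) ≠ 0 := by
      have := hne.card_pos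
      positivity
    rw [Finset.sum_const, nsmul_eq_mul, mul_div_cancel_left₀ _ this]

theorem Ex_last (n : ℕ) : ∀ F : G → ℝ,
    Ex S (n + 1) F = Ex S n (fun y => (∑ s ∈ S, F (y * s)) / S.card) := by
  induction n with
  | zero => intro F; rw [Ex_succ]; simp [Ex]
  | succ n ih =>
    intro F
    rw [Ex_succ, Ex_succ]
    congr 1
    apply Finset.sum_congr rfl
    intro s _
    rw [ih]
    simp only [mul_assoc]

theorem Ex_abs_le (hne : S.Nonempty) (n : ℕ) (F : G → ℝ) (B : ℝ) (h : ∀ y, |F y| ≤ B) :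
    |Ex S n F| ≤ B := by
  rw [abs_le]
  constructor
  · have := Ex_mono S n (fun _ => -B) F (fun y => (abs_le.1 (h y)).1)
    rwa [Ex_const S hne] at this
  · have := Ex_mono S n F (fun _ => B) (fun y => (abs_le.1 (h y)).2)
    rwa [Ex_const S hne] at this

theorem Ex_sum {ι : Type*} (n : ℕ) (I : Finset ι) (F : ι → G → ℝ) :
    Ex S n (fun y => ∑ i ∈ I, F i y) = ∑ i ∈ I, Ex S n (F i) := by
  classical
  induction I using Finset.induction_on with
  | empty =>
    simp only [Finset.sum_empty]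
    have := Ex_smul S n 0 (fun _ => 0)
    simpa using this
  | insert a I ha ih =>
    simp only [Finset.sum_insert ha]
    rw [Ex_add S n (F a) (fun y => ∑ i ∈ I, F i y), ih]

/-- harmonic functions -/
def Harm (u : G → ℝ) : Prop := ∀ x, ∑ s ∈ S, u (x * s) = S.card * u x

theorem Ex_harm (hne : S.Nonempty) {u : G → ℝ} (hu : Harm S u) (n : ℕ) (x : G) :
    Ex S n (fun y => u (x * y)) = u x := by
  have hN : (S.card : ℝ) ≠ 0 := by
    have := hne.card_pos
    positivity
  induction n with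
  | zero => show u (x * 1) = u x; rw [mul_one]
  | succ n ih =>
    rw [Ex_last, ← ih]
    congr 1
    ext y
    have := hu (x * y)
    simp only [mul_assoc] at this
    rw [this, mul_div_cancel_left₀ _ hN]

/-- the energy density -/
noncomputable def DD (u v : G → ℝ) (y : G) : ℝ :=
  (∑ s ∈ S, (u (y * s) - u y) * (v (y * s) - v y)) / S.card

theorem Ex_martingale (hne : S.Nonempty) {u : G → ℝ} (hu : Harm S u) (n : ℕ) (x : G) :
    Ex S n (fun y => (u (x * y) - u x) ^ 2) =
      ∑ k ∈ Finset.range n, Ex S k (fun y => DD S u u (x * y)) := by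
  have hN : (S.card : ℝ) ≠ 0 := by
    have := hne.card_pos
    positivity
  induction n with
  | zero => simp [Ex]
  | succ n ih =>
    rw [Ex_last, Finset.sum_range_succ, ← ih, ← Ex_add]
    congr 1
    ext y
    have h := hu (x * y)
    rw [DD, ← mul_div_cancel_left₀ ((u (x * y) - u x) ^ 2) hN, ← add_div]
    congr 1
    have e : ∀ s ∈ S, (u (x * (y * s)) - u x) ^ 2 = (u (x * y) - u x) ^ 2 +
        2 * (u (x * y) - u x) * (u (x * y * s) - u (x * y)) +
        (u (x * y * s) - u (x * y)) * (u (x * y * s) - u (x * y)) := by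
      intro s _
      rw [mul_assoc x y s]; ring
    rw [Finset.sum_congr rfl e, Finset.sum_add_distrib, Finset.sum_add_distrib,
      ← Finset.mul_sum, Finset.sum_sub_distrib, h]
    simp

/-- averaged energy -/
noncomputable def BB (n : ℕ) (x : G) (u v : G → ℝ) : ℝ :=
  (∑ k ∈ Finset.range (n + 1), Ex S k (fun y => DD S u v (x * y))) / (n + 1)

/-- Lipschitz functions -/
def Lip (L : ℝ) (u : G → ℝ) : Prop := ∀ x, ∀ s ∈ S, |u (x * s) - u x| ≤ L

theorem DD_abs_le (hne : S.Nonempty) {u v : G → ℝ} {L L' : ℝ} (hu : Lip S L u)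
    (hv : Lip S L' v) (y : G) : |DD S u v y| ≤ L * L' := by
  have hN : (0 : ℝ) < S.card := by
    have := hne.card_pos
    positivity
  unfold DD
  rw [abs_div, abs_of_pos hN, div_le_iff₀ hN]
  refine (Finset.abs_sum_le_sum_abs _ _).trans ?_
  have : ∑ s ∈ S, |(u (y * s) - u y) * (v (y * s) - v y)| ≤ ∑ s ∈ S, L * L' := by
    apply Finset.sum_le_sum
    intro s hs
    rw [abs_mul]
    exact mul_le_mul (hu y s hs) (hv y s hs) (abs_nonneg _) ((abs_nonneg _).trans (hu y s hs))
  refine this.trans ?_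
  rw [Finset.sum_const, nsmul_eq_mul, mul_comm]

theorem BB_abs_le (hne : S.Nonempty) {u v : G → ℝ} {L L' : ℝ} (hu : Lip S L u)
    (hv : Lip S L' v) (n : ℕ) (x : G) : |BB S n x u v| ≤ L * L' := by
  unfold BB
  have hn : (0 : ℝ) < n + 1 := by positivity
  rw [abs_div, abs_of_pos hn, div_le_iff₀ hn]
  refine (Finset.abs_sum_le_sum_abs _ _).trans ?_
  have : ∑ k ∈ Finset.range (n + 1), |Ex S k (fun y => DD S u v (x * y))| ≤
      ∑ k ∈ Finset.range (n + 1), L * L' := by
    apply Finset.sum_le_sum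
    intro k _
    exact Ex_abs_le S hne k _ _ (fun y => DD_abs_le S hne hu hv _)
  refine this.trans ?_
  rw [Finset.sum_const, nsmul_eq_mul, Finset.card_range]
  push_cast
  rw [mul_comm]

theorem DD_add_left (u u' v : G → ℝ) (y : G) :
    DD S (fun z => u z + u' z) v y = DD S u v y + DD S u' v y := by
  unfold DD
  rw [← add_div, ← Finset.sum_add_distrib]
  congr 1
  apply Finset.sum_congr rfl
  intro s _
  ring

theorem DD_smul_left (a : ℝ) (u v : G → ℝ) (y : G) :
    DD S (fun z => a * u z) v y = a * DD S u v y := by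
  unfold DD
  rw [← mul_div_assoc, Finset.mul_sum]
  congr 1
  apply Finset.sum_congr rfl
  intro s _
  ring

theorem DD_symm (u v : G → ℝ) (y : G) : DD S u v y = DD S v u y := by
  unfold DD
  congr 1
  apply Finset.sum_congr rfl
  intro s _
  ring

theorem BB_add_left (n : ℕ) (x : G) (u u' v : G → ℝ) :
    BB S n x (fun z => u z + u' z) v = BB S n x u v + BB S n x u' v := by
  unfold BB
  rw [← add_div, ← Finset.sum_add_distrib]
  congr 1
  apply Finset.sum_congr rfl
  intro k _
  rw [← Ex_add]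
  congr 1
  ext y
  exact DD_add_left S u u' v _

theorem BB_smul_left (n : ℕ) (x : G) (a : ℝ) (u v : G → ℝ) :
    BB S n x (fun z => a * u z) v = a * BB S n x u v := by
  unfold BB
  rw [← mul_div_assoc, Finset.mul_sum]
  congr 1
  apply Finset.sum_congr rfl
  intro k _
  rw [← Ex_smul]
  congr 1
  ext y
  exact DD_smul_left S a u v _

theorem BB_symm (n : ℕ) (x : G) (u v : G → ℝ) : BB S n x u v = BB S n x v u := by
  unfold BB
  congr 1
  apply Finset.sum_congr rfl
  intro k _
  congr 1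
  ext y
  exact DD_symm S u v _

theorem DD_nonneg (u : G → ℝ) (y : G) : 0 ≤ DD S u u y := by
  unfold DD
  apply div_nonneg _ (by positivity)
  apply Finset.sum_nonneg
  intro s _
  exact mul_self_nonneg _

theorem BB_nonneg (hne : S.Nonempty) (n : ℕ) (x : G) (u : G → ℝ) : 0 ≤ BB S n x u u := by
  unfold BB
  apply div_nonneg _ (by positivity)
  apply Finset.sum_nonneg
  intro k _
  have := Ex_mono S k (fun _ => 0) (fun y => DD S u u (x * y)) (fun y => DD_nonneg S u _)
  rwa [Ex_const S hne] at this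

theorem BB_translate (hne : S.Nonempty) (hE2 : ∀ ε > 0, ∃ N : ℕ, ∀ n ≥ N, ∀ s ∈ S, ∀ f : G → ℝ,
      (∀ y, |f y| ≤ 1) →
        |∑ k ∈ Finset.range (n + 1), (Ex S k (fun y => f (s * y)) - Ex S k f)| ≤ ε * (n + 1))
    {u v : G → ℝ} {L L' : ℝ} (hu : Lip S L u) (hv : Lip S L' v) (x : G) {s : G} (hs : s ∈ S) :
    Tendsto (fun n => BB S n (x * s) u v - BB S n x u v) atTop (𝓝 0) := by
  have hL : 0 ≤ L := (abs_nonneg _).trans (hu 1 s hs)
  have hL' : 0 ≤ L' := (abs_nonneg _).trans (hv 1 s hs)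
  rw [Metric.tendsto_atTop]
  intro ε hε
  set B : ℝ := L * L' + 1 with hB
  have hBpos : 0 < B := by positivity
  obtain ⟨N, hN⟩ := hE2 (ε / (2 * B)) (by positivity)
  refine ⟨N, fun n hn => ?_⟩
  have h1 := hN n hn s hs (fun y => B⁻¹ * DD S u v (x * y)) (by
    intro y
    rw [abs_mul, abs_of_pos (by positivity), inv_mul_le_iff₀ hBpos, mul_one]
    refine (DD_abs_le S hne hu hv _).trans ?_
    rw [hB]; linarith)
  have h2 : ∑ k ∈ Finset.range (n + 1), (Ex S k (fun y => B⁻¹ * DD S u v (x * (s * y))) -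
      Ex S k (fun y => B⁻¹ * DD S u v (x * y))) =
      B⁻¹ * ((n + 1) * (BB S n (x * s) u v - BB S n x u v)) := by
    unfold BB
    have hn1 : ((n : ℝ) + 1) ≠ 0 := by positivity
    rw [← sub_div, mul_div_cancel₀ _ hn1, ← Finset.sum_sub_distrib, Finset.mul_sum]
    apply Finset.sum_congr rfl
    intro k _
    rw [Ex_smul, Ex_smul]
    simp only [mul_assoc]
    ring
  rw [h2, abs_mul, abs_mul, abs_of_pos (by positivity : (0:ℝ) < B⁻¹),
    abs_of_pos (by positivity : (0:ℝ) < (n : ℝ) + 1), inv_mul_le_iff₀ hBpos] at h1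
  rw [Real.dist_0_eq_abs]
  have h3 : ((n : ℝ) + 1) * |BB S n (x * s) u v - BB S n x u v| ≤ ((n : ℝ) + 1) * (ε / 2) := by
    refine h1.trans (le_of_eq ?_)
    field_simp
  have h4 := le_of_mul_le_mul_left h3 (by positivity)
  linarith

theorem BB_translate_all (hne : S.Nonempty) (hgen : Subgroup.closure (S : Set G) = ⊤)
    (hE2 : ∀ ε > 0, ∃ N : ℕ, ∀ n ≥ N, ∀ s ∈ S, ∀ f : G → ℝ,
      (∀ y, |f y| ≤ 1) →
        |∑ k ∈ Finset.range (n + 1), (Ex S k (fun y => f (s * y)) - Ex S k f)| ≤ ε * (n + 1))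
    {u v : G → ℝ} {L L' : ℝ} (hu : Lip S L u) (hv : Lip S L' v) (g : G) : ∀ (x : G),
    Tendsto (fun n => BB S n (x * g) u v - BB S n x u v) atTop (𝓝 0) := by
  have hg : g ∈ Subgroup.closure (S : Set G) := by rw [hgen]; trivial
  induction hg using Subgroup.closure_induction with
  | mem s hs => intro x; exact BB_translate S hne hE2 hu hv x hs
  | one => intro x; simp
  | mul a b _ _ iha ihb =>
    intro x
    have h := (ihb (x * a)).add (iha x)
    simp only [sub_add_sub_cancel, add_zero, mul_assoc] at h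
    exact h
  | inv a _ iha =>
    intro x
    have h := (iha (x * a⁻¹)).neg
    simpa using h

end exfacts

section abstractrep

theorem findim_of_bound {V : Type} [NormedAddCommGroup V] [InnerProductSpace ℝ V] (C0 : ℝ)
    (hC : ∀ (n : ℕ) (u : Fin n → V), Orthonormal ℝ u → (n : ℝ) ≤ C0) :
    FiniteDimensional ℝ V := by
  classical
  have h0 : (0 : ℝ) ≤ C0 := by
    have := hC 0 (fun i => i.elim0) ⟨fun i => i.elim0, fun i => i.elim0⟩
    simpa using this
  have hrank : Module.rank ℝ V ≤ (⌊C0⌋₊ : ℕ) := by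
    apply rank_le
    intro s hs
    have h1 : Module.finrank ℝ (Submodule.span ℝ (s : Set V)) = s.card :=
      finrank_span_finset_eq_card hs
    have hfd : FiniteDimensional ℝ (Submodule.span ℝ (s : Set V)) :=
      FiniteDimensional.span_finset ℝ s
    let b := stdOrthonormalBasis ℝ (Submodule.span ℝ (s : Set V))
    have h2 : Orthonormal ℝ (fun i => ((b i : Submodule.span ℝ (s : Set V)) : V)) :=
      b.orthonormal.comp_linearIsometry (Submodule.span ℝ (s : Set V)).subtypeₗᵢ
    have h3 := hC _ _ h2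
    rw [h1] at h3
    exact Nat.le_floor h3
  have : Module.rank ℝ V < Cardinal.aleph0 :=
    lt_of_le_of_lt hrank (Cardinal.natCast_lt_aleph0)
  exact Module.rank_lt_aleph0_iff.1 this

theorem abstract_rep {G : Type} [Group G] (S : Finset G) {V : Type} [AddCommGroup V] [Module ℝ V]
    (q : V → V → ℝ) (hsymm : ∀ u v, q u v = q v u)
    (hadd : ∀ u v w, q (u + v) w = q u w + q v w) (hsmul : ∀ (a : ℝ) u v, q (a • u) v = a * q u v)
    (hnn : ∀ u, 0 ≤ q u u) (hdef : ∀ u, q u u = 0 → u = 0) (C0 : ℝ)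
    (hC : ∀ (n : ℕ) (u : Fin n → V), (∀ i j, q (u i) (u j) = if i = j then 1 else 0) →
      (n : ℝ) ≤ C0)
    (ρ : G →* (V ≃ₗ[ℝ] V)) (hρ : ∀ g u v, q (ρ g u) (ρ g v) = q u v)
    (ev : G → V →ₗ[ℝ] ℝ) (hev : ∀ x y u, ev (x * y) u = ev x u + ev y (ρ x⁻¹ u))
    (hharm : ∀ x u, ∑ s ∈ S, ev (x * s) u = S.card * ev x u) (hne : ∃ x u, ev x u ≠ 0) :
    ∃ (V : Type) (_ : NormedAddCommGroup V) (_ : InnerProductSpace ℝ V)
      (_ : FiniteDimensional ℝ V) (ρ : G →* (V ≃ₗᵢ[ℝ] V)) (b : G → V),
      (∀ x y, b (x * y) = b x + ρ x (b y)) ∧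
      (∀ x, ∑ s ∈ S, b (x * s) = (S.card : ℝ) • b x) ∧ ∃ x, b x ≠ 0 := by
  classical
  let core : InnerProductSpace.Core ℝ V :=
    { inner := q
      conj_inner_symm := fun x y => by simp [hsymm x y]
      re_inner_nonneg := fun x => by simpa using hnn x
      add_left := hadd
      smul_left := fun x y r => by simpa using hsmul r x y
      definite := hdef }
  let i1 : NormedAddCommGroup V := core.toNormedAddCommGroup
  let i2 : InnerProductSpace ℝ V := InnerProductSpace.ofCore core.toCore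
  have hin : ∀ u v : V, inner ℝ u v = q u v := fun _ _ => rfl
  have i3 : FiniteDimensional ℝ V := by
    apply findim_of_bound C0
    intro n u hu
    apply hC n u
    intro i j
    rw [← hin]
    exact orthonormal_iff_ite.1 hu i j
  let ρ' : G →* (V ≃ₗᵢ[ℝ] V) :=
    { toFun := fun g => LinearEquiv.isometryOfInner (ρ g) (fun u v => hρ g u v)
      map_one' := by ext u; simp
      map_mul' := fun g h => by ext u; simp }
  have hρ' : ∀ g u, ρ' g u = ρ g u := fun _ _ => rfl
  let b : G → V := fun x => (InnerProductSpace.toDual ℝ V).symm (LinearMap.toContinuousLinearMap (ev x))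
  have hb : ∀ x u, inner ℝ (b x) u = ev x u := by
    intro x u
    simp [b]
  refine ⟨V, i1, i2, i3, ρ', b, ?_, ?_, ?_⟩
  · intro x y
    apply ext_inner_right ℝ
    intro u
    have h1 : inner ℝ (ρ' x (b y)) u = inner ℝ (b y) (ρ x⁻¹ u) := by
      rw [hρ', hin, hin]
      have h2 := hρ x (b y) (ρ x⁻¹ u)
      have h3 : ρ x (ρ x⁻¹ u) = u := by
        rw [← LinearEquiv.mul_apply, ← map_mul, mul_inv_cancel, map_one]; rfl
      rw [h3] at h2
      exact h2
    rw [inner_add_left, hb, hb, h1, hb, hev]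
  · intro x
    apply ext_inner_right ℝ
    intro u
    rw [sum_inner, inner_smul_left, hb]
    simp only [hb]
    rw [hharm]; simp
  · obtain ⟨x, u, hxu⟩ := hne
    refine ⟨x, ?_⟩
    intro h
    apply hxu
    rw [← hb, h, inner_zero_left]

end abstractrep


section main
variable {G : Type} [Group G] (S : Finset G)

/-- Lipschitz harmonic functions vanishing at `1` -/
def V0 : Submodule ℝ (G → ℝ) where
  carrier := {u | u 1 = 0 ∧ Harm S u ∧ ∃ L, Lip S L u}
  add_mem' := by
    rintro u v ⟨h1, h2, L, h3⟩ ⟨h1', h2', L', h3'⟩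
    refine ⟨by simp [h1, h1'], ?_, L + L', ?_⟩
    · intro x
      simp only [Pi.add_apply]
      rw [Finset.sum_add_distrib, h2, h2', mul_add]
    · intro x s hs
      simp only [Pi.add_apply]
      have e : u (x * s) + v (x * s) - (u x + v x) = (u (x * s) - u x) + (v (x * s) - v x) := by
        ring
      rw [e]
      exact (abs_add_le _ _).trans (add_le_add (h3 x s hs) (h3' x s hs))
  zero_mem' := ⟨rfl, fun x => by simp, 0, fun x s _ => by simp⟩
  smul_mem' := by
    rintro a u ⟨h1, h2, L, h3⟩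
    refine ⟨by simp [h1], ?_, |a| * L, ?_⟩
    · intro x
      simp only [Pi.smul_apply, smul_eq_mul]
      rw [← Finset.mul_sum, h2]; ring
    · intro x s hs
      simp only [Pi.smul_apply, smul_eq_mul]
      rw [← mul_sub, abs_mul]
      exact mul_le_mul_of_nonneg_left (h3 x s hs) (abs_nonneg _)

/-- the limit form -/
noncomputable def qq (U : Ultrafilter ℕ) (u v : V0 S) : ℝ :=
  limUnder (U : Filter ℕ) (fun n => BB S n 1 (u : G → ℝ) (v : G → ℝ))

theorem tendsto_qq (hne : S.Nonempty) (U : Ultrafilter ℕ) (u v : V0 S) :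
    Tendsto (fun n => BB S n 1 (u : G → ℝ) (v : G → ℝ)) U (𝓝 (qq S U u v)) := by
  obtain ⟨_, _, L, hL⟩ := u.2
  obtain ⟨_, _, L', hL'⟩ := v.2
  have hb := fun n => BB_abs_le S hne hL hL' n 1
  have h1 : ((U.map (fun n => BB S n 1 (u : G → ℝ) (v : G → ℝ)) : Ultrafilter ℝ) : Filter ℝ) ≤
      𝓟 (Set.Icc (-(L * L')) (L * L')) := by
    rw [Ultrafilter.coe_map, Filter.le_principal_iff, Filter.mem_map]
    apply Filter.univ_mem'
    intro n
    exact abs_le.1 (hb n)
  obtain ⟨a, _, ha⟩ := isCompact_Icc.ultrafilter_le_nhds _ h1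
  exact tendsto_nhds_limUnder ⟨a, ha⟩

theorem tendsto_qq' (hne : S.Nonempty) (hgen : Subgroup.closure (S : Set G) = ⊤)
    (hE2 : ∀ ε > 0, ∃ N : ℕ, ∀ n ≥ N, ∀ s ∈ S, ∀ f : G → ℝ,
      (∀ y, |f y| ≤ 1) →
        |∑ k ∈ Finset.range (n + 1), (Ex S k (fun y => f (s * y)) - Ex S k f)| ≤ ε * (n + 1))
    (U : Ultrafilter ℕ) (hU : (U : Filter ℕ) ≤ atTop) (u v : V0 S) (x : G) :
    Tendsto (fun n => BB S n x (u : G → ℝ) (v : G → ℝ)) U (𝓝 (qq S U u v)) := by
  obtain ⟨_, _, L, hL⟩ := u.2
  obtain ⟨_, _, L', hL'⟩ := v.2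
  have h1 := (BB_translate_all S hne hgen hE2 hL hL' x 1).mono_left hU
  have h2 := h1.add (tendsto_qq S hne U u v)
  simpa using h2

theorem qq_symm (U : Ultrafilter ℕ) (u v : V0 S) : qq S U u v = qq S U v u := by
  unfold qq
  congr 1
  ext n
  exact BB_symm S n 1 _ _

theorem qq_add (hne : S.Nonempty) (U : Ultrafilter ℕ) (u u' v : V0 S) :
    qq S U (u + u') v = qq S U u v + qq S U u' v := by
  have h1 := tendsto_qq S hne U (u + u') v
  have h2 := (tendsto_qq S hne U u v).add (tendsto_qq S hne U u' v)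
  refine tendsto_nhds_unique h1 (h2.congr fun n => ?_)
  exact (BB_add_left S n 1 _ _ _).symm

theorem qq_smul (hne : S.Nonempty) (U : Ultrafilter ℕ) (a : ℝ) (u v : V0 S) :
    qq S U (a • u) v = a * qq S U u v := by
  have h1 := tendsto_qq S hne U (a • u) v
  have h2 := (tendsto_qq S hne U u v).const_mul a
  refine tendsto_nhds_unique h1 (h2.congr fun n => ?_)
  exact (BB_smul_left S n 1 a _ _).symm

theorem qq_nonneg (hne : S.Nonempty) (U : Ultrafilter ℕ) (u : V0 S) : 0 ≤ qq S U u u :=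
  ge_of_tendsto' (tendsto_qq S hne U u u) (fun n => BB_nonneg S hne n 1 _)

theorem step_bound (hne : S.Nonempty) {C0 : ℝ} {n : ℕ} {s : G}
    (hn : ∀ f : G → ℝ, (Ex S n (fun y => f (s * y)) - Ex S (n + 1) f) ^ 2 ≤
          C0 / (n + 1) * Ex S (n + 1) (fun y => f y ^ 2)) {u : G → ℝ} (hu : Harm S u) (x : G) :
    (u (x * s) - u x) ^ 2 ≤ C0 * BB S n x u u := by
  have h1 := hn (fun y => u (x * y) - u x)
  rw [Ex_martingale S hne hu] at h1
  have e1 : Ex S n (fun y => u (x * (s * y)) - u x) = u (x * s) - u x := by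
    have := Ex_add S n (fun y => u (x * s * y)) (fun _ => -u x)
    rw [Ex_harm S hne hu, Ex_const S hne] at this
    simp only [mul_assoc, ← sub_eq_add_neg] at this
    exact this
  have e2 : Ex S (n + 1) (fun y => u (x * y) - u x) = 0 := by
    have := Ex_add S (n + 1) (fun y => u (x * y)) (fun _ => -u x)
    rw [Ex_harm S hne hu, Ex_const S hne] at this
    simp only [← sub_eq_add_neg, sub_self] at this
    exact this
  rw [e1, e2, sub_zero] at h1
  refine h1.trans (le_of_eq ?_)
  unfold BB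
  ring

/-- the action on Lipschitz harmonic functions -/
noncomputable def act (x : G) : V0 S →ₗ[ℝ] V0 S where
  toFun u := ⟨fun y => (u : G → ℝ) (x⁻¹ * y) - (u : G → ℝ) x⁻¹, by
    obtain ⟨h1, h2, L, h3⟩ := u.2
    refine ⟨by simp, ?_, L, ?_⟩
    · intro y
      have := h2 (x⁻¹ * y)
      simp only [mul_assoc] at this
      rw [Finset.sum_sub_distrib, this]
      simp; ring
    · intro y s hs
      have := h3 (x⁻¹ * y) s hs
      rw [mul_assoc] at this
      simpa using this⟩
  map_add' u v := by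
    ext y
    simp; ring
  map_smul' a u := by
    ext y
    simp; ring

theorem act_apply (x : G) (u : V0 S) (y : G) :
    (act S x u : G → ℝ) y = (u : G → ℝ) (x⁻¹ * y) - (u : G → ℝ) x⁻¹ := rfl

theorem act_mul (x y : G) (u : V0 S) : act S (x * y) u = act S x (act S y u) := by
  apply Subtype.ext
  funext z
  rw [act_apply, act_apply, act_apply, act_apply]
  simp only [mul_inv_rev, mul_assoc]
  ring

theorem act_one (u : V0 S) : act S 1 u = u := by
  apply Subtype.ext
  funext z
  rw [act_apply]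
  simp [u.2.1]

/-- the action by linear equivalences -/
noncomputable def rho : G →* (V0 S ≃ₗ[ℝ] V0 S) where
  toFun x := LinearEquiv.ofLinearMap (act S x) (act S x⁻¹)
    (by ext1 u; rw [LinearMap.comp_apply, ← act_mul, mul_inv_cancel, act_one]; rfl)
    (by ext1 u; rw [LinearMap.comp_apply, ← act_mul, inv_mul_cancel, act_one]; rfl)
  map_one' := by
    ext1 u
    exact act_one S u
  map_mul' x y := by
    ext1 u
    exact act_mul S x y u

theorem rho_apply (x : G) (u : V0 S) : rho S x u = act S x u := rfl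

theorem qq_act (hne : S.Nonempty) (hgen : Subgroup.closure (S : Set G) = ⊤)
    (hE2 : ∀ ε > 0, ∃ N : ℕ, ∀ n ≥ N, ∀ s ∈ S, ∀ f : G → ℝ,
      (∀ y, |f y| ≤ 1) →
        |∑ k ∈ Finset.range (n + 1), (Ex S k (fun y => f (s * y)) - Ex S k f)| ≤ ε * (n + 1))
    (U : Ultrafilter ℕ) (hU : (U : Filter ℕ) ≤ atTop) (u v : V0 S) (x : G) :
    qq S U (act S x u) (act S x v) = qq S U u v := by
  have h1 := tendsto_qq S hne U (act S x u) (act S x v)
  have h2 := tendsto_qq' S hne hgen hE2 U hU u v x⁻¹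
  refine tendsto_nhds_unique h1 (h2.congr fun n => ?_)
  unfold BB
  congr 1
  apply Finset.sum_congr rfl
  intro k _
  congr 1
  ext y
  unfold DD
  congr 1
  apply Finset.sum_congr rfl
  intro s _
  rw [act_apply, act_apply, act_apply, act_apply]
  simp only [one_mul, mul_assoc]
  ring

theorem qq_sum (hne : S.Nonempty) (U : Ultrafilter ℕ) {n : ℕ} (u : Fin n → V0 S)
    (h : ∀ i j, qq S U (u i) (u j) = if i = j then 1 else 0) (a : Fin n → ℝ) :
    qq S U (∑ i, a i • u i) (∑ i, a i • u i) = ∑ i, a i ^ 2 := by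
  have hl : ∀ (I : Finset (Fin n)) (w : V0 S),
      qq S U (∑ i ∈ I, a i • u i) w = ∑ i ∈ I, a i * qq S U (u i) w := by
    classical
    intro I w
    induction I using Finset.induction_on with
    | empty =>
      simp only [Finset.sum_empty]
      have := qq_smul S hne U 0 0 w
      simpa using this
    | insert b I hb ih =>
      rw [Finset.sum_insert hb, Finset.sum_insert hb, qq_add S hne, qq_smul S hne, ih]
  rw [hl]
  apply Finset.sum_congr rfl
  intro i _
  rw [qq_symm, hl]
  simp only [h]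
  rw [Finset.sum_eq_single i]
  · simp; ring
  · intro j _ hj
    simp [hj]
  · simp

end main

end HR298

theorem harmonic_rep {G : Type} [Group G] (S : Finset G) (h1 : (1 : G) ∈ S)
    (hS : ∀ x ∈ S, x⁻¹ ∈ S) (hgen : Subgroup.closure (S : Set G) = ⊤) (C0 : ℝ)
    (hE1 : ∀ N : ℕ, ∃ n ≥ N, ∀ s ∈ S, ∀ f : G → ℝ,
        (Ex S n (fun y => f (s * y)) - Ex S (n + 1) f) ^ 2 ≤
          C0 / (n + 1) * Ex S (n + 1) (fun y => f y ^ 2))
    (hE2 : ∀ ε > 0, ∃ N : ℕ, ∀ n ≥ N, ∀ s ∈ S, ∀ f : G → ℝ, (∀ y, |f y| ≤ 1) →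
        |∑ k ∈ Finset.range (n + 1), (Ex S k (fun y => f (s * y)) - Ex S k f)| ≤ ε * (n + 1))
    (f : G → ℝ) (L : ℝ) (hf : ∀ x, ∑ s ∈ S, f (x * s) = S.card * f x)
    (hfL : ∀ x, ∀ s ∈ S, |f (x * s) - f x| ≤ L) (hfn : ∃ x, f x ≠ f 1) :
    ∃ (V : Type) (_ : NormedAddCommGroup V) (_ : InnerProductSpace ℝ V)
      (_ : FiniteDimensional ℝ V) (ρ : G →* (V ≃ₗᵢ[ℝ] V)) (b : G → V),
      (∀ x y, b (x * y) = b x + ρ x (b y)) ∧
      (∀ x, ∑ s ∈ S, b (x * s) = (S.card : ℝ) • b x) ∧ ∃ x, b x ≠ 0 := by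
  classical
  have hne : S.Nonempty := ⟨1, h1⟩
  have hN : (0 : ℝ) < S.card := by
    have := hne.card_pos
    positivity
  set A : Set ℕ := {n | ∀ s ∈ S, ∀ f : G → ℝ,
        (Ex S n (fun y => f (s * y)) - Ex S (n + 1) f) ^ 2 ≤
          C0 / (n + 1) * Ex S (n + 1) (fun y => f y ^ 2)} with hA
  have hNB : (atTop ⊓ 𝓟 A : Filter ℕ).NeBot := by
    rw [← Filter.frequently_mem_iff_neBot, Filter.frequently_atTop]
    intro N
    obtain ⟨n, hn, h⟩ := hE1 N
    exact ⟨n, hn, h⟩
  set U : Ultrafilter ℕ := Ultrafilter.of (atTop ⊓ 𝓟 A) with hUdef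
  have hU0 : (U : Filter ℕ) ≤ atTop ⊓ 𝓟 A := Ultrafilter.of_le _
  have hU : (U : Filter ℕ) ≤ atTop := hU0.trans inf_le_left
  have hUA : ∀ᶠ n in (U : Filter ℕ), n ∈ A := by
    have := hU0.trans inf_le_right
    exact Filter.le_principal_iff.1 this
  have hstep : ∀ (u : HR298.V0 S) (x : G), ∀ s ∈ S,
      ((u : G → ℝ) (x * s) - (u : G → ℝ) x) ^ 2 ≤ C0 * HR298.qq S U u u := by
    intro u x s hs
    have h2 := (HR298.tendsto_qq' S hne hgen hE2 U hU u u x).const_mul C0
    refine ge_of_tendsto h2 ?_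
    filter_upwards [hUA] with n hn
    exact HR298.step_bound S hne (hn s hs) u.2.2.1 x
  have hconst : ∀ u : G → ℝ, (∀ x, ∀ s ∈ S, u (x * s) = u x) → ∀ g x : G, u (x * g) = u x := by
    intro u hu g
    have hg : g ∈ Subgroup.closure (S : Set G) := by rw [hgen]; trivial
    induction hg using Subgroup.closure_induction with
    | mem s hs => intro x; exact hu x s hs
    | one => intro x; simp
    | mul a b _ _ iha ihb => intro x; rw [← mul_assoc, ihb, iha]
    | inv a _ iha => intro x; have := iha (x * a⁻¹); simpa using this.symm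
  -- the nonconstant function
  let f0 : HR298.V0 S := ⟨fun x => f x - f 1, by simp, by
    intro x
    rw [Finset.sum_sub_distrib, hf]
    simp; ring, L, by
    intro x s hs
    simpa using hfL x s hs⟩
  have hf0 : ∃ x, (f0 : G → ℝ) x ≠ 0 := by
    obtain ⟨x, hx⟩ := hfn
    exact ⟨x, sub_ne_zero.2 hx⟩
  have hdef : ∀ u : HR298.V0 S, HR298.qq S U u u = 0 → u = 0 := by
    intro u hu
    have h2 : ∀ x, ∀ s ∈ S, (u : G → ℝ) (x * s) = (u : G → ℝ) x := by
      intro x s hs
      have := hstep u x s hs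
      rw [hu, mul_zero] at this
      have h3 : (u : G → ℝ) (x * s) - (u : G → ℝ) x = 0 := by
        have := le_antisymm this (sq_nonneg _)
        exact pow_eq_zero_iff (two_ne_zero) |>.1 this
      linarith
    apply Subtype.ext
    funext x
    have := hconst u h2 x 1
    rw [one_mul, u.2.1] at this
    exact this
  have hC0 : 0 ≤ C0 := by
    by_contra hneg
    push Not at hneg
    obtain ⟨x, hx⟩ := hf0
    apply hx
    have h2 : ∀ x, ∀ s ∈ S, (f0 : G → ℝ) (x * s) = (f0 : G → ℝ) x := by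
      intro x s hs
      have := hstep f0 x s hs
      have h4 : C0 * HR298.qq S U f0 f0 ≤ 0 :=
        mul_nonpos_of_nonpos_of_nonneg hneg.le (HR298.qq_nonneg S hne U f0)
      have h3 : (f0 : G → ℝ) (x * s) - (f0 : G → ℝ) x = 0 := by
        have := le_antisymm (this.trans h4) (sq_nonneg _)
        exact pow_eq_zero_iff (two_ne_zero) |>.1 this
      linarith
    have := hconst f0 h2 x 1
    rw [one_mul, f0.2.1] at this
    exact this
  refine HR298.abstract_rep S (HR298.qq S U) (HR298.qq_symm S U) (HR298.qq_add S hne U)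
    (HR298.qq_smul S hne U) (HR298.qq_nonneg S hne U) hdef C0 ?_ (HR298.rho S)
    (fun g u v => HR298.qq_act S hne hgen hE2 U hU u v g)
    (fun x => (LinearMap.proj x).comp (HR298.V0 S).subtype) ?_ ?_ ?_
  · intro n u hu
    have hΔ : ∀ (x : G), ∀ s ∈ S,
        ∑ i, ((u i : G → ℝ) (x * s) - (u i : G → ℝ) x) ^ 2 ≤ C0 := by
      intro x s hs
      set a : Fin n → ℝ := fun i => (u i : G → ℝ) (x * s) - (u i : G → ℝ) x with ha
      have h2 := hstep (∑ i, a i • u i) x s hs
      rw [HR298.qq_sum S hne U u hu] at h2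
      have h3 : ((∑ i, a i • u i : HR298.V0 S) : G → ℝ) (x * s) -
          ((∑ i, a i • u i : HR298.V0 S) : G → ℝ) x = ∑ i, a i ^ 2 := by
        rw [Submodule.coe_sum, Finset.sum_apply, Finset.sum_apply, ← Finset.sum_sub_distrib]
        apply Finset.sum_congr rfl
        intro i _
        simp only [Submodule.coe_smul, Pi.smul_apply, smul_eq_mul, ha]
        ring
      rw [h3] at h2
      show ∑ i, a i ^ 2 ≤ C0
      have h4 : 0 ≤ ∑ i, a i ^ 2 := Finset.sum_nonneg fun i _ => sq_nonneg _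
      by_contra hcon
      push Not at hcon
      nlinarith
    have hDD : ∀ y, ∑ i, HR298.DD S (u i) (u i) y ≤ C0 := by
      intro y
      unfold HR298.DD
      rw [← Finset.sum_div, Finset.sum_comm, div_le_iff₀ hN]
      have : ∑ s ∈ S, ∑ i, ((u i : G → ℝ) (y * s) - (u i : G → ℝ) y) *
          ((u i : G → ℝ) (y * s) - (u i : G → ℝ) y) ≤ ∑ s ∈ S, C0 := by
        apply Finset.sum_le_sum
        intro s hs
        have := hΔ y s hs
        simpa only [sq] using this
      refine this.trans ?_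
      rw [Finset.sum_const, nsmul_eq_mul, mul_comm]
    have hBB : ∀ k, ∑ i, HR298.BB S k 1 (u i) (u i) ≤ C0 := by
      intro k
      unfold HR298.BB
      have hk : (0 : ℝ) < k + 1 := by positivity
      rw [← Finset.sum_div, Finset.sum_comm, div_le_iff₀ hk]
      have : ∑ j ∈ Finset.range (k + 1), ∑ i, Ex S j (fun y => HR298.DD S (u i) (u i) (1 * y)) ≤
          ∑ j ∈ Finset.range (k + 1), C0 := by
        apply Finset.sum_le_sum
        intro j _
        rw [← HR298.Ex_sum S j Finset.univ (fun i y => HR298.DD S (u i) (u i) (1 * y))]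
        have h5 := HR298.Ex_mono S j (fun y => ∑ i, HR298.DD S (u i) (u i) (1 * y))
          (fun _ => C0) (fun y => hDD _)
        rwa [HR298.Ex_const S hne] at h5
      refine this.trans ?_
      rw [Finset.sum_const, nsmul_eq_mul, Finset.card_range]
      push_cast
      rw [mul_comm]
    have hlim : Tendsto (fun k => ∑ i, HR298.BB S k 1 (u i) (u i)) U
        (𝓝 (∑ i, HR298.qq S U (u i) (u i))) :=
      tendsto_finsetSum _ fun i _ => HR298.tendsto_qq S hne U (u i) (u i)
    have h6 := le_of_tendsto' hlim hBB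
    simpa [hu] using h6
  · intro x y u
    show (u : G → ℝ) (x * y) = (u : G → ℝ) x + (HR298.rho S x⁻¹ u : G → ℝ) y
    rw [HR298.rho_apply, HR298.act_apply]
    simp
  · intro x u
    exact u.2.2.1 x
  · obtain ⟨x, hx⟩ := hf0
    exact ⟨x, f0, hx⟩

end Pool.Agent.TH719.ED
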