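import Pool.Agent.TH298.FLB

set_option autoImplicit false

universe u v

namespace Pool.Agent.TH298.FL

open Module Pool.Agent.TH28.FL

section dat

variable {K : Type u} {L : Type v} [Field K] [CharZero K] [LieRing L] [LieAlgebra K L]
  [FiniteDimensional K L]

theorem exists_gen {w : L} {M : ℤ} (h : Dat K w M) : ∃ e : ℤ → L, (∀ j, e j ∈ dg K w j) ∧
    (∀ j, j ≠ 0 → ∀ x ∈ dg K w j, ∃ c : K, x = c • e j) := by
  classical
  have h1 : ∀ j : ℤ, ∃ v : L, v ∈ dg K w j ∧
      (j ≠ 0 → ∀ x ∈ dg K w j, ∃ c : K, x = c • v) := by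
    intro j
    by_cases hj : j = 0
    · exact ⟨0, zero_mem _, fun h => absurd hj h⟩
    · have := h.one j hj
      rw [finrank_le_one_iff] at this
      obtain ⟨v, hv⟩ := this
      refine ⟨v, v.2, fun _ x hx => ?_⟩
      obtain ⟨c, hc⟩ := hv ⟨x, hx⟩
      exact ⟨c, by have := congrArg Subtype.val hc; simpa using this.symm⟩
  choose e he using h1
  exact ⟨e, fun j => (he j).1, fun j hj => (he j).2 hj⟩

theorem finrank_graded {w : L} (e : ℤ → L) (he : ∀ j, e j ∈ dg K w j)
    (hg : ∀ j, j ≠ 0 → ∀ x ∈ dg K w j, ∃ c : K, x = c • e j) (S : Finset ℤ)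
    (hS : ∀ j, j ∈ S ↔ j ≠ 0 ∧ e j ≠ 0) (U : Submodule K L) [DecidablePred fun j => e j ∈ U]
    (hU : U ≤ ⨆ j, U ⊓ dg K w j) (h0 : U ⊓ dg K w 0 = ⊥) :
    finrank K U = (S.filter (fun j => e j ∈ U)).card := by
  classical
  set T := S.filter (fun j => e j ∈ U) with hT
  have hspan : U = Submodule.span K (Set.range (fun j : T => e j)) := by
    apply le_antisymm
    · refine hU.trans (iSup_le fun j => ?_)
      intro x hx
      by_cases hj : j = 0
      · subst hj
        rw [h0] at hx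
        rw [(Submodule.mem_bot K).mp hx]
        exact zero_mem _
      obtain ⟨c, hc⟩ := hg j hj x hx.2
      by_cases hx0 : x = 0
      · rw [hx0]; exact zero_mem _
      have hc0 : c ≠ 0 := by
        rintro rfl
        apply hx0
        rw [hc, zero_smul]
      have he0 : e j ≠ 0 := by
        intro h
        apply hx0
        rw [hc, h, smul_zero]
      have heU : e j ∈ U := by
        have := U.smul_mem c⁻¹ hx.1
        rw [hc, smul_smul, inv_mul_cancel₀ hc0, one_smul] at this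
        exact this
      rw [hc]
      exact Submodule.smul_mem _ _ (Submodule.subset_span
        ⟨⟨j, Finset.mem_filter.mpr ⟨(hS j).mpr ⟨hj, he0⟩, heU⟩⟩, rfl⟩)
    · rw [Submodule.span_le]
      rintro _ ⟨j, rfl⟩
      exact (Finset.mem_filter.mp j.2).2
  have hli : LinearIndependent K (fun j : T => e j) := by
    refine Module.End.eigenvectors_linearIndependent' (LieAlgebra.ad K L w)
      (fun j : T => ((j : ℤ) : K)) (fun a b hab => Subtype.ext (Int.cast_injective hab)) _
      (fun j => ⟨?_, ?_⟩)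
    · have := he j
      rw [dg_eq] at this
      exact this
    · exact ((hS j).mp (Finset.mem_filter.mp j.2).1).2
  have := finrank_span_eq_card hli
  rw [← hspan, Fintype.card_coe] at this
  exact this

theorem nn_graded {w : L} : nn K w ≤ ⨆ j : ℤ, nn K w ⊓ dg K w j := by
  conv_lhs => unfold nn
  refine iSup_le fun j => iSup_le fun hj => ?_
  refine le_iSup_of_le j (le_inf ?_ le_rfl)
  exact le_iSup_of_le j (le_iSup_of_le hj le_rfl)

theorem nn_inf {w : L} {j : ℤ} (hj : ¬ 0 < j) : nn K w ⊓ dg K w j = ⊥ := by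
  rw [inf_comm]
  exact dg_inf_iSup (fun i => 0 < i) hj

end dat

section killing

variable {K : Type u} {L : Type v} [Field K] [CharZero K] [LieRing L] [LieAlgebra K L]
  [FiniteDimensional K L] [LieAlgebra.IsKilling K L]

theorem pairing {w : L} (htop : ⨆ j : ℤ, dg K w j = ⊤) {j : ℤ} {x : L} (hx : x ∈ dg K w j)
    (h0 : x ≠ 0) : ∃ y ∈ dg K w (-j), killingForm K L x y ≠ 0 := by
  by_contra hcon
  push Not at hcon
  apply h0
  have hall : ∀ y, killingForm K L x y = 0 := by
    have h1 : (⊤ : Submodule K L) ≤ LinearMap.ker (killingForm K L x) := by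
      rw [← htop]
      refine iSup_le fun i => ?_
      intro y hy
      rw [LinearMap.mem_ker]
      by_cases hij : j + i = 0
      · have : i = -j := by omega
        subst this
        exact hcon y hy
      · exact kil_dg hx hy hij
    intro y
    exact h1 Submodule.mem_top
  have hk := LieAlgebra.IsKilling.ker_killingForm_eq_bot K L
  have h2 : x ∈ LinearMap.ker (killingForm K L) := by
    rw [LinearMap.mem_ker]
    ext y
    simpa using hall y
  rw [hk] at h2
  exact (Submodule.mem_bot K).mp h2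

theorem not_both {w : L} (htop : ⨆ j : ℤ, dg K w j = ⊤) (e : ℤ → L)
    (he : ∀ j, e j ∈ dg K w j)
    (hg : ∀ j, j ≠ 0 → ∀ x ∈ dg K w j, ∃ c : K, x = c • e j)
    {W : Submodule K L} (hc : ∀ x ∈ W, ∀ y ∈ W, ⁅x, y⁆ ∈ W) (h0 : W ⊓ dg K w 0 = ⊥) {j : ℤ}
    (hj : j ≠ 0) (hj2 : e j ≠ 0) (h1 : e j ∈ W) : e (-j) ∉ W := by
  intro h2
  obtain ⟨y, hy, hy2⟩ := pairing htop (he j) hj2
  obtain ⟨c, rfl⟩ := hg (-j) (neg_ne_zero.mpr hj) y hy
  have h3 : ⁅e j, c • e (-j)⁆ ∈ W ⊓ dg K w 0 := by
    refine ⟨hc _ h1 _ (W.smul_mem c h2), ?_⟩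
    have := lie_dg (he j) hy
    rwa [add_neg_cancel] at this
  rw [h0, Submodule.mem_bot] at h3
  have h4 := kil_lie (K := K) (e j) (c • e (-j)) w
  rw [h3, map_zero, LinearMap.zero_apply, ← lie_skew (c • e (-j)) w, mem_dg.mp hy, Int.cast_neg,
    neg_smul, neg_neg, map_smul, smul_eq_mul] at h4
  rcases mul_eq_zero.mp h4.symm with h5 | h5
  · exact hj (by exact_mod_cast h5)
  · exact hy2 h5

theorem v2_count {w : L} {M : ℤ} (h : Dat K w M) (e : ℤ → L) (he : ∀ j, e j ∈ dg K w j)
    (hg : ∀ j, j ≠ 0 → ∀ x ∈ dg K w j, ∃ c : K, x = c • e j)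
    {W : Submodule K L} (hc : ∀ x ∈ W, ∀ y ∈ W, ⁅x, y⁆ ∈ W) (hW : W ≤ ⨆ j : ℤ, W ⊓ dg K w j)
    (h0 : W ⊓ dg K w 0 = ⊥) :
    finrank K W ≤ finrank K (nn K w) ∧ (finrank K W = finrank K (nn K w) →
      ∀ c : ℤ, 0 < c → e c ≠ 0 → e c ∉ W → e (-c) ∈ W) := by
  classical
  have hfin : {j : ℤ | dg K w j ≠ ⊥}.Finite :=
    WellFoundedGT.finite_ne_bot_of_iSupIndep (dg_indep w)
  set S : Finset ℤ := hfin.toFinset.filter (fun j => j ≠ 0 ∧ e j ≠ 0) with hSdef
  have hS : ∀ j, j ∈ S ↔ j ≠ 0 ∧ e j ≠ 0 := by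
    intro j
    rw [hSdef, Finset.mem_filter, Set.Finite.mem_toFinset]
    refine ⟨fun h => h.2, fun h2 => ⟨?_, h2⟩⟩
    intro h3
    have := he j
    rw [h3] at this
    exact h2.2 ((Submodule.mem_bot K).mp this)
  have hsymm : ∀ j ∈ S, -j ∈ S := by
    intro j hj
    rw [hS] at hj ⊢
    refine ⟨neg_ne_zero.mpr hj.1, fun h3 => ?_⟩
    obtain ⟨y, hy, hy2⟩ := pairing h.top (he j) hj.2
    obtain ⟨c, rfl⟩ := hg (-j) (neg_ne_zero.mpr hj.1) y hy
    rw [h3, smul_zero, map_zero] at hy2
    exact hy2 rfl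
  have hW1 := finrank_graded e he hg S hS W hW h0
  have hN1 := finrank_graded e he hg S hS (nn K w) nn_graded (nn_inf (lt_irrefl 0))
  set J := S.filter (fun j => e j ∈ W) with hJ
  set P := S.filter (fun j => e j ∈ nn K w) with hP
  have hPmem : ∀ j, j ∈ P ↔ j ∈ S ∧ 0 < j := by
    intro j
    rw [hP, Finset.mem_filter]
    refine and_congr_right fun hj => ⟨fun h2 => ?_, fun h2 => ?_⟩
    · by_contra h3
      have h4 : e j ∈ nn K w ⊓ dg K w j := ⟨h2, he j⟩
      rw [nn_inf h3, Submodule.mem_bot] at h4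
      exact ((hS j).mp hj).2 h4
    · exact Submodule.mem_iSup_of_mem j (Submodule.mem_iSup_of_mem h2 (he j))
  have hnb : ∀ j ∈ J, -j ∉ J := by
    intro j hj hj2
    rw [hJ, Finset.mem_filter] at hj hj2
    exact not_both h.top e he hg hc h0 ((hS j).mp hj.1).1 ((hS j).mp hj.1).2 hj.2 hj2.2
  have hmap : ∀ j ∈ J, |j| ∈ P := by
    intro j hj
    rw [hPmem]
    have h1 : j ∈ S := (Finset.mem_filter.mp hj).1
    have h2 : j ≠ 0 := ((hS j).mp h1).1
    refine ⟨?_, abs_pos.mpr h2⟩
    rcases abs_choice j with h3 | h3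
    · rw [h3]; exact h1
    · rw [h3]; exact hsymm j h1
  have hinj : Set.InjOn (fun j : ℤ => |j|) (J : Set ℤ) := by
    intro a ha b hb hab
    rcases abs_eq_abs.mp hab with h1 | h1
    · exact h1
    · exfalso
      rw [h1] at ha
      exact hnb b hb ha
  have hsub : J.image (fun j : ℤ => |j|) ⊆ P := by
    intro x hx
    obtain ⟨j, hj, rfl⟩ := Finset.mem_image.mp hx
    exact hmap j hj
  have hcard := Finset.card_image_of_injOn hinj
  refine ⟨?_, ?_⟩
  · rw [hW1, hN1, ← hcard]
    exact Finset.card_le_card hsub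
  · intro heq c hc0 hec hcW
    have h1 : J.image (fun j : ℤ => |j|) = P := by
      refine Finset.eq_of_subset_of_card_le hsub ?_
      rw [hcard, ← hW1, ← hN1, heq]
    have h2 : c ∈ P := (hPmem c).mpr ⟨(hS c).mpr ⟨hc0.ne', hec⟩, hc0⟩
    rw [← h1] at h2
    obtain ⟨j, hj, hjc⟩ := Finset.mem_image.mp h2
    have hjW : e j ∈ W := (Finset.mem_filter.mp hj).2
    rcases abs_choice j with h3 | h3
    · rw [h3] at hjc
      rw [hjc] at hjW
      exact absurd hjW hcW
    · rw [h3] at hjc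
      rw [← hjc, neg_neg]
      exact hjW

/-- if all the simple lines lie in `W` then `nn` lies in `W` -/
theorem nn_le_of_simple {w : L} {M : ℤ} (h : Dat K w M) {W : Submodule K L}
    (hc : ∀ x ∈ W, ∀ y ∈ W, ⁅x, y⁆ ∈ W)
    (hs : ∀ c : ℤ, M ≤ c → c < 2 * M → dg K w c ≤ W) : nn K w ≤ W := by
  have hM := h.pos
  have key : ∀ n : ℕ, ∀ j : ℤ, 0 < j → j ≤ n → dg K w j ≤ W := by
    intro n
    induction n with
    | zero => intro j h1 h2; push_cast at h2; omega
    | succ n ih =>
      intro j h1 h2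
      push_cast at h2
      rcases lt_or_ge j M with h3 | h3
      · rw [h.gap j h1.ne' (by rw [abs_of_pos h1]; exact h3)]
        exact bot_le
      rcases lt_or_ge j (2 * M) with h4 | h4
      · exact hs j h3 h4
      intro z hz
      have h5 := h.gen j (by rw [abs_of_pos h1]; exact h4) z hz
      refine (Submodule.span_le (p := W)).mpr ?_ h5
      rintro _ ⟨c, hc1, hc2, hc3, x, hx, y, hy, rfl⟩
      have hc0 : 0 < c := (pos_iff_pos_of_mul_pos hc3).mpr h1
      rw [abs_of_pos hc0] at hc1 hc2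
      refine hc _ (hs c hc1 hc2 hx) _ (ih (j - c) (by omega) (by omega) hy)
  unfold nn
  refine iSup_le fun j => iSup_le fun hj => ?_
  exact key j.toNat j hj (by omega)

theorem v2_aux (hR : S_REF.{u, v}) {M : ℤ} {W : Submodule K L}
    (hc : ∀ x ∈ W, ∀ y ∈ W, ⁅x, y⁆ ∈ W) (k : ℕ) :
    ∀ w : L, Dat K w M → (W ≤ ⨆ j : ℤ, W ⊓ dg K w j) → W ⊓ dg K w 0 = ⊥ →
      finrank K W = finrank K (nn K w) →
      finrank K (nn K w) ≤ finrank K (W ⊓ nn K w : Submodule K L) + k →
      ∃ φ : L ≃ₗ⁅K⁆ L, Wd K φ ∧ (nn K w).map (φ : L →ₗ[K] L) = W := by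
  induction k with
  | zero =>
    intro w h hW h0 hfr hk
    refine ⟨LieEquiv.refl, Wd.one, ?_⟩
    have h1 : W ⊓ nn K w = nn K w :=
      Submodule.eq_of_le_of_finrank_le inf_le_right (by simpa using hk)
    have h2 : nn K w ≤ W := by rw [← h1]; exact inf_le_left
    have h3 : nn K w = W := Submodule.eq_of_le_of_finrank_le h2 hfr.le
    rw [← h3]
    exact Submodule.map_id _
  | succ k ih =>
    intro w h hW h0 hfr hk
    by_cases hle : nn K w ≤ W
    · refine ⟨LieEquiv.refl, Wd.one, ?_⟩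
      have h3 : nn K w = W := Submodule.eq_of_le_of_finrank_le hle hfr.le
      rw [← h3]
      exact Submodule.map_id _
    -- a simple line outside `W`
    have hex : ∃ c : ℤ, M ≤ c ∧ c < 2 * M ∧ ¬ dg K w c ≤ W := by
      by_contra hcon
      push Not at hcon
      exact hle (nn_le_of_simple h hc hcon)
    obtain ⟨c, hc1, hc2, hc3⟩ := hex
    have hcpos : 0 < c := lt_of_lt_of_le h.pos hc1
    obtain ⟨e, he, hg⟩ := exists_gen h
    have hec : e c ∉ W := by
      intro h1
      apply hc3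
      intro x hx
      obtain ⟨a, rfl⟩ := hg c hcpos.ne' x hx
      exact W.smul_mem a h1
    have hec0 : e c ≠ 0 := by
      intro h1
      apply hec
      rw [h1]
      exact zero_mem _
    have hmem : e (-c) ∈ W := (v2_count h e he hg hc hW h0).2 hfr c hcpos hec0 hec
    have hmem0 : e (-c) ≠ 0 := by
      obtain ⟨y, hy, hy2⟩ := pairing h.top (he c) hec0
      obtain ⟨a, rfl⟩ := hg (-c) (neg_ne_zero.mpr hcpos.ne') y hy
      intro h3
      rw [h3, smul_zero, map_zero] at hy2
      exact hy2 rfl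
    obtain ⟨ψ, hψ, hψ0, hψn⟩ := hR K L w M h c hc1 hc2 (e (-c)) (he (-c)) hmem0
    have hdat := map_dat h ψ
    have hd0 : dg K (ψ w) 0 = dg K w 0 := by rw [map_dg, hψ0]
    have hnn : nn K (ψ w) = (⨆ j : ℤ, ⨆ _ : 0 < j ∧ j ≠ c, dg K w j) ⊔
        Submodule.span K {e (-c)} := by rw [map_nn, hψn]
    have hwst : ψ w ∈ dg K w 0 := by
      rw [← hd0]
      exact self_mem _
    -- `W` is stable under `ψ w`
    have hstab : ∀ x ∈ W, ⁅ψ w, x⁆ ∈ W := by
      have h1 : W ≤ W.comap (LieAlgebra.ad K L (ψ w)) := by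
        refine hW.trans (iSup_le fun j => ?_)
        intro x hx
        rw [Submodule.mem_comap, LieAlgebra.ad_apply]
        by_cases hj : j = 0
        · subst hj
          rw [h0, Submodule.mem_bot] at hx
          rw [hx, lie_zero]
          exact zero_mem _
        obtain ⟨a, ha⟩ := hg j hj x hx.2
        have h2 := lie_dg hwst hx.2
        rw [zero_add] at h2
        obtain ⟨b, hb⟩ := hg j hj _ h2
        by_cases ha0 : a = 0
        · rw [ha, ha0, zero_smul, lie_zero]
          exact zero_mem _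
        have h3 : e j ∈ W := by
          have := W.smul_mem a⁻¹ hx.1
          rw [ha, smul_smul, inv_mul_cancel₀ ha0, one_smul] at this
          exact this
        rw [hb]
        exact W.smul_mem b h3
      intro x hx
      exact h1 hx
    have hWst := stab_graded hdat.top W hstab
    have h0st : W ⊓ dg K (ψ w) 0 = ⊥ := by rw [hd0, h0]
    have hfrst : finrank K W = finrank K (nn K (ψ w)) := by
      rw [map_nn, finrank_map, hfr]
    -- the intersection grows
    have hint : W ⊓ nn K w ≤ ⨆ j : ℤ, ⨆ _ : 0 < j ∧ j ≠ c, dg K w j := by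
      have hst1 : ∀ x ∈ W ⊓ nn K w, ⁅w, x⁆ ∈ W ⊓ nn K w := by
        intro x hx
        refine ⟨?_, nn_stable hx.2 (self_mem w)⟩
        have h1 : W ≤ W.comap (LieAlgebra.ad K L w) := by
          refine hW.trans (iSup_le fun j => ?_)
          intro y hy
          rw [Submodule.mem_comap, LieAlgebra.ad_apply, mem_dg.mp hy.2]
          exact W.smul_mem _ hy.1
        exact h1 hx.1
      refine (stab_graded h.top _ hst1).trans (iSup_le fun j => ?_)
      by_cases hj : 0 < j
      · by_cases hjc : j = c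
        · subst hjc
          intro x hx
          obtain ⟨a, ha⟩ := hg j hj.ne' x hx.2
          by_cases ha0 : a = 0
          · rw [ha, ha0, zero_smul]
            exact zero_mem _
          exfalso
          apply hec
          have := W.smul_mem a⁻¹ hx.1.1
          rw [ha, smul_smul, inv_mul_cancel₀ ha0, one_smul] at this
          exact this
        · exact inf_le_right.trans (le_iSup_of_le j (le_iSup_of_le ⟨hj, hjc⟩ le_rfl))
      · intro x hx
        have h1 : x ∈ nn K w ⊓ dg K w j := ⟨hx.1.2, hx.2⟩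
        rw [nn_inf hj, Submodule.mem_bot] at h1
        rw [h1]
        exact zero_mem _
    have hlt : W ⊓ nn K w < W ⊓ nn K (ψ w) := by
      refine lt_of_le_of_ne ?_ ?_
      · refine le_inf inf_le_left ?_
        rw [hnn]
        exact hint.trans le_sup_left
      · intro heq
        have h1 : e (-c) ∈ W ⊓ nn K (ψ w) := by
          refine ⟨hmem, ?_⟩
          rw [hnn]
          exact Submodule.mem_sup_right (Submodule.mem_span_singleton_self _)
        rw [← heq] at h1
        have h2 : e (-c) ∈ nn K w ⊓ dg K w (-c) := ⟨h1.2, he (-c)⟩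
        rw [nn_inf (by omega), Submodule.mem_bot] at h2
        exact hmem0 h2
    have hlt2 := Submodule.finrank_lt_finrank_of_lt hlt
    obtain ⟨φ, hφ, hφ2⟩ := ih (ψ w) hdat hWst h0st hfrst (by
      rw [← hfrst, hfr]
      omega)
    refine ⟨ψ.trans φ, wd_trans hφ hψ, ?_⟩
    rw [← hφ2, map_nn]
    ext x
    simp only [Submodule.mem_map]
    constructor
    · rintro ⟨y, hy, rfl⟩
      exact ⟨ψ y, ⟨y, hy, rfl⟩, rfl⟩
    · rintro ⟨_, ⟨y, hy, rfl⟩, rfl⟩
      exact ⟨y, hy, rfl⟩

end killing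

theorem v2 (hR : Pool.Agent.TH28.FL.S_REF.{u, v}) : Pool.Agent.TH28.FL.S_V2.{u, v} := by
  intro K _ _ L _ _ _ _ w M h W hc hW h0
  obtain ⟨e, he, hg⟩ := exists_gen h
  refine ⟨(v2_count h e he hg hc hW h0).1, fun hfr => ?_⟩
  exact v2_aux hR hc (finrank K (nn K w)) w h hW h0 hfr (Nat.le_add_left _ _)

end Pool.Agent.TH298.FL

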