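import Pool.Agent.TH298.FLB

set_option autoImplicit false

universe u v

namespace Pool.Agent.TH298.FL

open Module Pool.Agent.TH28.FL

section nil

variable {K : Type u} {L : Type v} [Field K] [CharZero K] [LieRing L] [LieAlgebra K L]
  [FiniteDimensional K L]

/-- elements of `nn` raise the filtration -/
theorem nn_raise {w x : L} (hx : x ∈ nn K w) (k : ℤ) {y : L}
    (hy : y ∈ ⨆ j : ℤ, ⨆ _ : k ≤ j, dg K w j) :
    ⁅x, y⁆ ∈ ⨆ j : ℤ, ⨆ _ : k + 1 ≤ j, dg K w j := by
  have h1 : ∀ i : ℤ, 0 < i → ∀ z ∈ dg K w i, (⨆ j : ℤ, ⨆ _ : k ≤ j, dg K w j) ≤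
      (⨆ j : ℤ, ⨆ _ : k + 1 ≤ j, dg K w j).comap (LieAlgebra.ad K L z : L →ₗ[K] L) := by
    intro i hi z hz
    refine iSup_le fun j => iSup_le fun hj => ?_
    intro t ht
    rw [Submodule.mem_comap, LieAlgebra.ad_apply]
    exact Submodule.mem_iSup_of_mem (i + j)
      (Submodule.mem_iSup_of_mem (by omega) (lie_dg hz ht))
  have h2 : nn K w ≤ (⨆ j : ℤ, ⨆ _ : k + 1 ≤ j, dg K w j).comap
      (LieAlgebra.ad K L y : L →ₗ[K] L) := by
    unfold nn
    refine iSup_le fun i => iSup_le fun hi => ?_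
    intro z hz
    rw [Submodule.mem_comap, LieAlgebra.ad_apply, ← lie_skew]
    exact neg_mem (h1 i hi z hz hy)
  have h3 := h2 hx
  rw [Submodule.mem_comap, LieAlgebra.ad_apply, ← lie_skew] at h3
  simpa using neg_mem h3

theorem nn_nilp {w : L} (htop : ⨆ j : ℤ, dg K w j = ⊤) {x : L} (hx : x ∈ nn K w) :
    IsNilpotent (LieAlgebra.ad K L x) := by
  have hfin : {j : ℤ | dg K w j ≠ ⊥}.Finite :=
    WellFoundedGT.finite_ne_bot_of_iSupIndep (dg_indep w)
  obtain ⟨N, hN⟩ : ∃ N : ℕ, ∀ j : ℤ, dg K w j ≠ ⊥ → |j| ≤ N := by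
    obtain ⟨b, hb⟩ := (hfin.image (fun j : ℤ => |j|)).bddAbove
    refine ⟨b.toNat, fun j hj => ?_⟩
    have h1 : |j| ≤ b := hb ⟨j, hj, rfl⟩
    exact h1.trans (Int.self_le_toNat b)
  have h1 : ∀ n : ℕ, ∀ y : L, ((LieAlgebra.ad K L x) ^ n) y ∈
      ⨆ j : ℤ, ⨆ _ : -(N : ℤ) + n ≤ j, dg K w j := by
    intro n
    induction n with
    | zero =>
      intro y
      have h2 : (⨆ j : ℤ, ⨆ _ : -(N : ℤ) + (0 : ℕ) ≤ j, dg K w j) = ⊤ := by
        rw [eq_top_iff, ← htop]
        refine iSup_le fun j => ?_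
        by_cases hj : dg K w j = ⊥
        · rw [hj]; exact bot_le
        · have h3 := (abs_le.mp (hN j hj)).1
          exact le_iSup_of_le j (le_iSup_of_le (by push_cast; omega) le_rfl)
      rw [h2]
      exact Submodule.mem_top
    | succ n ih =>
      intro y
      rw [pow_succ', Module.End.mul_apply, LieAlgebra.ad_apply]
      have h3 := nn_raise hx _ (ih y)
      have h4 : (-(N : ℤ) + (n + 1 : ℕ)) = -(N : ℤ) + n + 1 := by push_cast; ring
      rw [h4]
      exact h3
  refine ⟨2 * N + 1, ?_⟩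
  ext y
  have h5 := h1 (2 * N + 1) y
  have h6 : (⨆ j : ℤ, ⨆ _ : -(N : ℤ) + (2 * N + 1 : ℕ) ≤ j, dg K w j) = ⊥ := by
    rw [eq_bot_iff]
    refine iSup_le fun j => iSup_le fun hj => ?_
    by_cases hj2 : dg K w j = ⊥
    · rw [hj2]
    · have h3 := (abs_le.mp (hN j hj2)).2
      push_cast at hj
      omega
  rw [h6, Submodule.mem_bot] at h5
  simpa using h5

end nil

section forms

variable {K : Type u} {L : Type v} [Field K] [LieRing L] [LieAlgebra K L]

theorem fdet_mem_VV {m : ℕ} (n : Fin m → L) : fdet K n ∈ VV K n := by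
  unfold VV
  rw [Submodule.mem_sInf]
  exact fun V hV => hV.1

theorem VV_stable {m : ℕ} (n : Fin m → L) (a : L) (F : Frm K L m) (hF : F ∈ VV K n) :
    act K a F ∈ VV K n := by
  unfold VV at hF ⊢
  rw [Submodule.mem_sInf] at hF ⊢
  exact fun V hV => hV.2 a F (hF V hV)

theorem wd_stable [CharZero K] [FiniteDimensional K L] (hE : S_EXPM.{u, v}) {m : ℕ}
    (V : Submodule K (Frm K L m)) (hV : ∀ a : L, ∀ F ∈ V, act K a F ∈ V) {φ : L ≃ₗ⁅K⁆ L}
    (hφ : Wd K φ) : ∀ F ∈ V, F.compLinearMap (fun _ => (φ : L →ₗ[K] L)) ∈ V := by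
  induction hφ with
  | one =>
    intro F hF
    have : F.compLinearMap (fun _ => ((LieEquiv.refl : L ≃ₗ⁅K⁆ L) : L →ₗ[K] L)) = F := by
      ext x
      rfl
    rw [this]
    exact hF
  | step φ ψ a ha h _ ih =>
    intro F hF
    have h1 := hE K L a ha m V (hV a) F hF
    have h2 := ih _ h1
    have h3 : F.compLinearMap (fun _ => (ψ : L →ₗ[K] L)) =
        (F.compLinearMap (fun _ => expA K a)).compLinearMap (fun _ => (φ : L →ₗ[K] L)) := by
      ext x
      rw [MultilinearMap.compLinearMap_apply, MultilinearMap.compLinearMap_apply,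
        MultilinearMap.compLinearMap_apply]
      congr 1
      funext i
      exact h (x i)
    rw [h3]
    exact h2

theorem fdet_comp {m : ℕ} (n : Fin m → L) (φ : L ≃ₗ⁅K⁆ L) :
    (fdet K n).compLinearMap (fun _ => (φ : L →ₗ[K] L)) = fdet K (fun i => φ.symm (n i)) := by
  ext x
  rw [MultilinearMap.compLinearMap_apply, fdet_apply, fdet_apply]
  congr 1
  ext i j
  rw [Matrix.of_apply, Matrix.of_apply]
  have h := LieAlgebra.killingForm_of_equiv_apply φ (x i) (φ.symm (n j))
  rw [LieEquiv.apply_symm_apply] at h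
  rw [← h]
  rfl

theorem fdet_change {m : ℕ} (n n' : Fin m → L)
    (h : ∀ j, n' j ∈ Submodule.span K (Set.range n)) : ∃ d : K, fdet K n' = d • fdet K n := by
  have h1 : ∀ j, ∃ c : Fin m → K, ∑ i, c i • n i = n' j := fun j =>
    (Submodule.mem_span_range_iff_exists_fun K).mp (h j)
  choose c hc using h1
  refine ⟨Matrix.det (Matrix.of fun i j => c j i), ?_⟩
  ext x
  rw [MultilinearMap.smul_apply, fdet_apply, fdet_apply, smul_eq_mul, mul_comm, ← Matrix.det_mul]
  congr 1
  ext i j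
  rw [Matrix.mul_apply, Matrix.of_apply, ← hc j, map_sum]
  refine Finset.sum_congr rfl fun k _ => ?_
  rw [map_smul, Matrix.of_apply, Matrix.of_apply, smul_eq_mul, mul_comm]

end forms

section main

variable {K : Type u} {L : Type v} [Field K] [CharZero K] [LieRing L] [LieAlgebra K L]
  [FiniteDimensional K L] [LieAlgebra.IsKilling K L]

theorem pv_aux (h1 : S_V1.{u, v}) (h2 : S_V2.{u, v}) (hE : S_EXPM.{u, v}) {w w' : L} {M M' : ℤ}
    (h : Dat K w M) (h' : Dat K w' M') (m : ℕ) (n : Fin m → L) (hn : LinearIndependent K n)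
    (hs : Submodule.span K (Set.range n) = nn K w) :
    m ≤ finrank K (nn K w') ∧ (m = finrank K (nn K w') → ∀ n' : Fin m → L,
      Submodule.span K (Set.range n') = nn K w' → fdet K n' ∈ VV K n) := by
  obtain ⟨n₀, hn0, hV0, hcl, hgr, hze⟩ := h1 K L w' M' h' m n hn
    (by
      rw [hs]
      intro x hx y hy
      exact nn_closed hx hy)
    (by
      rw [hs]
      intro x hx
      exact nn_nilp h.top hx)
    (VV K n) (fun F hF => VV_stable n w' F hF) (fdet_mem_VV n)
  obtain ⟨hle, heq⟩ := h2 K L w' M' h' _ hcl hgr hze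
  have hfr : finrank K (Submodule.span K (Set.range n₀)) = m := by
    rw [finrank_span_eq_card hn0, Fintype.card_fin]
  refine ⟨by rw [← hfr]; exact hle, fun hm n' hs' => ?_⟩
  obtain ⟨φ, hφ, hφ2⟩ := heq (by rw [hfr]; exact hm)
  have h3 := wd_stable hE (VV K n) (VV_stable n) hφ _ hV0
  rw [fdet_comp] at h3
  obtain ⟨d, hd⟩ := fdet_change (K := K) (fun i => φ.symm (n₀ i)) n' (by
    intro j
    have h4 : n' j ∈ nn K w' := by
      rw [← hs']
      exact Submodule.subset_span ⟨j, rfl⟩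
    have h5 : φ (n' j) ∈ Submodule.span K (Set.range n₀) := by
      rw [← hφ2]
      exact Submodule.mem_map_of_mem h4
    have h6 := Submodule.mem_map_of_mem (f := (φ.symm : L →ₗ[K] L)) h5
    rw [Submodule.map_span, ← Set.range_comp] at h6
    have h7 : (φ.symm : L →ₗ[K] L) (φ (n' j)) = n' j := by
      change φ.symm (φ (n' j)) = n' j
      simp
    rw [h7] at h6
    exact h6)
  rw [hd]
  exact Submodule.smul_mem _ d h3

end main

theorem pv (h1 : Pool.Agent.TH28.FL.S_V1.{u, v}) (h2 : Pool.Agent.TH28.FL.S_V2.{u, v})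
    (hE : Pool.Agent.TH28.FL.S_EXPM.{u, v}) : Pool.Agent.TH28.FL.S_PV.{u, v} := by
  intro K _ _ L _ _ _ _ w w' M M' h h'
  have key : ∀ (w : L) (M : ℤ), Dat K w M → ∀ (w' : L) (M' : ℤ), Dat K w' M' →
      finrank K (nn K w) ≤ finrank K (nn K w') := by
    intro w M h w' M' h'
    let b := finBasis K (nn K w)
    refine (pv_aux h1 h2 hE h h' _ (fun i => (b i : L)) ?_ ?_).1
    · exact b.linearIndependent.map' (nn K w).subtype (Submodule.ker_subtype _)
    · have h3 : (Set.range fun i => (b i : L)) = (nn K w).subtype '' Set.range b := by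
        rw [← Set.range_comp]
        rfl
      rw [h3, ← Submodule.map_span, b.span_eq, Submodule.map_top, Submodule.range_subtype]
  have hfr : finrank K (nn K w) = finrank K (nn K w') :=
    le_antisymm (key w M h w' M' h') (key w' M' h' w M h)
  refine ⟨hfr, ?_⟩
  intro m n n' hn hn' hs hs'
  refine (pv_aux h1 h2 hE h h' m n hn hs).2 ?_ n' hs'
  rw [← hs', finrank_span_eq_card hn', Fintype.card_fin]

end Pool.Agent.TH298.FL

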