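import Pool.Agent.TH28.FL.DatB

set_option autoImplicit false

universe u v

namespace Pool.Agent.TH298.FLV

open Module Pool.Agent.TH28.FL

/-! ### Derivations and determinants -/

section det

variable {k K : Type*} [CommRing k] [CommRing K] [Algebra k K]

theorem der_prod {ι : Type*} [DecidableEq ι] (δ : Derivation k K K) (s : Finset ι) (f : ι → K) :
    δ (∏ i ∈ s, f i) = ∑ i ∈ s, δ (f i) * ∏ j ∈ s.erase i, f j := by
  induction s using Finset.induction_on with
  | empty => simp
  | insert a s ha ih =>
    rw [Finset.prod_insert ha, Derivation.leibniz, ih, Finset.sum_insert ha,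
      Finset.erase_insert ha, smul_eq_mul, smul_eq_mul, Finset.mul_sum, add_comm]
    congr 1
    · ring
    · refine Finset.sum_congr rfl fun i hi => ?_
      have hia : i ≠ a := fun h => ha (h ▸ hi)
      rw [Finset.erase_insert_of_ne hia.symm, Finset.prod_insert
        (fun h => ha (Finset.mem_of_mem_erase h))]
      ring

theorem der_det_col {m : ℕ} (δ : Derivation k K K) (A : Matrix (Fin m) (Fin m) K) :
    δ A.det = ∑ i, (A.updateCol i (fun j => δ (A j i))).det := by
  simp only [Matrix.det_apply']
  rw [map_sum, Finset.sum_comm]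
  refine Finset.sum_congr rfl fun σ _ => ?_
  rw [Derivation.leibniz, der_prod, smul_eq_mul, smul_eq_mul, Derivation.map_intCast, mul_zero,
    add_zero, Finset.mul_sum]
  refine Finset.sum_congr rfl fun i _ => ?_
  congr 1
  rw [← Finset.mul_prod_erase Finset.univ _ (Finset.mem_univ i)]
  congr 1
  · rw [Matrix.updateCol_self]
  · refine Finset.prod_congr rfl fun j hj => ?_
    rw [Matrix.updateCol_ne (Finset.ne_of_mem_erase hj)]

theorem der_det {m : ℕ} (δ : Derivation k K K) (A : Matrix (Fin m) (Fin m) K) :
    δ A.det = ∑ i, (A.updateRow i (fun j => δ (A i j))).det := by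
  rw [← Matrix.det_transpose, der_det_col]
  refine Finset.sum_congr rfl fun i _ => ?_
  rw [← Matrix.det_transpose (A.updateRow i _), Matrix.updateCol_transpose]
  rfl

theorem sum_updateRow_mul {m : ℕ} (A B : Matrix (Fin m) (Fin m) K) :
    ∑ i, (A.updateRow i ((A * B) i)).det = B.trace * A.det := by
  have h1 : ∀ i, (A.updateRow i ((A * B) i)).det = ((A * B) * A.adjugate) i i := by
    intro i
    rw [← Matrix.cramer_transpose_apply, Matrix.cramer_eq_adjugate_mulVec, Matrix.mul_apply,
      Matrix.mulVec, dotProduct]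
    refine Finset.sum_congr rfl fun j _ => ?_
    rw [← Matrix.adjugate_transpose, Matrix.transpose_apply, mul_comm]
  rw [Finset.sum_congr rfl fun i _ => h1 i]
  change ((A * B) * A.adjugate).trace = _
  rw [Matrix.mul_assoc, Matrix.trace_mul_comm, Matrix.mul_assoc, Matrix.adjugate_mul,
    Matrix.mul_smul, Matrix.mul_one, Matrix.trace_smul, smul_eq_mul, mul_comm]

end det

/-! ### Sums over the arguments -/

section sums

variable {K : Type u} {L : Type v} [AddCommGroup K]

/-- the sum of `F (.., P (x j), ..)` -/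
def SP {m : ℕ} (P : L → L) (F : (Fin m → L) → K) (x : Fin m → L) : K :=
  ∑ j, F (Function.update x j (P (x j)))

theorem SP_comm {m : ℕ} (P Q : L → L) (F : (Fin m → L) → K) (x : Fin m → L) :
    SP P (SP Q F) x + ∑ j, F (Function.update x j (P (Q (x j)))) =
      SP Q (SP P F) x + ∑ j, F (Function.update x j (Q (P (x j)))) := by
  have key : ∀ (P Q : L → L), SP P (SP Q F) x =
      (∑ j, ∑ i, if i = j then 0 else
        F (Function.update (Function.update x j (P (x j))) i (Q (x i)))) +
      ∑ j, F (Function.update x j (Q (P (x j)))) := by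
    intro P Q
    unfold SP
    rw [← Finset.sum_add_distrib]
    refine Finset.sum_congr rfl fun j _ => ?_
    rw [← Finset.sum_erase_add _ _ (Finset.mem_univ j), ← Finset.sum_erase_add _ (fun i =>
      if i = j then 0 else F (Function.update (Function.update x j (P (x j))) i (Q (x i))))
      (Finset.mem_univ j), if_pos rfl, add_zero]
    congr 1
    · refine Finset.sum_congr rfl fun i hi => ?_
      have hij := Finset.ne_of_mem_erase hi
      rw [if_neg hij, Function.update_of_ne hij]
    · rw [Function.update_self, Function.update_idem]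
  rw [key P Q, key Q P]
  have h1 : (∑ j, ∑ i, if i = j then 0 else
        F (Function.update (Function.update x j (P (x j))) i (Q (x i)))) =
      ∑ j, ∑ i, if i = j then 0 else
        F (Function.update (Function.update x j (Q (x j))) i (P (x i))) := by
    rw [Finset.sum_comm]
    refine Finset.sum_congr rfl fun i _ => Finset.sum_congr rfl fun j _ => ?_
    by_cases hij : i = j
    · rw [if_pos hij, if_pos hij.symm]
    · rw [if_neg hij, if_neg (Ne.symm hij), Function.update_comm (Ne.symm hij)]
  rw [h1]
  abel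

end sums

/-! ### The filtration of `VV` -/

section filt

variable {K : Type u} {L : Type v} [Field K] [LieRing L] [LieAlgebra K L]

theorem act_eq {m : ℕ} (a : L) (F : Frm K L m) (x : Fin m → L) :
    act K a F x = SP (fun y => ⁅a, y⁆) F x := act_apply a F x

theorem act_add_left {m : ℕ} (a b : L) (F : Frm K L m) : act K (a + b) F = act K a F + act K b F := by
  ext x
  rw [MultilinearMap.add_apply, act_apply, act_apply, act_apply, ← Finset.sum_add_distrib]
  refine Finset.sum_congr rfl fun i _ => ?_
  rw [add_lie, MultilinearMap.map_update_add]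

theorem act_smul_left {m : ℕ} (c : K) (a : L) (F : Frm K L m) : act K (c • a) F = c • act K a F := by
  ext x
  rw [MultilinearMap.smul_apply, act_apply, act_apply, Finset.smul_sum]
  refine Finset.sum_congr rfl fun i _ => ?_
  rw [smul_lie, MultilinearMap.map_update_smul]

theorem act_add_right {m : ℕ} (a : L) (F G : Frm K L m) : act K a (F + G) = act K a F + act K a G := by
  ext x
  rw [MultilinearMap.add_apply, act_apply, act_apply, act_apply, ← Finset.sum_add_distrib]
  refine Finset.sum_congr rfl fun i _ => ?_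
  rw [MultilinearMap.add_apply]

theorem act_smul_right {m : ℕ} (c : K) (a : L) (F : Frm K L m) : act K a (c • F) = c • act K a F := by
  ext x
  rw [MultilinearMap.smul_apply, act_apply, act_apply, Finset.smul_sum]
  refine Finset.sum_congr rfl fun i _ => ?_
  rw [MultilinearMap.smul_apply]

theorem act_act {m : ℕ} (a b : L) (F : Frm K L m) :
    act K b (act K a F) = act K a (act K b F) + act K ⁅a, b⁆ F := by
  ext x
  rw [MultilinearMap.add_apply]
  have h1 := SP_comm (fun y => ⁅b, y⁆) (fun y => ⁅a, y⁆) (⇑F) x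
  have h2 : ∀ c d : L, act K c (act K d F) x = SP (fun y => ⁅c, y⁆) (SP (fun y => ⁅d, y⁆) F) x := by
    intro c d
    rw [act_eq]
    unfold SP
    refine Finset.sum_congr rfl fun i _ => ?_
    exact act_eq d F _
  rw [h2, h2]
  have h3 : act K ⁅a, b⁆ F x + ∑ j, F (Function.update x j ⁅b, ⁅a, x j⁆⁆) =
      ∑ j, F (Function.update x j ⁅a, ⁅b, x j⁆⁆) := by
    rw [act_apply, ← Finset.sum_add_distrib]
    refine Finset.sum_congr rfl fun i _ => ?_
    rw [← MultilinearMap.map_update_add, leibniz_lie a b]
  have h4 := h1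
  rw [← h3] at h4
  have h5 := congrArg (fun t => t - ∑ j, F (Function.update x j ⁅b, ⁅a, x j⁆⁆)) h4
  simp only [add_sub_cancel_right] at h5
  rw [h5]
  abel

/-- the filtration -/
noncomputable def VP {m : ℕ} (n : Fin m → L) : ℕ → Submodule K (Frm K L m)
  | 0 => Submodule.span K {fdet K n}
  | p + 1 => VP n p ⊔ Submodule.span K {G | ∃ a : L, ∃ F ∈ VP n p, G = act K a F}

theorem VP_mono {m : ℕ} (n : Fin m → L) (p : ℕ) : VP n p ≤ VP (K := K) n (p + 1) := le_sup_left

theorem VP_le {m : ℕ} (n : Fin m → L) {p q : ℕ} (h : p ≤ q) : VP n p ≤ VP (K := K) n q :=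
  monotone_nat_of_le_succ (VP_mono n) h

theorem VV_le {m : ℕ} (n : Fin m → L) {F : Frm K L m} (hF : F ∈ VV K n) : ∃ p, F ∈ VP n p := by
  let U : Submodule K (Frm K L m) :=
    { carrier := {F | ∃ p, F ∈ VP n p}
      add_mem' := by
        rintro F G ⟨p, hp⟩ ⟨q, hq⟩
        exact ⟨max p q, add_mem (VP_le n (le_max_left p q) hp) (VP_le n (le_max_right p q) hq)⟩
      zero_mem' := ⟨0, zero_mem _⟩
      smul_mem' := by
        rintro c F ⟨p, hp⟩
        exact ⟨p, Submodule.smul_mem _ c hp⟩ }
  have h1 : VV K n ≤ U := by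
    unfold VV
    refine sInf_le ⟨⟨0, Submodule.mem_span_singleton_self _⟩, ?_⟩
    rintro a F ⟨p, hp⟩
    exact ⟨p + 1, Submodule.mem_sup_right (Submodule.subset_span ⟨a, F, hp, rfl⟩)⟩
  exact h1 hF

/-- induction principle for the filtration -/
theorem VP_ind {m : ℕ} (n : Fin m → L) (p : ℕ) (P : Frm K L m → Prop)
    (h0 : ∀ F ∈ VP n p, P F) (ha : ∀ a : L, ∀ F ∈ VP n p, P (act K a F))
    (hadd : ∀ F G, P F → P G → P (F + G)) (hsmul : ∀ (c : K) F, P F → P (c • F)) :
    ∀ F ∈ VP n (p + 1), P F := by
  intro F hF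
  change F ∈ VP n p ⊔ Submodule.span K {G | ∃ a : L, ∃ F ∈ VP n p, G = act K a F} at hF
  obtain ⟨F₁, h1, F₂, h2, rfl⟩ := Submodule.mem_sup.mp hF
  refine hadd _ _ (h0 _ h1) ?_
  clear hF
  induction h2 using Submodule.span_induction with
  | mem G hG =>
    obtain ⟨a, F', hF', rfl⟩ := hG
    exact ha a F' hF'
  | zero =>
    have := hsmul 0 F₁ (h0 _ h1)
    rwa [zero_smul] at this
  | add G G' _ _ hG hG' => exact hadd _ _ hG hG'
  | smul c G _ hG => exact hsmul _ _ hG

end filt

/-! ### The Killing form and `fdet` -/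

section fd

variable {K : Type u} {L : Type v} [Field K] [LieRing L] [LieAlgebra K L]

theorem fdet_update {m : ℕ} (n x : Fin m → L) (i : Fin m) (y : L) :
    fdet K n (Function.update x i y) =
      ((Matrix.of fun i j => killingForm K L (x i) (n j)).updateRow i
        (fun j => killingForm K L y (n j))).det := by
  rw [fdet_apply]
  congr 1
  ext a b
  by_cases h : a = i
  · subst h
    rw [Matrix.updateRow_self, Matrix.of_apply, Function.update_self]
  · rw [Matrix.updateRow_ne h, Matrix.of_apply, Matrix.of_apply, Function.update_of_ne h]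

/-- the sum of the determinants with one row replaced -/
theorem sum_fdet {m : ℕ} (n : Fin m → L) (N : Fin m → L) (d : Matrix (Fin m) (Fin m) K)
    (hN : ∀ j, N j = ∑ l, d j l • n l) (x : Fin m → L) :
    ∑ i, ((Matrix.of fun i j => killingForm K L (x i) (n j)).updateRow i
        (fun j => killingForm K L (x i) (N j))).det = d.trace * fdet K n x := by
  rw [fdet_apply, ← Matrix.trace_transpose, ← sum_updateRow_mul]
  refine Finset.sum_congr rfl fun i _ => ?_
  congr 2
  funext j
  rw [Matrix.mul_apply, hN, map_sum]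
  refine Finset.sum_congr rfl fun l _ => ?_
  rw [map_smul, smul_eq_mul, Matrix.transpose_apply, Matrix.of_apply, mul_comm]

end fd

/-! ### The vanishing lemma, abstract form -/

section main

variable {k K : Type u} {L : Type v} [Field k] [Field K] [Algebra k K] [LieRing L]
  [LieAlgebra K L]

/-- a derivation of the field together with a compatible operator on the Lie algebra -/
structure Comp (R : Submodule K L) (w : L) (δ : Derivation k K K) (T : L → L) (A : L) : Prop where
  add : ∀ x y, T (x + y) = T x + T y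
  smul : ∀ (c : K) x, T (c • x) = δ c • x + c • T x
  lie : ∀ x y, T ⁅x, y⁆ = ⁅T x, y⁆ + ⁅x, T y⁆
  kf : ∀ x y, δ (killingForm K L x y) = killingForm K L (T x) y + killingForm K L x (T y)
  R : ∀ x ∈ R, T x ∈ R
  w : T w = ⁅A, w⁆

variable {R : Submodule K L} {w : L} {δ : Derivation k K K} {T : L → L} {A : L}

theorem Comp.zero (h : Comp R w δ T A) : T 0 = 0 := by
  have := h.add 0 0
  rw [add_zero] at this
  exact left_eq_add.mp this

theorem Comp.sum (h : Comp R w δ T A) {ι : Type*} (s : Finset ι) (f : ι → L) :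
    T (∑ i ∈ s, f i) = ∑ i ∈ s, T (f i) := by
  classical
  induction s using Finset.induction_on with
  | empty => simp [h.zero]
  | insert a s ha ih => rw [Finset.sum_insert ha, Finset.sum_insert ha, h.add, ih]

theorem Comp.neg (h : Comp R w δ T A) (x : L) : T (-x) = - T x := by
  have := h.add x (-x)
  rw [add_neg_cancel, h.zero] at this
  exact (neg_eq_of_add_eq_zero_right this.symm).symm

/-- the operator `D = T - ad A` preserves the eigenspaces -/
theorem Comp.dg (h : Comp R w δ T A) {j : ℤ} {x : L} (hx : x ∈ dg K w j) :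
    T x - ⁅A, x⁆ ∈ dg K w j := by
  rw [mem_dg] at hx ⊢
  have h1 := h.lie w x
  rw [hx, h.smul, h.w] at h1
  have h2 : δ ((j : ℤ) : K) = 0 := Derivation.map_intCast δ j
  rw [h2, zero_smul, zero_add] at h1
  -- (j) T x = [[A,w],x] + [w, T x]
  have h3 : ⁅⁅A, w⁆, x⁆ = (j : K) • ⁅A, x⁆ - ⁅w, ⁅A, x⁆⁆ := by
    have := leibniz_lie A w x
    rw [hx, lie_smul] at this
    rw [this]
    abel
  rw [h3] at h1
  rw [lie_sub, smul_sub, h1]
  abel

theorem Comp.nn (h : Comp R w δ T A) {x : L} (hx : x ∈ nn K w) : T x - ⁅A, x⁆ ∈ nn K w := by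
  obtain ⟨s, f, hs, hf, rfl⟩ := exists_sum_of_mem hx
  rw [h.sum, lie_sum, ← Finset.sum_sub_distrib]
  exact Submodule.sum_mem _ fun i hi => le_nn w (hs i hi) (h.dg (hf i))

/-- the derivative of a form in the filtration -/
theorem Comp.form (h : Comp R w δ T A) {m : ℕ} {n : Fin m → L}
    (hn : Submodule.span K (Set.range n) = Pool.Agent.TH28.FL.nn K w) (p : ℕ) :
    ∀ F ∈ VP n p, ∃ F' ∈ VP (K := K) n p, ∀ x, δ (F x) = F' x +
      SP (fun y => T y - ⁅A, y⁆) (⇑F) x := by
  have hD_add : ∀ x y, T (x + y) - ⁅A, x + y⁆ = (T x - ⁅A, x⁆) + (T y - ⁅A, y⁆) := by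
    intro x y
    rw [h.add, lie_add]; abel
  -- the two closure properties
  have hadd : ∀ (q : ℕ) (F G : Frm K L m),
      (∃ F' ∈ VP (K := K) n q, ∀ x, δ (F x) = F' x + SP (fun y => T y - ⁅A, y⁆) (⇑F) x) →
      (∃ G' ∈ VP (K := K) n q, ∀ x, δ (G x) = G' x + SP (fun y => T y - ⁅A, y⁆) (⇑G) x) →
      ∃ H' ∈ VP (K := K) n q, ∀ x, δ ((F + G) x) = H' x +
        SP (fun y => T y - ⁅A, y⁆) (⇑(F + G)) x := by
    rintro q F G ⟨F', hF', hF⟩ ⟨G', hG', hG⟩
    refine ⟨F' + G', add_mem hF' hG', fun x => ?_⟩
    have : SP (fun y => T y - ⁅A, y⁆) (⇑(F + G)) x =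
        SP (fun y => T y - ⁅A, y⁆) (⇑F) x + SP (fun y => T y - ⁅A, y⁆) (⇑G) x := by
      unfold SP
      rw [← Finset.sum_add_distrib]
      rfl
    rw [this, MultilinearMap.add_apply, MultilinearMap.add_apply, map_add, hF, hG]
    abel
  have hsmul : ∀ (q : ℕ) (c : K) (F : Frm K L m), F ∈ VP (K := K) n q →
      (∃ F' ∈ VP (K := K) n q, ∀ x, δ (F x) = F' x + SP (fun y => T y - ⁅A, y⁆) (⇑F) x) →
      ∃ H' ∈ VP (K := K) n q, ∀ x, δ ((c • F) x) = H' x +
        SP (fun y => T y - ⁅A, y⁆) (⇑(c • F)) x := by
    rintro q c F hFm ⟨F', hF', hF⟩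
    refine ⟨δ c • F + c • F', add_mem (Submodule.smul_mem _ _ hFm)
      (Submodule.smul_mem _ _ hF'), fun x => ?_⟩
    have : SP (fun y => T y - ⁅A, y⁆) (⇑(c • F)) x =
        c * SP (fun y => T y - ⁅A, y⁆) (⇑F) x := by
      unfold SP
      rw [Finset.mul_sum]
      rfl
    rw [this, MultilinearMap.smul_apply, MultilinearMap.add_apply, MultilinearMap.smul_apply,
      MultilinearMap.smul_apply, smul_eq_mul, Derivation.leibniz, hF, smul_eq_mul, smul_eq_mul,
      smul_eq_mul, smul_eq_mul]
    ring
  -- the base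
  have hbase : ∃ F' ∈ VP (K := K) n 0, ∀ x, δ (fdet K n x) = F' x +
      SP (fun y => T y - ⁅A, y⁆) (⇑(fdet K n)) x := by
    have hnj : ∀ j, ∃ c : Fin m → K, ∑ l, c l • n l = T (n j) - ⁅A, n j⁆ := by
      intro j
      rw [← Submodule.mem_span_range_iff_exists_fun K, hn]
      apply h.nn
      rw [← hn]
      exact Submodule.subset_span ⟨j, rfl⟩
    choose d hd using hnj
    refine ⟨(Matrix.of d).trace • fdet K n,
      Submodule.smul_mem _ _ (Submodule.mem_span_singleton_self _), fun x => ?_⟩
    have h2 := sum_fdet n (fun j => T (n j) - ⁅A, n j⁆) (Matrix.of d)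
      (fun j => (hd j).symm) x
    rw [MultilinearMap.smul_apply, smul_eq_mul, ← h2]
    conv_lhs => rw [fdet_apply, der_det]
    unfold SP
    rw [← Finset.sum_add_distrib]
    refine Finset.sum_congr rfl fun i _ => ?_
    rw [fdet_update, ← Matrix.det_updateRow_add]
    congr 2
    funext j
    rw [Matrix.of_apply, h.kf, Pi.add_apply, map_sub, map_sub, LinearMap.sub_apply, kf_lie']
    ring
  induction p with
  | zero =>
    intro F hF
    obtain ⟨c, rfl⟩ := Submodule.mem_span_singleton.mp hF
    exact hsmul 0 c _ (Submodule.mem_span_singleton_self _) hbase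
  | succ p ih =>
    intro F hF
    -- prove a statement that includes membership
    have key : ∀ F ∈ VP (K := K) n (p + 1), F ∈ VP (K := K) n (p + 1) ∧
        ∃ F' ∈ VP (K := K) n (p + 1), ∀ x, δ (F x) = F' x +
          SP (fun y => T y - ⁅A, y⁆) (⇑F) x := by
      refine VP_ind n p _ ?_ ?_ ?_ ?_
      · intro F hF
        obtain ⟨F', hF', h1⟩ := ih F hF
        exact ⟨VP_mono n p hF, F', VP_mono n p hF', h1⟩
      · intro a G hG
        obtain ⟨G', hG', h1⟩ := ih G hG
        refine ⟨Submodule.mem_sup_right (Submodule.subset_span ⟨a, G, hG, rfl⟩),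
          act K a G' + act K (T a - ⁅A, a⁆) G, add_mem
          (Submodule.mem_sup_right (Submodule.subset_span ⟨a, G', hG', rfl⟩))
          (Submodule.mem_sup_right (Submodule.subset_span ⟨_, G, hG, rfl⟩)), fun x => ?_⟩
        have h2 : δ (act K a G x) = act K a G' x +
            SP (fun y => ⁅a, y⁆) (SP (fun y => T y - ⁅A, y⁆) (⇑G)) x := by
          rw [act_apply, map_sum, act_apply]
          unfold SP
          rw [← Finset.sum_add_distrib]
          refine Finset.sum_congr rfl fun j _ => ?_
          rw [h1]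
          rfl
        have h3 := SP_comm (fun y => ⁅a, y⁆) (fun y => T y - ⁅A, y⁆) (⇑G) x
        have h4 : SP (fun y => T y - ⁅A, y⁆) (⇑(act K a G)) x =
            SP (fun y => T y - ⁅A, y⁆) (SP (fun y => ⁅a, y⁆) (⇑G)) x := by
          have : (⇑(act K a G) : (Fin m → L) → K) = SP (fun y => ⁅a, y⁆) (⇑G) := by
            funext z
            exact act_eq a G z
          rw [this]
        have h5 : act K (T a - ⁅A, a⁆) G x + ∑ j, G (Function.update x j
              ⁅a, T (x j) - ⁅A, x j⁆⁆) =
            ∑ j, G (Function.update x j (T ⁅a, x j⁆ - ⁅A, ⁅a, x j⁆⁆)) := by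
          rw [act_apply, ← Finset.sum_add_distrib]
          refine Finset.sum_congr rfl fun j _ => ?_
          rw [← MultilinearMap.map_update_add]
          congr 2
          rw [h.lie, leibniz_lie A a, sub_lie, lie_sub]
          abel
        rw [h2, MultilinearMap.add_apply, h4]
        rw [← h5] at h3
        have h6 : SP (fun y => ⁅a, y⁆) (SP (fun y => T y - ⁅A, y⁆) (⇑G)) x =
            SP (fun y => T y - ⁅A, y⁆) (SP (fun y => ⁅a, y⁆) (⇑G)) x +
              act K (T a - ⁅A, a⁆) G x := by
          have h7 := congrArg (fun t => t - ∑ j, G (Function.update x j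
              ⁅a, T (x j) - ⁅A, x j⁆⁆)) h3
          simp only [add_sub_cancel_right] at h7
          rw [h7]
          abel
        rw [h6]
        abel
      · rintro F G ⟨hF, hF'⟩ ⟨hG, hG'⟩
        exact ⟨add_mem hF hG, hadd _ F G hF' hG'⟩
      · rintro c F ⟨hF, hF'⟩
        exact ⟨Submodule.smul_mem _ c hF, hsmul _ c F hF hF'⟩
    exact (key F hF).2

/-- the action of the Borel subalgebra preserves the filtration -/
theorem act_bb {m : ℕ} {n : Fin m → L}
    (hn : Submodule.span K (Set.range n) = Pool.Agent.TH28.FL.nn K w) (p : ℕ) :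
    ∀ b ∈ bb K w, ∀ F ∈ VP n p, act K b F ∈ VP (K := K) n p := by
  induction p with
  | zero =>
    intro b hb F hF
    obtain ⟨c, rfl⟩ := Submodule.mem_span_singleton.mp hF
    rw [act_smul_right]
    refine Submodule.smul_mem _ c ?_
    have hnj : ∀ j, ∃ c : Fin m → K, ∑ l, c l • n l = ⁅b, n j⁆ := by
      intro j
      rw [← Submodule.mem_span_range_iff_exists_fun K, hn]
      apply lie_bb_nn hb
      rw [← hn]
      exact Submodule.subset_span ⟨j, rfl⟩
    choose d hd using hnj
    have h1 : act K b (fdet K n) = (-(Matrix.of d).trace) • fdet K n := by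
      ext x
      rw [MultilinearMap.smul_apply, smul_eq_mul, neg_mul,
        ← sum_fdet n (fun j => ⁅b, n j⁆) (Matrix.of d) (fun j => (hd j).symm) x, act_apply,
        ← Finset.sum_neg_distrib]
      refine Finset.sum_congr rfl fun i _ => ?_
      have h2 : (fun j => killingForm K L ⁅b, x i⁆ (n j)) =
          (-1 : K) • (fun j => killingForm K L (x i) ⁅b, n j⁆) := by
        funext j
        rw [kf_lie', Pi.smul_apply, smul_eq_mul]
        ring
      rw [fdet_update, h2, Matrix.det_updateRow_smul]
      ring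
    rw [h1]
    exact Submodule.smul_mem _ _ (Submodule.mem_span_singleton_self _)
  | succ p ih =>
    intro b hb
    refine VP_ind n p _ ?_ ?_ ?_ ?_
    · intro F hF
      exact VP_mono n p (ih b hb F hF)
    · intro a F hF
      rw [act_act]
      exact add_mem (Submodule.mem_sup_right (Submodule.subset_span ⟨a, _, ih b hb F hF, rfl⟩))
        (Submodule.mem_sup_right (Submodule.subset_span ⟨_, F, hF, rfl⟩))
    · intro F G hF hG
      rw [act_add_right]
      exact add_mem hF hG
    · intro c F hF
      rw [act_smul_right]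
      exact Submodule.smul_mem _ c hF

/-- the vanishing lemma -/
theorem van_abs [CharZero K] [FiniteDimensional K L] [LieAlgebra.IsKilling K L] {m : ℕ}
    {n : Fin m → L} (ht : ⨆ j : ℤ, dg K w j = ⊤)
    (hn : Submodule.span K (Set.range n) = Pool.Agent.TH28.FL.nn K w)
    (hR : ∀ x ∈ R, ∀ y ∈ R, ⁅x, y⁆ ∈ R) (S : Set L)
    (hS : ∀ A ∈ S, ∃ (δ : Derivation k K K) (T : L → L), Comp R w δ T A)
    (hT : Submodule.span K S ⊔ R ⊔ bb K w = ⊤)
    {F : Frm K L m} (hF : F ∈ VV K n) {ρ : Fin m → L} (hρ : ∀ i, ρ i ∈ R) (hne : F ρ ≠ 0) :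
    R ⊔ bb K w = ⊤ := by
  by_contra hcon
  have h0 : ∀ ρ : Fin m → L, (∀ i, ρ i ∈ R) → fdet K n ρ = 0 := by
    intro ρ hρ
    by_contra hne
    apply hcon
    rw [eq_top_iff]
    intro x _
    set M : Matrix (Fin m) (Fin m) K := Matrix.of fun i j => killingForm K L (ρ i) (n j) with hM
    have hdet : IsUnit M.det := by
      rw [isUnit_iff_ne_zero]
      exact hne
    let v : Fin m → K := fun j => killingForm K L x (n j)
    let c : Fin m → K := Matrix.vecMul v M⁻¹
    have hc : Matrix.vecMul c M = v := by
      change Matrix.vecMul (Matrix.vecMul v M⁻¹) M = v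
      rw [Matrix.vecMul_vecMul, Matrix.nonsing_inv_mul _ hdet, Matrix.vecMul_one]
    have h1 : x - ∑ i, c i • ρ i ∈ bb K w := by
      rw [mem_bb_iff ht]
      intro z hz
      rw [← hn] at hz
      obtain ⟨e, rfl⟩ := (Submodule.mem_span_range_iff_exists_fun K).mp hz
      rw [map_sum]
      refine Finset.sum_eq_zero fun j _ => ?_
      have h2 := congrFun hc j
      change ∑ i, c i * M i j = killingForm K L x (n j) at h2
      rw [map_smul, map_sub, LinearMap.sub_apply, map_sum, LinearMap.sum_apply, ← h2, smul_eq_mul]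
      have h3 : ∀ i, killingForm K L (c i • ρ i) (n j) = c i * M i j := by
        intro i
        rw [map_smul, LinearMap.smul_apply, smul_eq_mul]
        rfl
      rw [Finset.sum_congr rfl fun i _ => h3 i, sub_self, mul_zero]
    have h2 : ∑ i, c i • ρ i ∈ R := Submodule.sum_mem _ fun i _ => Submodule.smul_mem _ _ (hρ i)
    have h3 : x = ∑ i, c i • ρ i + (x - ∑ i, c i • ρ i) := by abel
    rw [h3]
    exact Submodule.add_mem_sup h2 h1
  have hall : ∀ p : ℕ, ∀ F ∈ VP (K := K) n p, ∀ ρ : Fin m → L, (∀ i, ρ i ∈ R) → F ρ = 0 := by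
    intro p
    induction p with
    | zero =>
      intro F hF ρ hρ
      obtain ⟨c, rfl⟩ := Submodule.mem_span_singleton.mp hF
      rw [MultilinearMap.smul_apply, h0 ρ hρ, smul_zero]
    | succ p ih =>
      have hZ : ∀ a : L, ∀ F ∈ VP (K := K) n p, ∀ ρ : Fin m → L, (∀ i, ρ i ∈ R) →
          act K a F ρ = 0 := by
        let Z : Submodule K L :=
          { carrier := {a | ∀ F ∈ VP (K := K) n p, ∀ ρ : Fin m → L, (∀ i, ρ i ∈ R) →
              act K a F ρ = 0}
            add_mem' := by
              intro a b ha hb F hF ρ hρ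
              rw [act_add_left, MultilinearMap.add_apply, ha F hF ρ hρ, hb F hF ρ hρ, add_zero]
            zero_mem' := by
              intro F hF ρ hρ
              have : act K (0 : L) F = 0 := by
                have := act_smul_left (0 : K) (0 : L) F
                rwa [zero_smul, zero_smul] at this
              rw [this]
              rfl
            smul_mem' := by
              intro c a ha F hF ρ hρ
              rw [act_smul_left, MultilinearMap.smul_apply, ha F hF ρ hρ, smul_zero] }
        have h1 : Submodule.span K S ⊔ R ⊔ bb K w ≤ Z := by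
          refine sup_le (sup_le ?_ ?_) ?_
          · rw [Submodule.span_le]
            intro A hA F hF ρ hρ
            obtain ⟨δ, T, hc⟩ := hS A hA
            obtain ⟨F', hF', h2⟩ := hc.form hn p F hF
            have h3 := h2 ρ
            rw [ih F hF ρ hρ, map_zero, ih F' hF' ρ hρ, zero_add] at h3
            have h4 : SP (fun y => T y - ⁅A, y⁆) (⇑F) ρ = - act K A F ρ := by
              rw [act_apply, ← Finset.sum_neg_distrib]
              unfold SP
              refine Finset.sum_congr rfl fun i _ => ?_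
              rw [MultilinearMap.map_update_sub, ih F hF _ (fun j => ?_), zero_sub]
              by_cases hj : j = i
              · subst hj
                rw [Function.update_self]
                exact hc.R _ (hρ j)
              · rw [Function.update_of_ne hj]
                exact hρ j
            rw [h4] at h3
            exact neg_eq_zero.mp h3.symm
          · intro a ha F hF ρ hρ
            rw [act_apply]
            refine Finset.sum_eq_zero fun i _ => ?_
            refine ih F hF _ (fun j => ?_)
            by_cases hj : j = i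
            · subst hj
              rw [Function.update_self]
              exact hR _ ha _ (hρ j)
            · rw [Function.update_of_ne hj]
              exact hρ j
          · intro b hb F hF ρ hρ
            exact ih _ (act_bb hn p b hb F hF) ρ hρ
        rw [hT] at h1
        intro a
        exact h1 Submodule.mem_top
      refine VP_ind n p _ ih hZ ?_ ?_
      · intro F G hF hG ρ hρ
        rw [MultilinearMap.add_apply, hF ρ hρ, hG ρ hρ, add_zero]
      · intro c F hF ρ hρ
        rw [MultilinearMap.smul_apply, hF ρ hρ, smul_zero]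
  obtain ⟨p, hp⟩ := VV_le n hF
  exact hne (hall p F hp ρ hρ)

end main

end Pool.Agent.TH298.FLV

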