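import Pool.Agent.TH28.FL.BC
import Pool.Agent.TH298.Van

set_option autoImplicit false

universe u v

namespace Pool.Agent.TH298.FLV

open Module Pool.Agent.TH28.FL TensorProduct

theorem van : Pool.Agent.TH28.FL.S_VAN.{u, v} := by
  intro k _ _ s _ _ _ _ r K _ _ w M hD hT m n _ hs hex
  obtain ⟨F, hF, ρ, hρ, hne⟩ := hex
  have : CharZero K := charZero_of_injective_algebraMap (algebraMap k K).injective
  refine van_abs (k := k) (R := rK K r.toSubmodule) hD.top hs
    (fun x hx y hy => rK_lie r hx hy)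
    {A | ∃ δ : Derivation k K K, dL s δ w = ⁅A, w⁆} ?_ hT hF hρ hne
  rintro A ⟨δ, hA⟩
  exact ⟨δ, dL s δ, fun x y => map_add _ x y, dL_smul δ, dL_lie δ, dL_kf δ,
    fun x hx => dL_rK δ hx, hA⟩

end Pool.Agent.TH298.FLV

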