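import Pool.Agent.TH28.FL.BC

set_option autoImplicit false

universe u v

namespace Pool.Agent.TH298.FLC

open Module Pool.Agent.TH28.FL TensorProduct

/-- a subspace transversal to the Borel subalgebra does not kill `fdet` -/
theorem exists_fdet_ne {K : Type u} {L : Type v} [Field K] [CharZero K] [LieRing L]
    [LieAlgebra K L] [FiniteDimensional K L] [LieAlgebra.IsKilling K L] {w : L}
    {R : Submodule K L} (hR : R ⊔ bb K w = ⊤) {m : ℕ} {n : Fin m → L}
    (hn : LinearIndependent K n) (hs : Submodule.span K (Set.range n) = nn K w) :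
    ∃ ρ : Fin m → L, (∀ i, ρ i ∈ R) ∧ fdet K n ρ ≠ 0 := by
  classical
  let Φ : L →ₗ[K] (Fin m → K) := LinearMap.pi fun j => (killingForm K L).flip (n j)
  have hΦ : ∀ x j, Φ x j = killingForm K L x (n j) := fun x j => rfl
  have hsurj : LinearMap.range Φ = ⊤ := by
    by_contra hne
    obtain ⟨f, hf0, hf⟩ := Submodule.exists_le_ker_of_lt_top _ (lt_top_iff_ne_top.mpr hne)
    apply hf0
    have h1 : ∀ x, ∑ j, f (Pi.single j 1) * killingForm K L x (n j) = 0 := by
      intro x
      have h2 : f (Φ x) = 0 := LinearMap.mem_ker.mp (hf ⟨x, rfl⟩)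
      have h3 : Φ x = ∑ j, Φ x j • (Pi.single j 1 : Fin m → K) := by
        ext i
        simp [Finset.sum_apply, Pi.single_apply]
      rw [h3, map_sum] at h2
      rw [← h2]
      refine Finset.sum_congr rfl fun j _ => ?_
      rw [map_smul, smul_eq_mul, hΦ, mul_comm]
    have h4 : ∑ j, f (Pi.single j 1) • n j = 0 := by
      apply kf_nondeg (K := K)
      intro y
      rw [kf_comm, map_sum, ← h1 y]
      refine Finset.sum_congr rfl fun j _ => ?_
      rw [map_smul, smul_eq_mul]
    have h5 := Fintype.linearIndependent_iff.mp hn _ h4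
    ext j
    simpa using h5 j
  have hRange : R.map Φ = ⊤ := by
    have h1 : (⊤ : Submodule K L).map Φ = ⊤ := by rw [Submodule.map_top, hsurj]
    rw [← hR, Submodule.map_sup] at h1
    have h2 : (bb K w).map Φ = ⊥ := by
      rw [eq_bot_iff]
      rintro _ ⟨x, hx, rfl⟩
      rw [Submodule.mem_bot]
      ext j
      rw [hΦ]
      refine kf_bb_nn hx ?_
      rw [← hs]
      exact Submodule.subset_span ⟨j, rfl⟩
    rwa [h2, sup_bot_eq] at h1
  have hρ : ∀ i : Fin m, ∃ x ∈ R, Φ x = Pi.single i 1 := by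
    intro i
    have : (Pi.single i 1 : Fin m → K) ∈ R.map Φ := by rw [hRange]; exact Submodule.mem_top
    exact this
  choose ρ hρR hρ using hρ
  refine ⟨ρ, hρR, ?_⟩
  rw [fdet_apply]
  have : (Matrix.of fun i j => killingForm K L (ρ i) (n j)) = (1 : Matrix (Fin m) (Fin m) K) := by
    ext i j
    rw [Matrix.of_apply, ← hΦ, hρ, Matrix.one_apply, Pi.single_apply]
    by_cases h : i = j
    · rw [if_pos h, if_pos h.symm]
    · rw [if_neg h, if_neg (Ne.symm h)]
  rw [this, Matrix.det_one]
  exact one_ne_zero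

/-- a basis of a subspace indexed by `Fin` -/
theorem exists_fin_basis {K : Type u} {L : Type v} [Field K] [AddCommGroup L] [Module K L]
    [FiniteDimensional K L] (U : Submodule K L) (m : ℕ) (hm : finrank K U = m) :
    ∃ n : Fin m → L, LinearIndependent K n ∧ Submodule.span K (Set.range n) = U := by
  subst hm
  let b := finBasis K U
  refine ⟨fun i => (b i : L), b.linearIndependent.map' U.subtype (Submodule.ker_subtype _), ?_⟩
  have h3 : (Set.range fun i => (b i : L)) = U.subtype '' Set.range b := by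
    rw [← Set.range_comp]
    rfl
  rw [h3, ← Submodule.map_span, b.span_eq, Submodule.map_top, Submodule.range_subtype]

theorem ccl (hE : Pool.Agent.TH28.FL.S_EXT.{u}) (hP : Pool.Agent.TH28.FL.S_PV.{u, max u v})
    (hV : Pool.Agent.TH28.FL.S_VAN.{u, v}) (hM : Pool.Agent.TH28.FL.S_MC.{u, v})
    (hS : Pool.Agent.TH28.FL.S_STEP.{u, v}) : Pool.Agent.TH28.FL.S_CCL.{u, v} := by
  intro k _ _ s _ _ _ _ r hHS
  have key : ∀ N : ℕ, ∀ (K : Type u) [Field K] [Algebra k K] (w : K ⊗[k] s) (M : ℤ),
      Dat K w M → finrank k s - finrank K (TT r.toSubmodule w) = N → CC r.toSubmodule w := by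
    intro N
    induction N using Nat.strong_induction_on with
    | _ N ih =>
      intro K _ _ w M hD hN
      by_cases hT : TT r.toSubmodule w = ⊤
      · obtain ⟨K₂, _, _, _, _, hclosed, w', M', hD', htr⟩ := hHS K
        have hc0 : CharZero K₂ := charZero_of_injective_algebraMap (algebraMap k K₂).injective
        have hD2 : Dat K₂ (io k s K K₂ w) M := dat_io hD
        have hT2 : TT r.toSubmodule (io k s K K₂ w) = ⊤ := by
          have h1 := ioS_TT_le (K₁ := K₂) (fun δ => hE k K K₂ δ) r.toSubmodule w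
          rw [hT, ioS_top] at h1
          exact top_le_iff.mp h1
        obtain ⟨hfr, hfd⟩ := hP K₂ (K₂ ⊗[k] s) (io k s K K₂ w) w' M M' hD2 hD'
        obtain ⟨n, hn, hsn⟩ := exists_fin_basis (nn K₂ (io k s K K₂ w)) _ rfl
        obtain ⟨n', hn', hsn'⟩ := exists_fin_basis (nn K₂ w') _ hfr.symm
        have hF := hfd _ n n' hn hn' hsn hsn'
        obtain ⟨ρ, hρ, hne⟩ := exists_fdet_ne htr hn' hsn'
        have h1 := hV k s r K₂ (io k s K K₂ w) M hD2 hT2 _ n hn hsn ⟨_, hF, ρ, hρ, hne⟩
        have h2 : rK K r.toSubmodule ⊔ bb K w = ⊤ := by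
          have h3 : ioS K K₂ (rK K r.toSubmodule ⊔ bb K w) = ⊤ := by
            rw [ioS_sup, ioS_rK, ioS_bb, h1]
          apply Submodule.eq_top_of_finrank_eq
          rw [← finrank_ioS (K₁ := K₂) (rK K r.toSubmodule ⊔ bb K w), h3, finrank_top,
            finrank_tensor, finrank_tensor]
        intro δ A _
        rw [h2]
        exact Submodule.mem_top
      · have h1 : ¬ ∀ c : ℤ, M ≤ c → c < 2 * M → dg K w (-c) ≤ TT r.toSubmodule w :=
          fun h => hT (hM k s r K w M hD h)
        push Not at h1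
        obtain ⟨c, hc1, hc2, hc3⟩ := h1
        obtain ⟨f, hf, hfT⟩ := Set.not_subset.mp hc3
        obtain ⟨K₁, _, _, w₁, hD1, hlt, himp⟩ := hS k s r K w M hD c hc1 hc2 f hf hfT
        apply himp
        have hle : finrank K₁ (TT r.toSubmodule w₁) ≤ finrank k s := by
          rw [← finrank_tensor (k := k) (s := s) (K := K₁)]
          exact Submodule.finrank_le _
        exact ih (finrank k s - finrank K₁ (TT r.toSubmodule w₁)) (by omega) K₁ w₁ M hD1 rfl
  intro K _ _ w M hD
  exact key _ K w M hD rfl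

end Pool.Agent.TH298.FLC

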