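import Pool.Agent.TH28.FL.Dat

set_option autoImplicit false

universe u v

namespace Pool.Agent.TH298.FL

open Module Pool.Agent.TH28.FL

section basics

variable {K : Type u} {L : Type v} [Field K] [LieRing L] [LieAlgebra K L]

theorem dg_eq (w : L) (j : ℤ) : dg K w j = (LieAlgebra.ad K L w).eigenspace (j : K) := by
  ext x
  rw [mem_dg, Module.End.mem_eigenspace_iff, LieAlgebra.ad_apply]

theorem dg_indep [CharZero K] (w : L) : iSupIndep (fun j : ℤ => dg K w j) := by
  have h := (LieAlgebra.ad K L w).eigenspaces_iSupIndep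
  have h2 := h.comp (f := ((↑) : ℤ → K)) Int.cast_injective
  have h3 : (fun j : ℤ => dg K w j) =
      (LieAlgebra.ad K L w).eigenspace ∘ ((↑) : ℤ → K) := by
    funext j
    exact dg_eq w j
  rw [h3]
  exact h2

theorem lie_dg {w x y : L} {i j : ℤ} (hx : x ∈ dg K w i) (hy : y ∈ dg K w j) :
    ⁅x, y⁆ ∈ dg K w (i + j) := by
  rw [mem_dg] at *
  rw [leibniz_lie, hx, hy, smul_lie, lie_smul, Int.cast_add, add_smul]

theorem self_mem (w : L) : w ∈ dg K w 0 := by
  rw [mem_dg, lie_self, Int.cast_zero, zero_smul]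

theorem kil_lie (x y z : L) : killingForm K L ⁅x, y⁆ z = killingForm K L x ⁅y, z⁆ :=
  LieModule.traceForm_apply_lie_apply K L L x y z

theorem kil_dg [CharZero K] {w x y : L} {i j : ℤ} (hx : x ∈ dg K w i) (hy : y ∈ dg K w j)
    (h : i + j ≠ 0) : killingForm K L x y = 0 := by
  have h1 : killingForm K L ⁅x, w⁆ y = killingForm K L x ⁅w, y⁆ := kil_lie x w y
  have h2 : ⁅x, w⁆ = -((i : K) • x) := by rw [← lie_skew, mem_dg.mp hx]
  rw [h2, mem_dg.mp hy, map_neg, map_smul, LinearMap.neg_apply, LinearMap.smul_apply, map_smul,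
    smul_eq_mul, smul_eq_mul] at h1
  have h3 : ((i + j : ℤ) : K) * killingForm K L x y = 0 := by
    push_cast
    linear_combination -h1
  rcases mul_eq_zero.mp h3 with h4 | h4
  · exact absurd (by exact_mod_cast h4) h
  · exact h4

theorem map_dg (w : L) (j : ℤ) (φ : L ≃ₗ⁅K⁆ L) :
    dg K (φ w) j = (dg K w j).map (φ : L →ₗ[K] L) := by
  ext x
  rw [Submodule.mem_map]
  constructor
  · intro hx
    refine ⟨φ.symm x, ?_, by simp⟩
    rw [mem_dg] at hx ⊢
    have := congrArg φ.symm hx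
    rw [LieEquiv.map_lie] at this
    simpa using this
  · rintro ⟨y, hy, rfl⟩
    rw [mem_dg] at hy ⊢
    have := congrArg φ hy
    rw [LieEquiv.map_lie] at this
    simpa using this

theorem map_nn (w : L) (φ : L ≃ₗ⁅K⁆ L) :
    nn K (φ w) = (nn K w).map (φ : L →ₗ[K] L) := by
  unfold nn
  simp only [Submodule.map_iSup, map_dg]

theorem finrank_map (U : Submodule K L) (φ : L ≃ₗ⁅K⁆ L) :
    finrank K (U.map (φ : L →ₗ[K] L)) = finrank K U :=
  LinearEquiv.finrank_map_eq φ.toLinearEquiv U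

theorem map_dat {w : L} {M : ℤ} (h : Dat K w M) (φ : L ≃ₗ⁅K⁆ L) : Dat K (φ w) M where
  pos := h.pos
  top := by
    simp only [map_dg, ← Submodule.map_iSup, h.top]
    rw [Submodule.map_top, LinearMap.range_eq_top]
    exact φ.surjective
  gap := by
    intro j hj hM
    rw [map_dg, h.gap j hj hM, Submodule.map_bot]
  one := by
    intro j hj
    rw [map_dg, finrank_map]
    exact h.one j hj
  comm := by
    intro x hx y hy
    rw [map_dg] at hx hy
    obtain ⟨x', hx', rfl⟩ := hx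
    obtain ⟨y', hy', rfl⟩ := hy
    have := congrArg φ (h.comm x' hx' y' hy')
    rw [LieEquiv.map_lie] at this
    simpa using this
  gen := by
    intro j hj z hz
    rw [map_dg] at hz
    obtain ⟨z', hz', rfl⟩ := hz
    have h1 := h.gen j hj z' hz'
    have h2 := Submodule.mem_map_of_mem (f := (φ : L →ₗ[K] L)) h1
    rw [Submodule.map_span] at h2
    refine Submodule.span_mono ?_ h2
    rintro _ ⟨_, ⟨c, hc1, hc2, hc3, x, hx, y, hy, rfl⟩, rfl⟩
    refine ⟨c, hc1, hc2, hc3, φ x, ?_, φ y, ?_, ?_⟩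
    · rw [map_dg]; exact Submodule.mem_map_of_mem hx
    · rw [map_dg]; exact Submodule.mem_map_of_mem hy
    · exact LieEquiv.map_lie φ x y

theorem wd_trans {φ ψ : L ≃ₗ⁅K⁆ L} (hφ : Wd K φ) (hψ : Wd K ψ) : Wd K (ψ.trans φ) := by
  induction hφ with
  | one => 
    have : ψ.trans LieEquiv.refl = ψ := by
      ext x
      rfl
    rw [this]
    exact hψ
  | step φ χ a ha h _ ih =>
    exact Wd.step (ψ.trans φ) (ψ.trans χ) a ha (fun x => h (ψ x)) ih

theorem dg_inf_iSup [CharZero K] {w : L} {j : ℤ} (S : ℤ → Prop) (hj : ¬ S j) :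
    dg K w j ⊓ (⨆ i : ℤ, ⨆ _ : S i, dg K w i) = ⊥ := by
  have h := dg_indep (K := K) w j
  rw [disjoint_iff] at h
  rw [eq_bot_iff, ← h]
  refine inf_le_inf_left _ ?_
  refine iSup_mono fun i => ?_
  refine iSup_le fun hi => ?_
  refine le_iSup_of_le (fun hij => hj (hij ▸ hi)) le_rfl

end basics

section graded

variable {K : Type u} {L : Type v} [Field K] [CharZero K] [LieRing L] [LieAlgebra K L]
  [FiniteDimensional K L]

/-- eigenspaces for non-integral eigenvalues vanish -/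
theorem eig_bot {w : L} (htop : ⨆ j : ℤ, dg K w j = ⊤) (μ : K) (hμ : ∀ j : ℤ, (j : K) ≠ μ) :
    (LieAlgebra.ad K L w).eigenspace μ = ⊥ := by
  have h := (LieAlgebra.ad K L w).eigenspaces_iSupIndep μ
  rw [disjoint_iff] at h
  rw [← h]
  refine le_antisymm (le_inf le_rfl ?_) inf_le_left
  refine le_trans le_top (htop ▸ ?_)
  refine iSup_le fun j => ?_
  rw [dg_eq]
  exact le_iSup_of_le (j : K) (le_iSup_of_le (hμ j) le_rfl)

theorem stab_graded {w : L} (htop : ⨆ j : ℤ, dg K w j = ⊤) (U : Submodule K L)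
    (hU : ∀ x ∈ U, ⁅w, x⁆ ∈ U) : U ≤ ⨆ j : ℤ, U ⊓ dg K w j := by
  have h := Submodule.inf_iSup_genEigenspace (p := U) (f := LieAlgebra.ad K L w) hU 1
  have h1 : (⊤ : Submodule K L) ≤ ⨆ μ : K, (LieAlgebra.ad K L w).genEigenspace μ 1 := by
    rw [← htop]
    refine iSup_le fun j => ?_
    rw [dg_eq]
    exact le_iSup (fun μ : K => (LieAlgebra.ad K L w).genEigenspace μ 1) (j : K)
  have h2 : U ≤ ⨆ μ : K, U ⊓ (LieAlgebra.ad K L w).genEigenspace μ 1 := by
    rw [← h]
    exact le_inf le_rfl (le_trans le_top h1)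
  refine h2.trans (iSup_le fun μ => ?_)
  by_cases hμ : ∃ j : ℤ, (j : K) = μ
  · obtain ⟨j, rfl⟩ := hμ
    refine le_iSup_of_le j ?_
    rw [dg_eq]
  · push Not at hμ
    have h3 : (LieAlgebra.ad K L w).genEigenspace μ 1 = ⊥ := eig_bot htop μ hμ
    rw [h3, inf_bot_eq]
    exact bot_le

theorem nn_stable {w x : L} (hx : x ∈ nn K w) {y : L} (hy : y ∈ dg K w 0) : ⁅y, x⁆ ∈ nn K w := by
  have h : nn K w ≤ (nn K w).comap (LieAlgebra.ad K L y) := by
    conv_lhs => unfold nn
    refine iSup_le fun j => iSup_le fun hj => ?_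
    intro z hz
    rw [Submodule.mem_comap, LieAlgebra.ad_apply]
    have h1 := lie_dg hy hz
    rw [zero_add] at h1
    exact Submodule.mem_iSup_of_mem j (Submodule.mem_iSup_of_mem hj h1)
  exact h hx

theorem nn_closed {w x y : L} (hx : x ∈ nn K w) (hy : y ∈ nn K w) : ⁅x, y⁆ ∈ nn K w := by
  have h : nn K w ≤ (nn K w).comap ((LieAlgebra.ad K L y : L →ₗ[K] L)) := by
    conv_lhs => unfold nn
    refine iSup_le fun j => iSup_le fun hj => ?_
    intro z hz
    rw [Submodule.mem_comap, LieAlgebra.ad_apply]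
    have h2 : nn K w ≤ (nn K w).comap ((LieAlgebra.ad K L z : L →ₗ[K] L)) := by
      conv_lhs => unfold nn
      refine iSup_le fun i => iSup_le fun hi => ?_
      intro t ht
      rw [Submodule.mem_comap, LieAlgebra.ad_apply]
      exact Submodule.mem_iSup_of_mem (j + i)
        (Submodule.mem_iSup_of_mem (add_pos hj hi) (lie_dg hz ht))
    have h3 := h2 hy
    rw [Submodule.mem_comap, LieAlgebra.ad_apply] at h3
    rw [← lie_skew]
    exact neg_mem h3
  have h3 := h hx
  rw [Submodule.mem_comap, LieAlgebra.ad_apply] at h3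
  rw [← lie_skew]
  exact neg_mem h3

end graded

end Pool.Agent.TH298.FL
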