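import Pool.Agent.TH37.HG.Stmts

set_option autoImplicit false

namespace Pool.Agent.TH298.HGN

open Pool.Agent.H53R2 Pool.Agent.TH37.HG
open scoped commutatorElement

/-- the centralizer of a finite normal subgroup has finite index -/
theorem fi_centralizer {G : Type} [Group G] (N : Subgroup G) [N.Normal] [Finite N] :
    (Subgroup.centralizer (N : Set G)).FiniteIndex := by
  classical
  let φ : G →* MulAut N := MulAut.conjNormal
  have hk : φ.ker = Subgroup.centralizer (N : Set G) := by
    ext g
    rw [MonoidHom.mem_ker, Subgroup.mem_centralizer_iff]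
    constructor
    · intro h n hn
      have h1 := congrArg (fun a : MulAut N => (a ⟨n, hn⟩ : G)) h
      simp only [φ, MulAut.conjNormal_apply, MulAut.one_apply] at h1
      have h2 : g * n * g⁻¹ * g = n * g := by rw [h1]
      simpa using h2.symm
    · intro h
      ext n
      simp only [φ, MulAut.conjNormal_apply, MulAut.one_apply]
      rw [← h n n.2]
      simp
  have : Finite (MulAut N) := by
    have : Finite (N ≃ N) := inferInstance
    exact Finite.of_injective (fun a : MulAut N => (a.toEquiv : N ≃ N))
      (fun a b h => MulEquiv.ext (fun x => congrArg (fun e : N ≃ N => e x) h))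
  rw [← hk]
  infer_instance

theorem nilf : NilfStmt := by
  intro G _ N _ _ hV
  obtain ⟨H1, hn, hf, m, hm⟩ := hV
  let π : G →* G ⧸ N := QuotientGroup.mk' N
  let C : Subgroup G := Subgroup.centralizer (N : Set G)
  have : C.FiniteIndex := fi_centralizer N
  have : C.Normal := inferInstance
  let H : Subgroup G := H1.comap π
  have : H.Normal := hn.comap π
  have : H.FiniteIndex := ⟨by
    rw [show H.index = H1.index from Subgroup.index_comap_of_surjective H1 (QuotientGroup.mk'_surjective N)]
    exact hf.index_ne_zero⟩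
  refine ⟨H ⊓ C, inferInstance, inferInstance, m + 1, ?_⟩
  rw [Lw_succ]
  have h1 : Lw (H ⊓ C) m (H ⊓ C) ≤ N := by
    calc Lw (H ⊓ C) m (H ⊓ C) ≤ Lw H m H := Lw_mono inf_le_left inf_le_left m
      _ ≤ (Lw H1 m H1).comap π := Lw_comap_le π H1 m H1
      _ = N := by rw [hm]; exact QuotientGroup.ker_mk' N
  have h2 : ⁅Lw (H ⊓ C) m (H ⊓ C), H ⊓ C⁆ ≤ ⁅N, C⁆ := Subgroup.commutator_mono h1 inf_le_right
  refine le_bot_iff.mp (h2.trans ?_)
  rw [Subgroup.commutator_comm, le_bot_iff]
  exact Subgroup.commutator_eq_bot_iff_le_centralizer.mpr le_rfl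

end Pool.Agent.TH298.HGN

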