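import Pool.Agent.TH319.CDefs

set_option autoImplicit false

namespace Pool.Agent.TH319
open Module Filter Topology
universe u

theorem grid_lemma {V : Type*} (C : ℝ → V → V → Prop)
    (hsymm : ∀ κ a b, C κ a b → C κ b a) (hmono : ∀ κ κ' a b, κ ≤ κ' → C κ a b → C κ' a b)
    (htri : ∀ κ κ' a b c, C κ a b → C κ' b c → C (κ + κ') a c)
    {κ : ℝ} (hκ0 : 0 ≤ κ) (hκ : κ ≤ 1 / 40) (N : ℕ) (L : ℕ → ℕ → Bool → V) (e₁ e₂ e₃ : V)
    (hfar : ∀ i ≤ N, ∀ j ≤ N, ¬ C (1 / 2) (L i j true) (L i j false))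
    (hnb1 : ∀ i < N, ∀ j ≤ N, ∀ x, ∃ y, C κ (L (i + 1) j y) (L i j x))
    (hnb2 : ∀ i ≤ N, ∀ j < N, ∀ x, ∃ y, C κ (L i (j + 1) y) (L i j x))
    (hc0 : ∀ j ≤ N, C κ (L 0 j true) e₁)
    (hr0 : ∀ i ≤ N, ∃ y, C κ (L i 0 y) e₂)
    (hrN : ∀ i ≤ N, ∃ y, C κ (L i N y) e₁)
    (hcN : ∀ j ≤ N, ∃ y, C κ (L N j y) e₃)
    (h12 : ¬ C (1 / 2) e₁ e₂) (h13 : ¬ C (1 / 2) e₁ e₃) (h23 : ¬ C (1 / 2) e₂ e₃) : False := by
  classical
  have hF : ∀ i ≤ N, ∀ j ≤ N, ∀ x y, C (1 / 2) (L i j x) (L i j y) → x = y := by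
    intro i hi j hj x y h
    cases x <;> cases y
    · rfl
    · exact absurd (hsymm _ _ _ h) (hfar i hi j hj)
    · exact absurd h (hfar i hi j hj)
    · rfl
  have hnb1' : ∀ i j x, ∃ y, i < N → j ≤ N → C κ (L (i + 1) j y) (L i j x) := by
    intro i j x
    by_cases h : i < N ∧ j ≤ N
    · obtain ⟨y, hy⟩ := hnb1 i h.1 j h.2 x
      exact ⟨y, fun _ _ => hy⟩
    · exact ⟨true, fun h1 h2 => absurd ⟨h1, h2⟩ h⟩
  choose nx hnx using hnb1'
  obtain ⟨bt, hbt0, hbtS⟩ : ∃ bt : ℕ → ℕ → Bool, (∀ j, bt j 0 = true) ∧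
      ∀ j i, bt j (i + 1) = nx i j (bt j i) :=
    ⟨fun j i => Nat.rec true (fun i b => nx i j b) i, fun _ => rfl, fun _ _ => rfl⟩
  have hstep : ∀ i < N, ∀ j ≤ N, C κ (L (i + 1) j (bt j (i + 1))) (L i j (bt j i)) := by
    intro i hi j hj
    rw [hbtS]; exact hnx i j _ hi hj
  have cl1 : ∀ i ≤ N, ∀ j < N, C (2 * κ) (L i j (bt j i)) (L i (j + 1) (bt (j + 1) i)) := by
    intro i
    induction i with
    | zero =>
      intro _ j hj
      rw [hbt0, hbt0]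
      have h := htri _ _ _ _ _ (hc0 j hj.le) (hsymm _ _ _ (hc0 (j + 1) hj))
      exact hmono _ _ _ _ (by linarith) h
    | succ i ih =>
      intro hi j hj
      obtain ⟨y, hy⟩ := hnb2 (i + 1) hi j hj (bt j (i + 1))
      have h1 := htri _ _ _ _ _ hy (hstep i (by omega) j hj.le)
      have h2 := htri _ _ _ _ _ h1 (ih (by omega) j hj)
      have h3 := htri _ _ _ _ _ h2 (hsymm _ _ _ (hstep i (by omega) (j + 1) hj))
      have hy' := hF (i + 1) hi (j + 1) hj _ _ (hmono _ _ _ _ (by linarith) h3)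
      rw [← hy']
      exact hmono _ _ _ _ (by linarith) (hsymm _ _ _ hy)
  have cl2 : ∀ i ≤ N, ¬ C (1 / 4) (L i 0 (bt 0 i)) e₂ := by
    intro i
    induction i with
    | zero =>
      intro _ h
      rw [hbt0] at h
      exact h12 (hmono _ _ _ _ (by linarith)
        (htri _ _ _ _ _ (hsymm _ _ _ (hc0 0 (Nat.zero_le _))) h))
    | succ i ih =>
      intro hi h
      obtain ⟨y, hy⟩ := hr0 (i + 1) hi
      have h1 := htri _ _ _ _ _ hy (hsymm _ _ _ h)
      have hy' := hF (i + 1) hi 0 (Nat.zero_le _) _ _ (hmono _ _ _ _ (by linarith) h1)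
      rw [hy'] at hy
      have h2 := htri _ _ _ _ _ (hsymm _ _ _ (hstep i (by omega) 0 (Nat.zero_le _))) hy
      exact ih (by omega) (hmono _ _ _ _ (by linarith) h2)
  have hN0 : C κ (L N 0 (bt 0 N)) e₃ := by
    obtain ⟨y, hy⟩ := hr0 N le_rfl
    obtain ⟨y', hy'⟩ := hcN 0 (Nat.zero_le _)
    have hne : y ≠ y' := by
      rintro rfl
      exact h23 (hmono _ _ _ _ (by linarith) (htri _ _ _ _ _ (hsymm _ _ _ hy) hy'))
    have hne2 : bt 0 N ≠ y := by
      intro h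
      rw [← h] at hy
      exact cl2 N le_rfl (hmono _ _ _ _ (by linarith) hy)
    have : bt 0 N = y' := by
      revert hne hne2
      cases bt 0 N <;> cases y <;> cases y' <;> simp
    rw [this]; exact hy'
  have cl3 : ∀ i ≤ N, C κ (L i N (bt N i)) e₁ := by
    intro i
    induction i with
    | zero => intro _; rw [hbt0]; exact hc0 N le_rfl
    | succ i ih =>
      intro hi
      obtain ⟨y, hy⟩ := hrN (i + 1) hi
      have h1 := htri _ _ _ _ _ (hstep i (by omega) N le_rfl) (ih (by omega))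
      have h2 := htri _ _ _ _ _ hy (hsymm _ _ _ h1)
      have hy' := hF (i + 1) hi N le_rfl _ _ (hmono _ _ _ _ (by linarith) h2)
      rw [← hy']; exact hy
  have cl4 : ∀ j ≤ N, C κ (L N j (bt j N)) e₃ := by
    intro j
    induction j with
    | zero => intro _; exact hN0
    | succ j ih =>
      intro hj
      obtain ⟨y, hy⟩ := hcN (j + 1) hj
      have h1 := htri _ _ _ _ _ (hsymm _ _ _ (cl1 N le_rfl j (by omega))) (ih (by omega))
      have h2 := htri _ _ _ _ _ hy (hsymm _ _ _ h1)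
      have hy' := hF N le_rfl (j + 1) hj _ _ (hmono _ _ _ _ (by linarith) h2)
      rw [← hy']; exact hy
  exact h13 (hmono _ _ _ _ (by linarith)
    (htri _ _ _ _ _ (hsymm _ _ _ (cl3 N le_rfl)) (cl4 N le_rfl)))

end Pool.Agent.TH319
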