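import Pool.Agent.TH319.CDefs
import Pool.Agent.TH319.Rot
import Pool.Agent.TH319.RealPartner

/-!
Quaternionic pairs give rotation partners in complex homogeneous spaces.
-/

set_option autoImplicit false

namespace Pool.Agent.TH319

open Module Filter Topology

theorem exists_eps2 {δ : ℝ} (hδ : 0 < δ) : ∃ ε > 0, ε ≤ (1 : ℝ) ∧
    2 * Real.sqrt ((1 + ε) ^ 4 - 1) ≤ 1 / 2 ∧
    (1 + ε) ^ 4 + 324 * (2 * Real.sqrt ((1 + ε) ^ 4 - 1)) ≤ 1 + δ := by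
  have c1 : Continuous fun ε : ℝ => 2 * Real.sqrt ((1 + ε) ^ 4 - 1) := by fun_prop
  have c2 : Continuous fun ε : ℝ => (1 + ε) ^ 4 + 324 * (2 * Real.sqrt ((1 + ε) ^ 4 - 1)) := by
    fun_prop
  have t1 : Tendsto (fun ε : ℝ => 2 * Real.sqrt ((1 + ε) ^ 4 - 1)) (𝓝[>] 0) (𝓝 0) := by
    have := (c1.tendsto 0).mono_left (nhdsWithin_le_nhds (s := Set.Ioi 0))
    simpa using this
  have t2 : Tendsto (fun ε : ℝ => (1 + ε) ^ 4 + 324 * (2 * Real.sqrt ((1 + ε) ^ 4 - 1)))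
      (𝓝[>] 0) (𝓝 1) := by
    have := (c2.tendsto 0).mono_left (nhdsWithin_le_nhds (s := Set.Ioi 0))
    simpa using this
  have e1 := t1.eventually_le_const (by norm_num : (0:ℝ) < 1 / 2)
  have e2 := t2.eventually_le_const (by linarith : (1:ℝ) < 1 + δ)
  have e3 : ∀ᶠ ε : ℝ in 𝓝[>] 0, ε ≤ 1 := by
    filter_upwards [nhdsWithin_le_nhds (Iic_mem_nhds (by norm_num : (0:ℝ) < 1))] with ε hε
    exact hε
  obtain ⟨ε, h1, h2, h3, h4⟩ := (e1.and (e2.and (e3.and self_mem_nhdsWithin))).exists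
  exact ⟨ε, h4, h3, h1, h2⟩

theorem SU2.transfer {X Y : Type*} [NormedAddCommGroup X] [NormedSpace ℂ X]
    [NormedAddCommGroup Y] [NormedSpace ℂ Y] (e : X ≃ₗᵢ[ℂ] Y) (h : SU2 X) : SU2 Y := by
  intro ε hε
  obtain ⟨I₁, I₂, h1, h2, h3, h4⟩ := h ε hε
  refine ⟨e.toLinearEquiv.toLinearMap ∘ₗ I₁ ∘ₗ e.symm.toLinearEquiv.toLinearMap,
    e.toLinearEquiv.toLinearMap ∘ₗ I₂ ∘ₗ e.symm.toLinearEquiv.toLinearMap, ?_, ?_, ?_, ?_⟩
  · intro x; simp [h1]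
  · intro x; simp [h2]
  · intro x; simp [h3]
  · intro a b c habc x
    have h5 := h4 a b c habc (e.symm x)
    have h6 : ‖e ((a : ℂ) • e.symm x + (b : ℂ) • I₁ (e.symm x) + (c : ℂ) • I₂ (e.symm x))‖
        = ‖(a : ℂ) • e.symm x + (b : ℂ) • I₁ (e.symm x) + (c : ℂ) • I₂ (e.symm x)‖ :=
      e.norm_map _
    rw [e.symm.norm_map, ← h6, map_add, map_add, map_smul, map_smul, map_smul,
      e.apply_symm_apply] at h5
    exact h5

/-- The phase of a complex number. -/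
theorem exists_phase (z : ℂ) : ∃ e : ℂ, ‖e‖ = 1 ∧ z = (‖z‖ : ℂ) * e := by
  rcases eq_or_ne z 0 with h | h
  · exact ⟨1, by simp, by simp [h]⟩
  · have hz : (‖z‖ : ℂ) ≠ 0 := by exact_mod_cast (norm_pos_iff.2 h).ne'
    refine ⟨z / ‖z‖, ?_, by field_simp⟩
    rw [norm_div, Complex.norm_real, norm_norm, div_self (norm_pos_iff.2 h).ne']

theorem Ph.left {X : Type*} [NormedAddCommGroup X] [NormedSpace ℂ X] {ε : ℝ}
    {G M : Submodule ℂ X} (h : Ph ε G M) {ζ : ℂ} (hζ : ‖ζ‖ = 1) {g m : X} (hg : g ∈ G)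
    (hm : m ∈ M) : ‖ζ • g + m‖ ≤ (1 + ε) * ‖g + m‖ := by
  have hζ0 : ζ ≠ 0 := by rintro rfl; simp at hζ
  have h1 := h ζ⁻¹ (by rw [norm_inv, hζ, inv_one]) g hg m hm
  have h2 : ζ • g + m = ζ • (g + ζ⁻¹ • m) := by
    rw [smul_add, smul_smul, mul_inv_cancel₀ hζ0, one_smul]
  rw [h2, norm_smul, hζ, one_mul]
  exact h1

theorem combine_phases {X : Type*} [NormedAddCommGroup X] [NormedSpace ℂ X] {h l k0 : X}
    {δ' δ : ℝ} (hδ'pos : 0 < δ') (hδ : 0 < δ) (hcube : (1 + δ') * ((1 + δ') * (1 + δ')) ≤ 1 + δ)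
    (hcore : ∀ u v : ℝ, u ^ 2 + v ^ 2 = 1 → ∀ α β : ℂ,
      ‖((u : ℂ) * α - (v : ℂ) * β) • h + ((v : ℂ) * α + (u : ℂ) * β) • l + k0‖
        ≤ (1 + δ') * ‖α • h + β • l + k0‖)
    (hph1 : ∀ ζ : ℂ, ‖ζ‖ = 1 → ∀ a b : ℂ,
      ‖(ζ * a) • h + b • l + k0‖ ≤ (1 + δ') * ‖a • h + b • l + k0‖)
    (hph2 : ∀ ζ : ℂ, ‖ζ‖ = 1 → ∀ b : ℂ,
      ‖(ζ * b) • l + k0‖ ≤ (1 + δ') * ‖b • l + k0‖) (α β : ℂ) :
    ‖α • h + β • l + k0‖ ≤ (1 + δ) * ‖((Real.sqrt (‖α‖ ^ 2 + ‖β‖ ^ 2) : ℝ) : ℂ) • l + k0‖ ∧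
    ‖((Real.sqrt (‖α‖ ^ 2 + ‖β‖ ^ 2) : ℝ) : ℂ) • l + k0‖ ≤ (1 + δ) * ‖α • h + β • l + k0‖ := by
  obtain ⟨ea, hea, haα⟩ := exists_phase α
  obtain ⟨eb, heb, hbβ⟩ := exists_phase β
  have hea0 : ea ≠ 0 := by rintro rfl; simp at hea
  have heb0 : eb ≠ 0 := by rintro rfl; simp at heb
  set r := Real.sqrt (‖α‖ ^ 2 + ‖β‖ ^ 2) with hr
  have hr2 : r ^ 2 = ‖α‖ ^ 2 + ‖β‖ ^ 2 := by rw [hr, Real.sq_sqrt (by positivity)]
  have hr0 : 0 ≤ r := Real.sqrt_nonneg _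
  have hd0 : 0 ≤ 1 + δ' := by linarith
  rcases hr0.eq_or_lt with h0 | hrpos
  · have hα : ‖α‖ = 0 := by nlinarith [sq_nonneg ‖α‖, sq_nonneg ‖β‖]
    have hβ : ‖β‖ = 0 := by nlinarith [sq_nonneg ‖α‖, sq_nonneg ‖β‖]
    rw [norm_eq_zero] at hα hβ
    show ‖α • h + β • l + k0‖ ≤ (1 + δ) * ‖((r : ℝ) : ℂ) • l + k0‖ ∧
      ‖((r : ℝ) : ℂ) • l + k0‖ ≤ (1 + δ) * ‖α • h + β • l + k0‖
    rw [← h0, hα, hβ]
    simp only [zero_smul, zero_add, Complex.ofReal_zero]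
    constructor <;> nlinarith [norm_nonneg k0]
  · have hrC : (r : ℂ) ≠ 0 := by exact_mod_cast hrpos.ne'
    have hr2C : (r : ℂ) ^ 2 = (‖α‖ : ℂ) ^ 2 + (‖β‖ : ℂ) ^ 2 := by exact_mod_cast hr2
    have hunit : (‖β‖ / r) ^ 2 + (‖α‖ / r) ^ 2 = 1 := by
      rw [div_pow, div_pow, ← add_div, hr2, add_comm, div_self]
      rw [← hr2]; positivity
    show ‖α • h + β • l + k0‖ ≤ (1 + δ) * ‖((r : ℝ) : ℂ) • l + k0‖ ∧
      ‖((r : ℝ) : ℂ) • l + k0‖ ≤ (1 + δ) * ‖α • h + β • l + k0‖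
    have hunitea : ‖ea / eb‖ = 1 := by rw [norm_div, hea, heb, div_one]
    have hunitea' : ‖eb / ea‖ = 1 := by rw [norm_div, hea, heb, div_one]
    constructor
    · have s1 := hph2 eb heb (r : ℂ)
      have s2 := hcore (‖β‖ / r) (-(‖α‖ / r)) (by rw [neg_sq]; exact hunit) 0 (eb * r)
      have e1 : ((‖β‖ / r : ℝ) : ℂ) * 0 - ((-(‖α‖ / r) : ℝ) : ℂ) * (eb * r) = eb * ‖α‖ := by
        push_cast; field_simp; ring
      have e2 : ((-(‖α‖ / r) : ℝ) : ℂ) * 0 + ((‖β‖ / r : ℝ) : ℂ) * (eb * r) = β := by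
        push_cast
        rw [mul_zero, zero_add, mul_comm eb, ← mul_assoc, div_mul_cancel₀ _ hrC]
        exact hbβ.symm
      rw [e1, e2, zero_smul, zero_add] at s2
      have s3 := hph1 (ea / eb) hunitea (eb * ‖α‖) β
      have e3 : ea / eb * (eb * ‖α‖) = α := by
        conv_rhs => rw [haα]
        field_simp
      rw [e3] at s3
      calc _ ≤ _ := s3
        _ ≤ (1 + δ') * ((1 + δ') * ‖(eb * r) • l + k0‖) := by gcongr
        _ ≤ (1 + δ') * ((1 + δ') * ((1 + δ') * ‖(r : ℂ) • l + k0‖)) := by gcongr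
        _ = ((1 + δ') * ((1 + δ') * (1 + δ'))) * ‖(r : ℂ) • l + k0‖ := by ring
        _ ≤ _ := by gcongr
    · have s1 := hph1 (eb / ea) hunitea' α β
      have e1 : eb / ea * α = eb * ‖α‖ := by
        conv_lhs => rw [haα]
        field_simp
      rw [e1] at s1
      have s2 := hcore (‖β‖ / r) (‖α‖ / r) hunit (eb * ‖α‖) β
      have e2 : ((‖β‖ / r : ℝ) : ℂ) * (eb * ‖α‖) - ((‖α‖ / r : ℝ) : ℂ) * β = 0 := by
        push_cast
        linear_combination (-((‖α‖ : ℂ) / (r : ℂ))) * hbβ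
      have e3 : ((‖α‖ / r : ℝ) : ℂ) * (eb * ‖α‖) + ((‖β‖ / r : ℝ) : ℂ) * β = eb * r := by
        have : ((‖α‖ / r : ℝ) : ℂ) * (eb * ‖α‖) + ((‖β‖ / r : ℝ) : ℂ) * ((‖β‖ : ℂ) * eb)
            = eb * (((‖α‖ : ℂ) ^ 2 + (‖β‖ : ℂ) ^ 2) / r) := by push_cast; ring
        rw [← hbβ, ← hr2C] at this
        rw [this]; field_simp
      rw [e2, e3, zero_smul, zero_add] at s2
      have s3 := hph2 eb⁻¹ (by rw [norm_inv, heb, inv_one]) (eb * r)
      rw [inv_mul_cancel_left₀ heb0] at s3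
      calc _ ≤ _ := s3
        _ ≤ (1 + δ') * ((1 + δ') * ‖(eb * ‖α‖) • h + β • l + k0‖) := by gcongr
        _ ≤ (1 + δ') * ((1 + δ') * ((1 + δ') * ‖α • h + β • l + k0‖)) := by gcongr
        _ = ((1 + δ') * ((1 + δ') * (1 + δ'))) * ‖α • h + β • l + k0‖ := by ring
        _ ≤ _ := by gcongr

theorem partner_of_SU2 {X : Type*} [NormedAddCommGroup X] [NormedSpace ℂ X] [CompleteSpace X]
    [TopologicalSpace.SeparableSpace X] (hX : Homog ℂ X) (hJ : SU2 X) : Partner ℂ X := by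
  intro h hh K hK δ hδ
  set δ' : ℝ := min 1 (δ / 7) with hδ'
  have hδ'pos : 0 < δ' := by rw [hδ']; positivity
  have hδ'1 : δ' ≤ 1 := min_le_left _ _
  have hδ'2 : δ' ≤ δ / 7 := min_le_right _ _
  have hcube : (1 + δ') * ((1 + δ') * (1 + δ')) ≤ 1 + δ := by nlinarith [sq_nonneg δ']
  obtain ⟨ε, hε, hε1, hγ, hεδ⟩ := exists_eps2 hδ'pos
  set γ := Real.sqrt ((1 + ε) ^ 4 - 1) with hγdef
  have hγ0 : 0 ≤ γ := Real.sqrt_nonneg _
  have hεδ' : 1 + ε ≤ 1 + δ' := by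
    have : 1 + ε ≤ (1 + ε) ^ 4 := by
      calc 1 + ε = (1 + ε) ^ 1 := (pow_one _).symm
        _ ≤ (1 + ε) ^ 4 := pow_le_pow_right₀ (by linarith) (by norm_num)
    linarith
  obtain ⟨M, hM1, hM2, hM3⟩ := ph_complex hX (G := Submodule.span ℂ {h}) inferInstance hK hε
  have hhM := not_mem_of_ph hh hM3
  obtain ⟨f, hfh, hfM⟩ := exists_functional hM1.closed hhM
  set Y := Submodule.span ℂ {h} ⊔ M with hYdef
  have hY : CI Y := CI.sup inferInstance hM1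
  obtain ⟨e0⟩ := hX Y hY.closed hY.inf
  obtain ⟨I₁, I₂, hI1, hI2, hI12, hIn⟩ := hJ.transfer e0 ε hε
  have hhY : h ∈ Y := (le_sup_left : Submodule.span ℂ {h} ≤ Y)
    (Submodule.mem_span_singleton_self h)
  have hMY : M ≤ Y := le_sup_right
  let hv : Y := ⟨h, hhY⟩
  let fY : Y →ₗ[ℂ] ℂ := (f : X →ₗ[ℂ] ℂ).comp Y.subtype
  have hfYh : fY hv = 1 := hfh
  -- decomposition
  have hdec : ∀ y : Y, (y : X) - fY y • h ∈ M := by
    intro y
    obtain ⟨g, hg, m, hm, hgm⟩ := Submodule.mem_sup.1 y.2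
    obtain ⟨a, rfl⟩ := Submodule.mem_span_singleton.1 hg
    have e : fY y = a := by
      show f (y : X) = a
      rw [← hgm, map_add, map_smul, hfh, hfM m hm]; simp
    rw [e, ← hgm, add_sub_cancel_left]
    exact hm
  have hs : ∀ y : Y, ‖(2 * fY y) • hv - y‖ ≤ (1 + ε) * ‖y‖ := by
    intro y
    have h1 := hM3 (-1) (by simp) (fY y • h)
      (Submodule.smul_mem _ _ (Submodule.mem_span_singleton_self h)) _ (hdec y)
    rw [add_sub_cancel] at h1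
    have e : fY y • h + (-1 : ℂ) • ((y : X) - fY y • h)
        = (((2 * fY y) • hv - y : Y) : X) := by
      rw [Submodule.coe_sub, Submodule.coe_smul]
      show _ = (2 * fY y) • h - (y : X)
      module
    rw [e] at h1
    exact h1
  have hfb : ∀ y : Y, ‖fY y‖ * ‖h‖ ≤ (1 + ε) * ‖y‖ := by
    intro y
    have h1 : (2 * fY y) • hv = ((2 * fY y) • hv - y) + y := by abel
    have h2 : ‖(2 * fY y) • hv‖ ≤ (1 + ε) * ‖y‖ + ‖y‖ := by
      rw [h1]; exact (norm_add_le _ _).trans (by gcongr; exact hs y)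
    rw [norm_smul, norm_mul, Complex.norm_ofNat] at h2
    have h3 : ‖hv‖ = ‖h‖ := rfl
    rw [h3] at h2
    nlinarith [norm_nonneg y]
  have hhpos : 0 < ‖h‖ := norm_pos_iff.2 hh
  -- real parts of the compression coefficients are small
  have hre : ∀ I : Y →ₗ[ℂ] Y, (∀ a b : ℝ, a ^ 2 + b ^ 2 = 1 → ∀ y,
      ‖(a : ℂ) • y + (b : ℂ) • I y‖ ≤ (1 + ε) * ‖y‖) → |(fY (I hv)).re| ≤ γ := by
    intro I hI
    set c := (fY (I hv)).re with hc
    have hsq : 0 < 1 + c ^ 2 := by positivity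
    set s := Real.sqrt (1 + c ^ 2) with hs'
    have hs0 : 0 < s := Real.sqrt_pos.2 hsq
    have hss : s ^ 2 = 1 + c ^ 2 := Real.sq_sqrt hsq.le
    have h1 := hI (1 / s) (c / s) (by
      rw [div_pow, div_pow, hss]; field_simp) hv
    have h2 := hfb (((1 / s : ℝ) : ℂ) • hv + ((c / s : ℝ) : ℂ) • I hv)
    have h3 : (fY (((1 / s : ℝ) : ℂ) • hv + ((c / s : ℝ) : ℂ) • I hv)).re = s := by
      rw [map_add, map_smul, map_smul, hfYh, smul_eq_mul, smul_eq_mul, Complex.add_re,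
        Complex.re_ofReal_mul, Complex.re_ofReal_mul, ← hc, Complex.one_re]
      have e : 1 / s * 1 + c / s * c = (1 + c ^ 2) / s := by ring
      rw [e, ← hss]; field_simp
    have h3' : s ≤ ‖fY (((1 / s : ℝ) : ℂ) • hv + ((c / s : ℝ) : ℂ) • I hv)‖ := by
      calc s = _ := h3.symm
        _ ≤ _ := Complex.re_le_norm _
    have h4 : s * ‖h‖ ≤ ((1 + ε) * (1 + ε)) * ‖h‖ := by
      calc _ ≤ _ := mul_le_mul_of_nonneg_right h3' hhpos.le
        _ ≤ _ := h2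
        _ ≤ (1 + ε) * ((1 + ε) * ‖hv‖) := by gcongr
        _ = _ := by show (1 + ε) * ((1 + ε) * ‖h‖) = _; ring
    have h5 : s ≤ (1 + ε) * (1 + ε) := le_of_mul_le_mul_right h4 hhpos
    have h6 : c ^ 2 ≤ (1 + ε) ^ 4 - 1 := by
      have : s ^ 2 ≤ ((1 + ε) * (1 + ε)) ^ 2 := by gcongr
      rw [hss] at this
      nlinarith
    rw [hγdef]
    exact Real.abs_le_sqrt h6
  have hr1 := hre I₁ (by
    intro a b hab y
    have := hIn a b 0 (by rw [← hab]; ring) y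
    simpa using this)
  have hr2 := hre I₂ (by
    intro a b hab y
    have := hIn a 0 b (by rw [← hab]; ring) y
    simpa using this)
  -- the choice of the complex structure
  obtain ⟨p, q, hpq, hpq0⟩ : ∃ p q : ℝ, p ^ 2 + q ^ 2 = 1 ∧
      p * (fY (I₁ hv)).im + q * (fY (I₂ hv)).im = 0 := by
    set x := (fY (I₁ hv)).im
    set y := (fY (I₂ hv)).im
    by_cases h0 : x ^ 2 + y ^ 2 = 0
    · have hx : x = 0 := by nlinarith [sq_nonneg x, sq_nonneg y]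
      have hy : y = 0 := by nlinarith [sq_nonneg x, sq_nonneg y]
      exact ⟨1, 0, by norm_num, by rw [hx, hy]; ring⟩
    · have hpos : 0 < x ^ 2 + y ^ 2 := lt_of_le_of_ne (by positivity) (Ne.symm h0)
      have hss := Real.sq_sqrt hpos.le
      have hsp := Real.sqrt_pos.2 hpos
      refine ⟨y / Real.sqrt (x ^ 2 + y ^ 2), -x / Real.sqrt (x ^ 2 + y ^ 2), ?_, ?_⟩
      · rw [div_pow, div_pow, hss]; field_simp; ring
      · field_simp; ring
  let J : Y →ₗ[ℂ] Y := (p : ℂ) • I₁ + (q : ℂ) • I₂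
  have hJapp : ∀ y, J y = (p : ℂ) • I₁ y + (q : ℂ) • I₂ y := fun y => rfl
  have hpqC : (p : ℂ) ^ 2 + (q : ℂ) ^ 2 = 1 := by exact_mod_cast hpq
  have hJ1 : ∀ y, J (J y) = -y := by
    intro y
    have e : J (J y) = -(((p : ℂ) ^ 2 + (q : ℂ) ^ 2) • y) := by
      simp only [hJapp, map_add, map_smul, hI1, hI2, hI12]
      module
    rw [e, hpqC, one_smul]
  have hJ2 : ∀ a b : ℝ, a ^ 2 + b ^ 2 = 1 → ∀ y,
      ‖(a : ℂ) • y + (b : ℂ) • J y‖ ≤ (1 + ε) * ‖y‖ := by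
    intro a b hab y
    have h1 := hIn a (b * p) (b * q) (by
      have : a ^ 2 + (b * p) ^ 2 + (b * q) ^ 2 = a ^ 2 + b ^ 2 * (p ^ 2 + q ^ 2) := by ring
      rw [this, hpq, mul_one, hab]) y
    have e : (a : ℂ) • y + (b : ℂ) • J y =
        (a : ℂ) • y + ((b * p : ℝ) : ℂ) • I₁ y + ((b * q : ℝ) : ℂ) • I₂ y := by
      rw [hJapp]; push_cast; module
    rw [e]; exact h1
  set c := fY (J hv) with hc
  have hcγ : ‖fY (J hv)‖ ≤ 2 * γ := by
    have him : (fY (J hv)).im = 0 := by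
      rw [hJapp, map_add, map_smul, map_smul, smul_eq_mul, smul_eq_mul, Complex.add_im,
        Complex.im_ofReal_mul, Complex.im_ofReal_mul, hpq0]
    have hree : (fY (J hv)).re = p * (fY (I₁ hv)).re + q * (fY (I₂ hv)).re := by
      rw [hJapp, map_add, map_smul, map_smul, smul_eq_mul, smul_eq_mul, Complex.add_re,
        Complex.re_ofReal_mul, Complex.re_ofReal_mul]
    have hn : ‖fY (J hv)‖ = |(fY (J hv)).re| := by
      have := Complex.re_add_im (fY (J hv))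
      rw [him, Complex.ofReal_zero, zero_mul, add_zero] at this
      conv_lhs => rw [← this]
      rw [Complex.norm_real, Real.norm_eq_abs]
    have hp1 : |p| ≤ 1 := abs_le_one_iff_mul_self_le_one.2 (by nlinarith [sq_nonneg q])
    have hq1 : |q| ≤ 1 := abs_le_one_iff_mul_self_le_one.2 (by nlinarith [sq_nonneg p])
    rw [hn, hree]
    calc _ ≤ |p * (fY (I₁ hv)).re| + |q * (fY (I₂ hv)).re| := abs_add_le _ _
      _ = |p| * |(fY (I₁ hv)).re| + |q| * |(fY (I₂ hv)).re| := by rw [abs_mul, abs_mul]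
      _ ≤ 1 * γ + 1 * γ := by gcongr
      _ = 2 * γ := by ring
  -- the vector `ℓ`
  let lv : Y := J hv - fY (J hv) • hv
  have hlM : (lv : X) ∈ M := hdec (J hv)
  have hl0 : (lv : X) ≠ 0 := by
    intro h0
    have h1 : lv = 0 := Subtype.ext h0
    have h2 : fY (J lv) = -1 - c ^ 2 := by
      show fY (J (J hv - fY (J hv) • hv)) = _
      rw [map_sub, hJ1, map_smul, map_sub, map_neg, map_smul, hfYh, ← hc, smul_eq_mul]; ring
    rw [h1, map_zero, map_zero] at h2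
    have h3 : c ^ 2 = -1 := by linear_combination h2
    have h4 : ‖c‖ ^ 2 = 1 := by rw [← norm_pow, h3]; simp
    have h5 : ‖c‖ ≤ 1 / 2 := (hcγ).trans hγ
    nlinarith [norm_nonneg c]
  -- the subspace
  have hJb : ∀ y, ‖J y‖ ≤ (1 + ε) * ‖y‖ := by
    intro y
    have := hJ2 0 1 (by norm_num) y
    rwa [Complex.ofReal_zero, zero_smul, Complex.ofReal_one, one_smul, zero_add] at this
  let JL : Y →L[ℂ] Y := J.mkContinuous (1 + ε) hJb
  let g : Y →L[ℂ] ℂ := (f.comp Y.subtypeL).comp JL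
  have hN : CI (M.comap Y.subtype) := hM1.comap_of_le hMY
  have hN' := hN.inf_ker g
  set K0 : Submodule ℂ X := ((M.comap Y.subtype) ⊓ LinearMap.ker (g : Y →ₗ[ℂ] ℂ)).map
    Y.subtype with hK0
  have hK0CI : CI K0 := hN'.map hY.closed
  have hK0M : K0 ≤ M := by
    rintro _ ⟨k, hk, rfl⟩
    exact hk.1
  obtain ⟨K', hK1, hK2, hK3⟩ := ph_complex hX (G := Submodule.span ℂ {(lv : X)}) inferInstance
    hK0CI hε
  refine ⟨(lv : X), hM2 hlM, hl0, K', fun x hx => hM2 (hK0M (hK2 hx)), hK1, ?_⟩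
  intro α β k0 hk0
  have hk0M : k0 ∈ M := hK0M (hK2 hk0)
  obtain ⟨k, hk, hkk⟩ := hK2 hk0
  have hk1 : fY k = 0 := hfM _ hk.1
  have hk2 : fY (J k) = 0 := hk.2
  have hkk' : (k : X) = k0 := hkk
  have hcore : ∀ u v : ℝ, u ^ 2 + v ^ 2 = 1 → ∀ α β : ℂ,
      ‖((u : ℂ) * α - (v : ℂ) * β) • h + ((v : ℂ) * α + (u : ℂ) * β) • (lv : X) + k0‖
        ≤ (1 + δ') * ‖α • h + β • (lv : X) + k0‖ := by
    intro u v huv α β
    obtain ⟨p', q', hpq', hu, hv'⟩ := half_angle u v huv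
    have h1 := rot_core fY J hfYh hJ1 hε.le hε1 (by
      intro a b hab y
      exact hJ2 a b hab y) hs hcγ hγ p' q' hpq' α β k hk1 hk2
    rw [hu, hv'] at h1
    have h2 : ‖α • h + β • (lv : X) + k0‖ = ‖α • hv + β • lv + k‖ := by
      rw [← hkk']; rfl
    have h3 : ‖((u : ℂ) * α - (v : ℂ) * β) • h + ((v : ℂ) * α + (u : ℂ) * β) • (lv : X) + k0‖
        = ‖((u : ℂ) * α - (v : ℂ) * β) • hv + ((v : ℂ) * α + (u : ℂ) * β) • lv + k‖ := by
      rw [← hkk']; rfl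
    rw [h2, h3]
    refine (h1 : _ ≤ _).trans ?_
    gcongr
  -- phases
  have hph1 : ∀ ζ : ℂ, ‖ζ‖ = 1 → ∀ a b : ℂ,
      ‖(ζ * a) • h + b • (lv : X) + k0‖ ≤ (1 + δ') * ‖a • h + b • (lv : X) + k0‖ := by
    intro ζ hζ a b
    have hm : b • (lv : X) + k0 ∈ M := M.add_mem (M.smul_mem _ hlM) hk0M
    have h1 := hM3.left hζ (g := a • h)
      (Submodule.smul_mem _ _ (Submodule.mem_span_singleton_self h)) hm
    rw [smul_smul, ← add_assoc, ← add_assoc] at h1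
    refine h1.trans ?_
    gcongr
  have hph2 : ∀ ζ : ℂ, ‖ζ‖ = 1 → ∀ b : ℂ,
      ‖(ζ * b) • (lv : X) + k0‖ ≤ (1 + δ') * ‖b • (lv : X) + k0‖ := by
    intro ζ hζ b
    have h1 := hK3.left hζ (g := b • (lv : X))
      (Submodule.smul_mem _ _ (Submodule.mem_span_singleton_self _)) hk0
    rw [smul_smul] at h1
    refine h1.trans ?_
    gcongr
  exact combine_phases hδ'pos hδ hcube hcore hph1 hph2 α β

end Pool.Agent.TH319
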