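import Mathlib
import Pool.Agent.TH600.YT.Defs

set_option autoImplicit false

open MeasureTheory Real Set
open scoped ContDiff

namespace Pool.Agent.TH298.YT747

open Pool.Agent.TH600.YT

lemma tau_lo : (171572 / 1000000 : ℝ) ≤ tau := by
  have h : √(2:ℝ) ≤ 1414214/1000000 := by
    rw [Real.sqrt_le_left (by norm_num)]; norm_num
  unfold tau; linarith

lemma tau_hi : tau ≤ (171573 / 1000000 : ℝ) := by
  have h : 14142135/10000000 ≤ √(2:ℝ) := by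
    apply Real.le_sqrt_of_sq_le; norm_num
  unfold tau; linarith

/-- one-variable polynomials -/
noncomputable def gh (t : ℝ) : ℝ := (170 + 112 * t - 13 * t ^ 2) / 1000
noncomputable def gy (t : ℝ) : ℝ := (824 - 96 * t) / 1000

lemma gh_pos {t : ℝ} (h0 : 0 ≤ t) (h1 : t ≤ 1) : 0 < gh t := by unfold gh; nlinarith
lemma gy_pos {t : ℝ} (_h0 : 0 ≤ t) (h1 : t ≤ 1) : 0 < gy t := by unfold gy; linarith

lemma ineq1 (t : ℝ) : 0 ≤ 1 - gh t - gy t := by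
  unfold gh gy; nlinarith [sq_nonneg (13 * t - 8)]

lemma quad_mono {t a b : ℝ} (h0 : 0 ≤ t) (h1 : t ≤ 1) (ha : 0 ≤ a) (hab : a ≤ b) (hb : b < 1) :
    4 * a / (1 - a * t) ^ 2 ≤ 4 * b / (1 - b * t) ^ 2 := by
  have hbt : b * t ≤ b := by nlinarith
  have hat : a * t ≤ b * t := by nlinarith
  have h2 : 0 < 1 - b * t := by linarith
  have h3 : 1 - b * t ≤ 1 - a * t := by linarith
  have h4 : (1 - b * t) ^ 2 ≤ (1 - a * t) ^ 2 := by
    apply pow_le_pow_left₀ h2.le h3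
  apply div_le_div₀ (by linarith) (by linarith) (by positivity) h4

lemma ineq2 {t : ℝ} (h0 : 0 ≤ t) (h1 : t ≤ 1) :
    0 ≤ 1 - ch * (4 / (1 + t) ^ 2) * gh t - cy * (4 * tau / (1 - tau * t) ^ 2) * gy t := by
  have hm := quad_mono h0 h1 (by have := tau_lo; linarith : (0:ℝ) ≤ tau) tau_hi (by norm_num)
  have hcy : 0 ≤ cy * gy t := mul_nonneg (by unfold cy; positivity) (gy_pos h0 h1).le
  have h3 := mul_le_mul_of_nonneg_left hm hcy
  have key : 0 ≤ 1 - ch * (4 / (1 + t) ^ 2) * gh t -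
      cy * (4 * (171573 / 1000000) / (1 - (171573 / 1000000) * t) ^ 2) * gy t := by
    have hA : (0:ℝ) < (1 + t) := by linarith
    have hB : (0:ℝ) < (1 - (171573 / 1000000) * t) := by nlinarith
    have hs : 0 ≤ 1 - t := by linarith
    have e : 1 - ch * (4 / (1 + t) ^ 2) * gh t -
      cy * (4 * (171573 / 1000000) / (1 - (171573 / 1000000) * t) ^ 2) * gy t =
      ((3292146041/984681253125 : ℝ) * t ^ 0 * (1 - t) ^ 4 + (15577452411049/52516333500000 : ℝ) * t ^ 1 * (1 - t) ^ 3 + (246597914798875251529/315098001000000000000 : ℝ) * t ^ 2 * (1 - t) ^ 2 + (12301638793373639203/26258166750000000000 : ℝ) * t ^ 3 * (1 - t) ^ 1 + (734111572717807489/78774500250000000000 : ℝ) * t ^ 4 * (1 - t) ^ 0) / ((1 + t) ^ 2 * (1 - (171573 / 1000000) * t) ^ 2) := by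
      unfold ch cy gh gy
      obtain ⟨B, hBd⟩ : ∃ B : ℝ, B = 1 - (171573 / 1000000) * t := ⟨_, rfl⟩
      obtain ⟨A, hAd⟩ : ∃ A : ℝ, A = 1 + t := ⟨_, rfl⟩
      rw [← hBd, ← hAd]
      have hA0 : A ≠ 0 := by rw [hAd]; exact hA.ne'
      have hB0 : B ≠ 0 := by rw [hBd]; exact hB.ne'
      field_simp
      rw [hBd, hAd]
      ring
    rw [e]
    positivity
  linarith

lemma ineq3 {t : ℝ} (h0 : 0 ≤ t) (h1 : t ≤ 1) :
    0 ≤ 4 * ((64 - 208 * t) / 1000) -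
      8 * t * (((112 - 26 * t) / 1000) ^ 2 / gh t + (96 / 1000) ^ 2 / gy t) -
      2 * (4 / (1 + t) ^ 2) * gh t + 2 * (4 * tau / (1 - tau * t) ^ 2) * gy t := by
  have hm := quad_mono h0 h1 (by norm_num : (0:ℝ) ≤ 171572 / 1000000) tau_lo
    (by have := tau_hi; linarith)
  have h3 := mul_le_mul_of_nonneg_left hm (gy_pos h0 h1).le
  have key : 0 ≤ 4 * ((64 - 208 * t) / 1000) -
      8 * t * (((112 - 26 * t) / 1000) ^ 2 / gh t + (96 / 1000) ^ 2 / gy t) -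
      2 * (4 / (1 + t) ^ 2) * gh t +
      2 * (4 * (171572 / 1000000) / (1 - (171572 / 1000000) * t) ^ 2) * gy t := by
    have hA : (0:ℝ) < (1 + t) := by linarith
    have hB : (0:ℝ) < (1 - (171572 / 1000000) * t) := by nlinarith
    have hs : 0 ≤ 1 - t := by linarith
    have hgh := gh_pos h0 h1
    have hgy := gy_pos h0 h1
    have e : 4 * ((64 - 208 * t) / 1000) -
      8 * t * (((112 - 26 * t) / 1000) ^ 2 / gh t + (96 / 1000) ^ 2 / gy t) -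
      2 * (4 / (1 + t) ^ 2) * gh t +
      2 * (4 * (171572 / 1000000) / (1 - (171572 / 1000000) * t) ^ 2) * gy t =
      ((184693729/48828125000 : ℝ) * t ^ 0 * (1 - t) ^ 8 + (57725021159/488281250000 : ℝ) * t ^ 1 * (1 - t) ^ 7 + (33888270323981269/48828125000000000 : ℝ) * t ^ 2 * (1 - t) ^ 6 + (44180321827793103/24414062500000000 : ℝ) * t ^ 3 * (1 - t) ^ 5 + (309330140030782667/122070312500000000 : ℝ) * t ^ 4 * (1 - t) ^ 4 + (489683177750076751/244140625000000000 : ℝ) * t ^ 5 * (1 - t) ^ 3 + (170176364744614901/195312500000000000 : ℝ) * t ^ 6 * (1 - t) ^ 2 + (88250022703315667/488281250000000000 : ℝ) * t ^ 7 * (1 - t) ^ 1 + (10898522273450949/976562500000000000 : ℝ) * t ^ 8 * (1 - t) ^ 0) /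
        (gh t * gy t * ((1 + t) ^ 2 * (1 - (171572 / 1000000) * t) ^ 2)) := by
      rw [eq_div_iff (by positivity)]
      obtain ⟨B, hBd⟩ : ∃ B : ℝ, B = 1 - (171572 / 1000000) * t := ⟨_, rfl⟩
      obtain ⟨A, hAd⟩ : ∃ A : ℝ, A = 1 + t := ⟨_, rfl⟩
      rw [← hBd, ← hAd]
      have hA0 : A ≠ 0 := by rw [hAd]; exact hA.ne'
      have hB0 : B ≠ 0 := by rw [hBd]; exact hB.ne'
      field_simp
      rw [hBd, hAd]
      unfold gh gy
      ring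
    rw [e]
    positivity
  linarith

lemma ineq4 : 0 ≤ 2 + 8 / 100 - 2 * √2 * (728 / 1000) := by
  have h : √(2:ℝ) ≤ 1414214/1000000 := by
    rw [Real.sqrt_le_left (by norm_num)]; norm_num
  linarith


/-! ### Calculus -/


noncomputable def sqD (p : ℝ × ℝ × ℝ) : ℝ × ℝ × ℝ →L[ℝ] ℝ :=
  (2 * p.1) • ContinuousLinearMap.fst ℝ ℝ (ℝ × ℝ) +
    (2 * p.2.1) • ((ContinuousLinearMap.fst ℝ ℝ ℝ).comp (ContinuousLinearMap.snd ℝ ℝ (ℝ × ℝ)))

lemma hasFDerivAt_sq (p : ℝ × ℝ × ℝ) : HasFDerivAt TH600.YT.sq (sqD p) p := by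
  have h1 : HasFDerivAt (fun p : ℝ × ℝ × ℝ => p.1) (ContinuousLinearMap.fst ℝ ℝ (ℝ × ℝ)) p :=
    hasFDerivAt_fst
  have h2 : HasFDerivAt (fun p : ℝ × ℝ × ℝ => p.2.1)
      ((ContinuousLinearMap.fst ℝ ℝ ℝ).comp (ContinuousLinearMap.snd ℝ ℝ (ℝ × ℝ))) p :=
    hasFDerivAt_fst.comp p hasFDerivAt_snd
  have h := (h1.pow 2).add (h2.pow 2)
  refine h.congr_fderiv ?_
  unfold sqD
  ext <;> simp

lemma D_mul {w : ℝ × ℝ × ℝ → ℝ} {h : ℝ → ℝ} {h' : ℝ} {p : ℝ × ℝ × ℝ}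
    (hh : HasDerivAt h h' (TH600.YT.sq p)) (hw : DifferentiableAt ℝ w p) :
    D1 (fun p => h (TH600.YT.sq p) * w p) p = h (TH600.YT.sq p) * D1 w p + w p * (h' * (2 * p.1)) ∧
    D2 (fun p => h (TH600.YT.sq p) * w p) p = h (TH600.YT.sq p) * D2 w p + w p * (h' * (2 * p.2.1)) ∧
    D3 (fun p => h (TH600.YT.sq p) * w p) p = h (TH600.YT.sq p) * D3 w p := by
  have h1 : HasFDerivAt (fun p => h (TH600.YT.sq p)) (h' • sqD p) p :=
    hh.comp_hasFDerivAt p (hasFDerivAt_sq p)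
  have h2 := (h1.mul hw.hasFDerivAt).fderiv
  have e : (fun p => h (TH600.YT.sq p) * w p) = (fun p => h (TH600.YT.sq p)) * w := rfl
  refine ⟨?_, ?_, ?_⟩
  · unfold D1; rw [e, h2]; simp [sqD]
  · unfold D2; rw [e, h2]; simp [sqD]
  · unfold D3; rw [e, h2]; simp [sqD]

lemma Gh_eq (p : ℝ × ℝ × ℝ) : Gh p = gh (TH600.YT.sq p) := rfl
lemma Gy_eq (p : ℝ × ℝ × ℝ) : Gy p = gy (TH600.YT.sq p) := rfl

lemma hasDerivAt_gh (t : ℝ) : HasDerivAt gh ((112 - 26 * t) / 1000) t := by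
  unfold gh
  have h1 := (((hasDerivAt_id t).const_mul 112).const_add 170).sub
    (((hasDerivAt_id t).pow 2).const_mul 13)
  have h2 := h1.div_const 1000
  refine h2.congr_deriv ?_
  simp; ring

lemma hasDerivAt_gy (t : ℝ) : HasDerivAt gy (-96 / 1000) t := by
  unfold gy
  have h2 := (((hasDerivAt_id t).const_mul 96).const_sub 824).div_const 1000
  refine h2.congr_deriv ?_
  simp

lemma hasDerivAt_sqrt_gh {t : ℝ} (h0 : 0 ≤ t) (h1 : t ≤ 1) :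
    HasDerivAt (fun t => √(gh t)) ((112 - 26 * t) / 1000 / (2 * √(gh t))) t :=
  (hasDerivAt_gh t).sqrt (gh_pos h0 h1).ne'

lemma hasDerivAt_sqrt_gy {t : ℝ} (h0 : 0 ≤ t) (h1 : t ≤ 1) :
    HasDerivAt (fun t => √(gy t)) (-96 / 1000 / (2 * √(gy t))) t :=
  (hasDerivAt_gy t).sqrt (gy_pos h0 h1).ne'

lemma sq_nonneg' (p : ℝ × ℝ × ℝ) : 0 ≤ TH600.YT.sq p := by unfold Pool.Agent.TH600.YT.sq; positivity

/-- The integrand of the cross term. -/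
noncomputable def Fc (w : ℝ × ℝ × ℝ → ℝ) (p : ℝ × ℝ × ℝ) : ℝ :=
  2 * w p * (D1 w p * (2 * p.1 * ((16 - 26 * TH600.YT.sq p) / 1000)) +
    D2 w p * (2 * p.2.1 * ((16 - 26 * TH600.YT.sq p) / 1000))) + w p ^ 2 * ((64 - 208 * TH600.YT.sq p) / 1000)

noncomputable def F0 (w : ℝ × ℝ × ℝ → ℝ) (p : ℝ × ℝ × ℝ) : ℝ :=
  8 * ((D1 w p) ^ 2 + (D2 w p) ^ 2 + (D3 w p) ^ 2)

noncomputable def Fh (w : ℝ × ℝ × ℝ → ℝ) (p : ℝ × ℝ × ℝ) : ℝ :=
  8 * ((D1 w p) ^ 2 + (D2 w p) ^ 2) + Ah p * (8 * ch * (D3 w p) ^ 2 + 2 * (w p) ^ 2)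

noncomputable def Fy (w : ℝ × ℝ × ℝ → ℝ) (p : ℝ × ℝ × ℝ) : ℝ :=
  8 * ((D1 w p) ^ 2 + (D2 w p) ^ 2) + Ay p * (8 * cy * (D3 w p) ^ 2 - 2 * (w p) ^ 2)

lemma pointwise {w : ℝ × ℝ × ℝ → ℝ} {p : ℝ × ℝ × ℝ} (hp : TH600.YT.sq p ≤ 1)
    (hw : DifferentiableAt ℝ w p) :
    0 ≤ F0 w p - Fh (fun p => √(Gh p) * w p) p - Fy (fun p => √(Gy p) * w p) p + 4 * Fc w p := by
  have h0 := sq_nonneg' p
  obtain ⟨a1, a2, a3⟩ := D_mul (w := w) (hasDerivAt_sqrt_gh h0 hp) hw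
  obtain ⟨b1, b2, b3⟩ := D_mul (w := w) (hasDerivAt_sqrt_gy h0 hp) hw
  have i1 := ineq1 (TH600.YT.sq p)
  have i2 := ineq2 h0 hp
  have i3 := ineq3 h0 hp
  have hgh := gh_pos h0 hp
  have hgy := gy_pos h0 hp
  unfold F0 Fh Fy Fc Ah Ay
  simp only [Gh_eq, Gy_eq]
  rw [a1, a2, a3, b1, b2, b3]
  have hs1 : √(gh (TH600.YT.sq p)) ^ 2 = gh (TH600.YT.sq p) := Real.sq_sqrt hgh.le
  have hs2 : √(gy (TH600.YT.sq p)) ^ 2 = gy (TH600.YT.sq p) := Real.sq_sqrt hgy.le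
  have hp1 : 0 < √(gh (TH600.YT.sq p)) := Real.sqrt_pos.2 hgh
  have hp2 : 0 < √(gy (TH600.YT.sq p)) := Real.sqrt_pos.2 hgy
  have hxy : p.1 ^ 2 + p.2.1 ^ 2 = TH600.YT.sq p := rfl
  generalize √(gh (TH600.YT.sq p)) = s1 at *
  generalize √(gy (TH600.YT.sq p)) = s2 at *
  generalize gh (TH600.YT.sq p) = g1 at *
  generalize gy (TH600.YT.sq p) = g2 at *
  generalize D1 w p = a at *
  generalize D2 w p = b at *
  generalize D3 w p = c at *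
  generalize w p = u at *
  generalize p.1 = x at *
  generalize p.2.1 = y at *
  generalize TH600.YT.sq p = t at *
  generalize (4 / (1 + t) ^ 2) = A at *
  generalize 4 * tau / (1 - tau * t) ^ 2 = B at *
  subst hs1 hs2 hxy
  have key : 8 * (a ^ 2 + b ^ 2 + c ^ 2) -
      (8 * ((s1 * a + u * ((112 - 26 * (x ^ 2 + y ^ 2)) / 1000 / (2 * s1) * (2 * x))) ^ 2 +
        (s1 * b + u * ((112 - 26 * (x ^ 2 + y ^ 2)) / 1000 / (2 * s1) * (2 * y))) ^ 2) +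
        A * (8 * ch * (s1 * c) ^ 2 + 2 * (s1 * u) ^ 2)) -
      (8 * ((s2 * a + u * (-96 / 1000 / (2 * s2) * (2 * x))) ^ 2 +
        (s2 * b + u * (-96 / 1000 / (2 * s2) * (2 * y))) ^ 2) +
        B * (8 * cy * (s2 * c) ^ 2 - 2 * (s2 * u) ^ 2)) +
      4 * (2 * u * (a * (2 * x * ((16 - 26 * (x ^ 2 + y ^ 2)) / 1000)) +
        b * (2 * y * ((16 - 26 * (x ^ 2 + y ^ 2)) / 1000))) +
        u ^ 2 * ((64 - 208 * (x ^ 2 + y ^ 2)) / 1000)) =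
      8 * (1 - s1 ^ 2 - s2 ^ 2) * (a ^ 2 + b ^ 2) +
      8 * (1 - ch * A * s1 ^ 2 - cy * B * s2 ^ 2) * c ^ 2 +
      u ^ 2 * (4 * ((64 - 208 * (x ^ 2 + y ^ 2)) / 1000) -
      8 * (x ^ 2 + y ^ 2) * (((112 - 26 * (x ^ 2 + y ^ 2)) / 1000) ^ 2 / s1 ^ 2 +
        (96 / 1000) ^ 2 / s2 ^ 2) -
      2 * A * s1 ^ 2 + 2 * B * s2 ^ 2) := by
    field_simp
    ring
  rw [key]
  positivity


/-! ### Measure theory -/

/-- the closed cylinder -/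
def KC (L : ℝ) : Set (ℝ × ℝ × ℝ) := {p | p.1 ^ 2 + p.2.1 ^ 2 ≤ 1 ∧ 0 ≤ p.2.2 ∧ p.2.2 ≤ L}

lemma KC_compact (L : ℝ) : IsCompact (KC L) := by
  apply (isCompact_Icc (a := ((-1 : ℝ), (-1 : ℝ), (0 : ℝ)))
    (b := ((1 : ℝ), (1 : ℝ), L))).of_isClosed_subset
  · have c1 : Continuous (fun p : ℝ × ℝ × ℝ => p.1 ^ 2 + p.2.1 ^ 2) := by fun_prop
    have c2 : Continuous (fun p : ℝ × ℝ × ℝ => p.2.2) := by fun_prop
    exact (isClosed_le c1 continuous_const).inter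
      ((isClosed_le continuous_const c2).inter (isClosed_le c2 continuous_const))
  · rintro ⟨x, y, z⟩ ⟨h1, h2, h3⟩
    simp only at h1 h2 h3
    simp only [mem_Icc, Prod.mk_le_mk]
    refine ⟨⟨?_, ?_, h2⟩, ?_, ?_, h3⟩ <;> nlinarith [sq_nonneg x, sq_nonneg y]

lemma Cyl_sub (L : ℝ) : Cyl L ⊆ KC L := by
  rintro p ⟨h1, h2, h3⟩
  exact ⟨h1.le, h2.le, h3.le⟩

lemma Cyl_open (L : ℝ) : IsOpen (Cyl L) := by
  have c1 : Continuous (fun p : ℝ × ℝ × ℝ => p.1 ^ 2 + p.2.1 ^ 2) := by fun_prop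
  have c2 : Continuous (fun p : ℝ × ℝ × ℝ => p.2.2) := by fun_prop
  exact (isOpen_lt c1 continuous_const).inter
    ((isOpen_lt continuous_const c2).inter (isOpen_lt c2 continuous_const))

lemma intOn {L : ℝ} {f : ℝ × ℝ × ℝ → ℝ} (hf : ∀ p, p.1 ^ 2 + p.2.1 ^ 2 ≤ 1 → ContinuousAt f p) :
    IntegrableOn f (Cyl L) := by
  have h : ContinuousOn f (KC L) := fun p hp => (hf p hp.1).continuousWithinAt
  exact (h.integrableOn_compact (KC_compact L)).mono_set (Cyl_sub L)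

lemma fubini {L : ℝ} (hL : 0 < L) {f : ℝ × ℝ × ℝ → ℝ} (hf : IntegrableOn f (Cyl L)) :
    ∫ p in Cyl L, f p = ∫ z in (0:ℝ)..L, ∫ q in {q : ℝ × ℝ | q.1 ^ 2 + q.2 ^ 2 < 1},
      f (q.1, q.2, z) := by
  have hmp : MeasurePreserving (MeasurableEquiv.prodAssoc : (ℝ × ℝ) × ℝ ≃ᵐ ℝ × ℝ × ℝ)
      volume volume := ⟨MeasurableEquiv.prodAssoc.measurable, Measure.prodAssoc_prod⟩
  have hpre : (MeasurableEquiv.prodAssoc : (ℝ × ℝ) × ℝ ≃ᵐ ℝ × ℝ × ℝ) ⁻¹' (Cyl L) =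
      {q : ℝ × ℝ | q.1 ^ 2 + q.2 ^ 2 < 1} ×ˢ Ioo 0 L := by
    ext ⟨⟨x, y⟩, z⟩
    simp [Cyl, MeasurableEquiv.prodAssoc]
  rw [← hmp.setIntegral_preimage_emb MeasurableEquiv.prodAssoc.measurableEmbedding, hpre]
  have hf' : IntegrableOn (fun q : (ℝ × ℝ) × ℝ => f (MeasurableEquiv.prodAssoc q))
      ({q : ℝ × ℝ | q.1 ^ 2 + q.2 ^ 2 < 1} ×ˢ Ioo 0 L) := by
    rw [← hpre]
    exact (hmp.integrableOn_comp_preimage MeasurableEquiv.prodAssoc.measurableEmbedding).2 hf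
  rw [Measure.volume_eq_prod, ← Measure.prod_restrict, integral_prod_symm,
    intervalIntegral.integral_of_le hL.le, integral_Ioc_eq_integral_Ioo]
  · rfl
  · rw [IntegrableOn, Measure.volume_eq_prod, ← Measure.prod_restrict] at hf'
    exact hf'


/-! ### The cross term -/

lemma adm_cd {L : ℝ} {w : ℝ × ℝ × ℝ → ℝ} (hw : Adm L w) {p : ℝ × ℝ × ℝ}
    (hp : p.1 ^ 2 + p.2.1 ^ 2 ≤ 1) : ContDiffAt ℝ ∞ w p := hw.smooth p.1 p.2.1 p.2.2 hp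

lemma cont_fderiv {w : ℝ × ℝ × ℝ → ℝ} {p v : ℝ × ℝ × ℝ} (h : ContDiffAt ℝ 1 w p) :
    ContinuousAt (fun q => fderiv ℝ w q v) p :=
  ((h.fderiv_right (m := 0) (by norm_num)).continuousAt).clm_apply continuousAt_const

lemma cont_D1 {w : ℝ × ℝ × ℝ → ℝ} {p : ℝ × ℝ × ℝ} (h : ContDiffAt ℝ ∞ w p) :
    ContinuousAt (D1 w) p := cont_fderiv (h.of_le (by exact_mod_cast le_top))

lemma cont_D2 {w : ℝ × ℝ × ℝ → ℝ} {p : ℝ × ℝ × ℝ} (h : ContDiffAt ℝ ∞ w p) :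
    ContinuousAt (D2 w) p := cont_fderiv (h.of_le (by exact_mod_cast le_top))

lemma cont_D3 {w : ℝ × ℝ × ℝ → ℝ} {p : ℝ × ℝ × ℝ} (h : ContDiffAt ℝ ∞ w p) :
    ContinuousAt (D3 w) p := cont_fderiv (h.of_le (by exact_mod_cast le_top))

lemma cont_sq (p : ℝ × ℝ × ℝ) : ContinuousAt TH600.YT.sq p := by
  have : Continuous TH600.YT.sq := by unfold Pool.Agent.TH600.YT.sq; fun_prop
  exact this.continuousAt

lemma cont_Ah (p : ℝ × ℝ × ℝ) : ContinuousAt Ah p := by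
  unfold Ah
  apply ContinuousAt.div continuousAt_const
  · exact (continuousAt_const.add (cont_sq p)).pow 2
  · have := sq_nonneg' p; positivity

lemma cont_Ay {p : ℝ × ℝ × ℝ} (hp : p.1 ^ 2 + p.2.1 ^ 2 ≤ 1) : ContinuousAt Ay p := by
  unfold Ay
  apply ContinuousAt.div continuousAt_const
  · exact (continuousAt_const.sub (continuousAt_const.mul (cont_sq p))).pow 2
  · have h1 := tau_hi
    have h2 := tau_lo
    have h3 : TH600.YT.sq p ≤ 1 := hp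
    have h4 : 0 < 1 - tau * TH600.YT.sq p := by nlinarith
    positivity

lemma intF0 {L : ℝ} {w : ℝ × ℝ × ℝ → ℝ}
    (hw : ∀ p : ℝ × ℝ × ℝ, p.1 ^ 2 + p.2.1 ^ 2 ≤ 1 → ContDiffAt ℝ ∞ w p) :
    IntegrableOn (F0 w) (Cyl L) := by
  apply intOn
  intro p hp
  have h := hw p hp
  exact continuousAt_const.mul ((((cont_D1 h).pow 2).add ((cont_D2 h).pow 2)).add
    ((cont_D3 h).pow 2))

lemma intFh {L : ℝ} {w : ℝ × ℝ × ℝ → ℝ}
    (hw : ∀ p : ℝ × ℝ × ℝ, p.1 ^ 2 + p.2.1 ^ 2 ≤ 1 → ContDiffAt ℝ ∞ w p) :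
    IntegrableOn (Fh w) (Cyl L) := by
  apply intOn
  intro p hp
  have h := hw p hp
  exact (continuousAt_const.mul (((cont_D1 h).pow 2).add ((cont_D2 h).pow 2))).add
    ((cont_Ah p).mul ((continuousAt_const.mul ((cont_D3 h).pow 2)).add
      (continuousAt_const.mul (h.continuousAt.pow 2))))

lemma intFy {L : ℝ} {w : ℝ × ℝ × ℝ → ℝ}
    (hw : ∀ p : ℝ × ℝ × ℝ, p.1 ^ 2 + p.2.1 ^ 2 ≤ 1 → ContDiffAt ℝ ∞ w p) :
    IntegrableOn (Fy w) (Cyl L) := by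
  apply intOn
  intro p hp
  have h := hw p hp
  exact (continuousAt_const.mul (((cont_D1 h).pow 2).add ((cont_D2 h).pow 2))).add
    ((cont_Ay hp).mul ((continuousAt_const.mul ((cont_D3 h).pow 2)).sub
      (continuousAt_const.mul (h.continuousAt.pow 2))))

lemma intFc {L : ℝ} {w : ℝ × ℝ × ℝ → ℝ}
    (hw : ∀ p : ℝ × ℝ × ℝ, p.1 ^ 2 + p.2.1 ^ 2 ≤ 1 → ContDiffAt ℝ ∞ w p) :
    IntegrableOn (Fc w) (Cyl L) := by
  apply intOn
  intro p hp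
  have h := hw p hp
  have c1 : ContinuousAt (fun p : ℝ × ℝ × ℝ => 2 * p.1 * ((16 - 26 * TH600.YT.sq p) / 1000)) p := by
    have : Continuous (fun p : ℝ × ℝ × ℝ => 2 * p.1 * ((16 - 26 * TH600.YT.sq p) / 1000)) := by
      unfold Pool.Agent.TH600.YT.sq; fun_prop
    exact this.continuousAt
  have c2 : ContinuousAt (fun p : ℝ × ℝ × ℝ => 2 * p.2.1 * ((16 - 26 * TH600.YT.sq p) / 1000)) p := by
    have : Continuous (fun p : ℝ × ℝ × ℝ => 2 * p.2.1 * ((16 - 26 * TH600.YT.sq p) / 1000)) := by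
      unfold Pool.Agent.TH600.YT.sq; fun_prop
    exact this.continuousAt
  have c3 : ContinuousAt (fun p : ℝ × ℝ × ℝ => (64 - 208 * TH600.YT.sq p) / 1000) p := by
    have : Continuous (fun p : ℝ × ℝ × ℝ => (64 - 208 * TH600.YT.sq p) / 1000) := by
      unfold Pool.Agent.TH600.YT.sq; fun_prop
    exact this.continuousAt
  exact ((continuousAt_const.mul h.continuousAt).mul
    (((cont_D1 h).mul c1).add ((cont_D2 h).mul c2))).add ((h.continuousAt.pow 2).mul c3)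

/-- inclusion of a slice -/
def inc (z : ℝ) (q : ℝ × ℝ) : ℝ × ℝ × ℝ := (q.1, q.2, z)

def incD : ℝ × ℝ →L[ℝ] ℝ × ℝ × ℝ :=
  (ContinuousLinearMap.fst ℝ ℝ ℝ).prod ((ContinuousLinearMap.snd ℝ ℝ ℝ).prod 0)

lemma hasFDerivAt_inc (z : ℝ) (q : ℝ × ℝ) : HasFDerivAt (inc z) incD q :=
  hasFDerivAt_fst.prodMk (hasFDerivAt_snd.prodMk (hasFDerivAt_const z q))

lemma contDiff_inc (z : ℝ) : ContDiff ℝ 1 (inc z) := by
  unfold inc; fun_prop

noncomputable def qD (q : ℝ × ℝ) : ℝ × ℝ →L[ℝ] ℝ :=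
  (2 * q.1) • ContinuousLinearMap.fst ℝ ℝ ℝ + (2 * q.2) • ContinuousLinearMap.snd ℝ ℝ ℝ

lemma hasFDerivAt_q (q : ℝ × ℝ) : HasFDerivAt (fun q : ℝ × ℝ => q.1 ^ 2 + q.2 ^ 2) (qD q) q := by
  have h1 : HasFDerivAt (fun p : ℝ × ℝ => p.1) (ContinuousLinearMap.fst ℝ ℝ ℝ) q :=
    hasFDerivAt_fst
  have h2 : HasFDerivAt (fun p : ℝ × ℝ => p.2) (ContinuousLinearMap.snd ℝ ℝ ℝ) q :=
    hasFDerivAt_snd
  refine ((h1.pow 2).add (h2.pow 2)).congr_fderiv ?_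
  unfold qD
  ext <;> simp

lemma slice (div_disc : ∀ (X Y : ℝ × ℝ → ℝ),
      (∀ p : ℝ × ℝ, p.1 ^ 2 + p.2 ^ 2 ≤ 1 → ContDiffAt ℝ 1 X p) →
      (∀ p : ℝ × ℝ, p.1 ^ 2 + p.2 ^ 2 ≤ 1 → ContDiffAt ℝ 1 Y p) →
      ∫ p in {p : ℝ × ℝ | p.1 ^ 2 + p.2 ^ 2 < 1}, (fderiv ℝ X p (1, 0) + fderiv ℝ Y p (0, 1)) =
        ∫ φ in (0 : ℝ)..(2 * π), (X (cos φ, sin φ) * cos φ + Y (cos φ, sin φ) * sin φ))
    {L : ℝ} {w : ℝ × ℝ × ℝ → ℝ} (hw : Adm L w) (z : ℝ) :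
    ∫ q in {q : ℝ × ℝ | q.1 ^ 2 + q.2 ^ 2 < 1}, Fc w (q.1, q.2, z) =
      -(20 / 1000) * ∫ φ in (0 : ℝ)..(2 * π), w (cos φ, sin φ, z) ^ 2 := by
  set k : ℝ × ℝ → ℝ := fun q => (16 - 26 * (q.1 ^ 2 + q.2 ^ 2)) * (2 / 1000) with hk
  set X : ℝ × ℝ → ℝ := fun q => w (inc z q) ^ 2 * (q.1 * k q) with hX
  set Y : ℝ × ℝ → ℝ := fun q => w (inc z q) ^ 2 * (q.2 * k q) with hY
  have hWc : ∀ q : ℝ × ℝ, q.1 ^ 2 + q.2 ^ 2 ≤ 1 → ContDiffAt ℝ 1 (fun q => w (inc z q)) q := by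
    intro q hq
    have h : ContDiffAt ℝ 1 w (inc z q) :=
      (adm_cd hw (p := inc z q) hq).of_le (by exact_mod_cast le_top)
    exact h.comp q (contDiff_inc z).contDiffAt
  have hkc : ContDiff ℝ 1 k := by rw [hk]; fun_prop
  have hXc : ∀ q : ℝ × ℝ, q.1 ^ 2 + q.2 ^ 2 ≤ 1 → ContDiffAt ℝ 1 X q := fun q hq =>
    ((hWc q hq).pow 2).mul ((contDiff_fst.mul hkc).contDiffAt)
  have hYc : ∀ q : ℝ × ℝ, q.1 ^ 2 + q.2 ^ 2 ≤ 1 → ContDiffAt ℝ 1 Y q := fun q hq =>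
    ((hWc q hq).pow 2).mul ((contDiff_snd.mul hkc).contDiffAt)
  have hd := div_disc X Y hXc hYc
  have hkd : ∀ q : ℝ × ℝ, HasFDerivAt k ((-(52 / 1000) : ℝ) • qD q) q := by
    intro q
    refine ((((hasFDerivAt_q q).const_mul 26).const_sub 16).mul_const (2 / 1000)).congr_fderiv ?_
    ext <;> simp <;> ring
  have e1 : ∀ q ∈ {q : ℝ × ℝ | q.1 ^ 2 + q.2 ^ 2 < 1},
      fderiv ℝ X q (1, 0) + fderiv ℝ Y q (0, 1) = Fc w (q.1, q.2, z) := by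
    intro q hq
    have hq' : q.1 ^ 2 + q.2 ^ 2 ≤ 1 := le_of_lt hq
    have hW : HasFDerivAt (fun q => w (inc z q)) ((fderiv ℝ w (inc z q)).comp incD) q := by
      have h : DifferentiableAt ℝ w (inc z q) :=
        (adm_cd hw (p := inc z q) hq').differentiableAt (by simp)
      exact h.hasFDerivAt.comp q (hasFDerivAt_inc z q)
    have h1 : HasFDerivAt (fun p : ℝ × ℝ => p.1) (ContinuousLinearMap.fst ℝ ℝ ℝ) q :=
      hasFDerivAt_fst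
    have h2 : HasFDerivAt (fun p : ℝ × ℝ => p.2) (ContinuousLinearMap.snd ℝ ℝ ℝ) q :=
      hasFDerivAt_snd
    have hXd := ((hW.pow 2).mul (h1.mul (hkd q))).fderiv
    have hYd := ((hW.pow 2).mul (h2.mul (hkd q))).fderiv
    have eX : X = (fun q => w (inc z q) ^ 2) * ((fun p : ℝ × ℝ => p.1) * k) := rfl
    have eY : Y = (fun q => w (inc z q) ^ 2) * ((fun p : ℝ × ℝ => p.2) * k) := rfl
    rw [eX, eY]
    rw [hXd, hYd]
    have i1 : incD (1, 0) = (1, 0, 0) := by simp [incD]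
    have i2 : incD (0, 1) = (0, 1, 0) := by simp [incD]
    simp [qD, i1, i2, hk, Fc, D1, D2, inc, Pool.Agent.TH600.YT.sq]
    ring
  rw [← setIntegral_congr_fun (measurableSet_lt (by fun_prop) (by fun_prop)) e1, hd,
    ← intervalIntegral.integral_const_mul]
  apply intervalIntegral.integral_congr
  intro φ _
  simp only [hX, hY, hk, inc]
  have h := Real.sin_sq_add_cos_sq φ
  have h' : cos φ ^ 2 + sin φ ^ 2 = 1 := by linarith
  rw [h']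
  have : w (cos φ, sin φ, z) ^ 2 * (cos φ * ((16 - 26 * 1) * (2 / 1000))) * cos φ +
      w (cos φ, sin φ, z) ^ 2 * (sin φ * ((16 - 26 * 1) * (2 / 1000))) * sin φ =
      -(20 / 1000) * w (cos φ, sin φ, z) ^ 2 * (cos φ ^ 2 + sin φ ^ 2) := by ring
  rw [this, h']; ring


/-! ### The result -/

lemma contDiff_sq : ContDiff ℝ ∞ TH600.YT.sq := by
  unfold Pool.Agent.TH600.YT.sq; fun_prop

lemma cd_h {w : ℝ × ℝ × ℝ → ℝ} {p : ℝ × ℝ × ℝ} (hp : p.1 ^ 2 + p.2.1 ^ 2 ≤ 1)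
    (hw : ContDiffAt ℝ ∞ w p) : ContDiffAt ℝ ∞ (fun p => √(Gh p) * w p) p := by
  apply ContDiffAt.mul _ hw
  apply ContDiffAt.sqrt
  · have : ContDiff ℝ ∞ Gh := by
      unfold Gh Pool.Agent.TH600.YT.sq; fun_prop
    exact this.contDiffAt
  · exact (gh_pos (sq_nonneg' p) hp).ne'

lemma cd_y {w : ℝ × ℝ × ℝ → ℝ} {p : ℝ × ℝ × ℝ} (hp : p.1 ^ 2 + p.2.1 ^ 2 ≤ 1)
    (hw : ContDiffAt ℝ ∞ w p) : ContDiffAt ℝ ∞ (fun p => √(Gy p) * w p) p := by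
  apply ContDiffAt.mul _ hw
  apply ContDiffAt.sqrt
  · have : ContDiff ℝ ∞ Gy := by
      unfold Gy Pool.Agent.TH600.YT.sq; fun_prop
    exact this.contDiffAt
  · exact (gy_pos (sq_nonneg' p) hp).ne'

lemma bdry_y (L : ℝ) (w : ℝ × ℝ × ℝ → ℝ) :
    bdry L (fun p => √(Gy p) * w p) = (728 / 1000) * bdry L w := by
  unfold bdry
  rw [← intervalIntegral.integral_const_mul]
  apply intervalIntegral.integral_congr
  intro z _
  simp only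
  rw [← intervalIntegral.integral_const_mul]
  apply intervalIntegral.integral_congr
  intro φ _
  simp only
  have e : Gy (cos φ, sin φ, z) = 728 / 1000 := by
    have h := Real.sin_sq_add_cos_sq φ
    have h' : cos φ ^ 2 + sin φ ^ 2 = 1 := by linarith
    simp only [Gy, Pool.Agent.TH600.YT.sq]
    rw [h']; norm_num
  rw [e, mul_pow, Real.sq_sqrt (by norm_num)]

lemma bdry_nonneg {L : ℝ} (hL : 0 < L) (w : ℝ × ℝ × ℝ → ℝ) : 0 ≤ bdry L w := by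
  unfold bdry
  apply intervalIntegral.integral_nonneg hL.le
  intro z _
  apply intervalIntegral.integral_nonneg (by positivity)
  intro φ _
  positivity

theorem combo
    (div_disc : ∀ (X Y : ℝ × ℝ → ℝ),
      (∀ p : ℝ × ℝ, p.1 ^ 2 + p.2 ^ 2 ≤ 1 → ContDiffAt ℝ 1 X p) →
      (∀ p : ℝ × ℝ, p.1 ^ 2 + p.2 ^ 2 ≤ 1 → ContDiffAt ℝ 1 Y p) →
      ∫ p in {p : ℝ × ℝ | p.1 ^ 2 + p.2 ^ 2 < 1}, (fderiv ℝ X p (1, 0) + fderiv ℝ Y p (0, 1)) =
        ∫ φ in (0 : ℝ)..(2 * π), (X (cos φ, sin φ) * cos φ + Y (cos φ, sin φ) * sin φ))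
    (L : ℝ) (hL : 0 < L) (w : ℝ × ℝ × ℝ → ℝ) (hw : Adm L w) :
    Eh ch L (fun p => √(Gh p) * w p) + Ey cy L (fun p => √(Gy p) * w p) ≤ E0 L w := by
  have hwc : ∀ p : ℝ × ℝ × ℝ, p.1 ^ 2 + p.2.1 ^ 2 ≤ 1 → ContDiffAt ℝ ∞ w p :=
    fun p hp => adm_cd hw hp
  have i0 := intF0 (L := L) hwc
  have ih := intFh (L := L) (w := fun p => √(Gh p) * w p) (fun p hp => cd_h hp (hwc p hp))
  have iy := intFy (L := L) (w := fun p => √(Gy p) * w p) (fun p hp => cd_y hp (hwc p hp))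
  have ic := intFc (L := L) hwc
  have hcross : ∫ p in Cyl L, Fc w p = -(20 / 1000) * bdry L w := by
    rw [fubini hL ic]
    unfold bdry
    rw [← intervalIntegral.integral_const_mul]
    apply intervalIntegral.integral_congr
    intro z _
    exact slice div_disc hw z
  have hpos : 0 ≤ ∫ p in Cyl L, (F0 w p - Fh (fun p => √(Gh p) * w p) p -
      Fy (fun p => √(Gy p) * w p) p + 4 * Fc w p) := by
    apply setIntegral_nonneg (Cyl_open L).measurableSet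
    intro p hp
    exact pointwise (le_of_lt hp.1) ((hwc p (le_of_lt hp.1)).differentiableAt (by simp))
  have i1 : Integrable (fun p => F0 w p - Fh (fun p => √(Gh p) * w p) p)
      (volume.restrict (Cyl L)) := i0.sub ih
  have i2 : Integrable (fun p => F0 w p - Fh (fun p => √(Gh p) * w p) p -
      Fy (fun p => √(Gy p) * w p) p) (volume.restrict (Cyl L)) := i1.sub iy
  rw [integral_add i2 (ic.const_mul 4), integral_sub i1 iy,
    integral_sub i0 ih, integral_const_mul, hcross] at hpos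
  have e0 : E0 L w = (∫ p in Cyl L, F0 w p) + 2 * bdry L w := rfl
  have eh : Eh ch L (fun p => √(Gh p) * w p) =
      ∫ p in Cyl L, Fh (fun p => √(Gh p) * w p) p := rfl
  have ey : Ey cy L (fun p => √(Gy p) * w p) =
      (∫ p in Cyl L, Fy (fun p => √(Gy p) * w p) p) +
        2 * √2 * bdry L (fun p => √(Gy p) * w p) := rfl
  rw [e0, eh, ey, bdry_y]
  have hb := mul_nonneg ineq4 (bdry_nonneg hL w)
  nlinarith

end Pool.Agent.TH298.YT747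

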