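import Pool.Agent.TH806.N4.Defs

set_option autoImplicit false

/-!
N4 project: the windows near exponent four from the twisted moments.
-/

namespace Pool.Agent.TH298.N4_WIN

open Finset Filter Topology MeasureTheory Complex MonoidAlgebra
open Pool.Agent.W184.NZ Pool.Agent.TH806 Pool.Agent.TH806.N4
open Pool.Agent.H306R2.SM (om cl Yf)
open Pool.Agent.H262R4.TM (Rng Ck)
open Pool.Agent.H448R2.GC (cu cs ker XX)

noncomputable section

lemma Xz_pow_le5 {β t : ℝ} (hβ : 0 ≤ β) (hβ5 : β ≤ 5) (ht : 0 ≤ t) : Xz t ^ β ≤ 24 ^ 5 * (1 + t) ^ 10 := by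
  have h1 : (1:ℝ) ≤ 24 * (1 + t) ^ 2 := by nlinarith
  calc Xz t ^ β ≤ (24 * (1 + t) ^ 2) ^ β := Real.rpow_le_rpow (Xz_nonneg t) (Xz_le ht) hβ
    _ ≤ (24 * (1 + t) ^ 2) ^ (5:ℝ) := Real.rpow_le_rpow_of_exponent_le h1 hβ5
    _ = (24 * (1 + t) ^ 2) ^ 5 := by rw [← Real.rpow_natCast]; norm_num
    _ = _ := by ring

lemma iX5 {T : ℝ} {k : ℕ} (hδ : 0 < (k:ℝ) / T) {β : ℝ} (h0 : 0 ≤ β) (h5 : β ≤ 5) :
    IntegrableOn (fun t => om k (k / T) t * Xz t ^ β) (Set.Ioi 0) := by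
  refine om_poly_int hδ (Xz_pow_cont h0) (C := 24 ^ 5) 10 fun t ht => ?_
  rw [abs_of_nonneg (Real.rpow_nonneg (Xz_nonneg t) _)]
  exact Xz_pow_le5 h0 h5 ht

lemma rpow_split {X : ℝ} (hX : 0 ≤ X) {b : ℝ} (hb : 0 < b) : X ^ (2 + b) = X ^ 2 * X ^ b := by
  rw [Real.rpow_add' hX (by linarith)]
  congr 1
  rw [← Real.rpow_natCast]; norm_num

/-- upper bound below four -/
theorem win4_minus {c y T : ℝ} {J k Rs : ℕ} (hBL : BL c y J) (hRs : 1 ≤ Rs) (hδ : 0 < (k:ℝ) / T)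
    {κ a U M C5 : ℝ} (hκ : 0 < κ)
    (hκ1 : κ ≤ 1 / 200) (hM : 0 ≤ M) (hU : 0 ≤ U) (ha0 : 0 ≤ a) (ha : a ≤ 1 / 16)
    (haC5 : a * C5 ≤ κ)
    (h12 : 12 * Real.exp (-(Rs:ℝ)) ≤ κ)
    (i3 : IntegrableOn (fun t => om k (k / T) t * (Xz t ^ 4 * gp J (-a) (RR Rs) (II y) t)) (Set.Ioi 0))
    (q3 : (∫ t in Set.Ioi (0:ℝ), om k (k / T) t * (Xz t ^ 4 * gp J (-a) (RR Rs) (II y) t)) ≤ U * (1 + 7 * κ))
    (q5 : ∫ t in Set.Ioi (0:ℝ), wz k T t * gp J (1 - a) (RR Rs) (II y) t ≤ C5 * U)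
    (hc1 : U ≤ Real.exp κ * M) :
    W (4 - 2 * a) k T ≤ (1 + 24 * κ) * M := by
  have hom : ∀ t ∈ Set.Ioi (0:ℝ), 0 ≤ om k (k / T) t := fun t ht => om_nn k hδ (le_of_lt ht)
  have hx0 : 0 < Real.exp (-(Rs:ℝ)) := Real.exp_pos _
  have u1 := int_two (C := Real.exp (8 * Real.exp (-(Rs:ℝ)))) (p := 1 - a) (q := a) measurableSet_Ioi
    (iX5 hδ (β := 4 - 2 * a) (by linarith) (by linarith)) i3
    (iwgp hBL hRs hδ (a := 1 - a) (by rw [abs_le]; constructor <;> linarith)) (fun t ht => by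
      have h1 := up_minus (J := J) (I := II y) hRs ha0 ha t (Xz_nonneg t)
      have h2 := mul_le_mul_of_nonneg_left h1 (mul_nonneg (hom t ht) (sq_nonneg (Xz t)))
      rw [ewz]
      have e0 : Xz t ^ (4 - 2 * a) = Xz t ^ 2 * Xz t ^ (2 - 2 * a) := by
        rw [show (4:ℝ) - 2 * a = 2 + (2 - 2 * a) by ring]
        exact rpow_split (Xz_nonneg t) (by linarith)
      rw [e0]
      refine le_trans (le_of_eq (by ring)) (h2.trans (le_of_eq (by ring))))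
  exact num_up hκ hκ1 hM hU (Real.exp_pos _).le (Real.exp_le_exp.mpr (by linarith)) ha0 (by linarith) haC5 q3 q5
    u1 hc1

/-- lower bound above four -/
theorem win4_plus {c y T : ℝ} {J k Rs : ℕ} (hBL : BL c y J) (hRs : 1 ≤ Rs) (hδ : 0 < (k:ℝ) / T)
    {κ a U M C5 : ℝ} (hκ : 0 < κ)
    (hκ1 : κ ≤ 1 / 200) (hM : 0 ≤ M) (hU : 0 ≤ U) (ha0 : 0 ≤ a) (ha : a ≤ 1 / 16)
    (h5 : 0 ≤ C5) (haC5 : a * C5 ≤ κ)
    (h12 : 12 * Real.exp (-(Rs:ℝ)) ≤ κ)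
    (i1 : IntegrableOn (fun t => om k (k / T) t * (Xz t ^ 4 * gq l0 J a (RR Rs) (II y) t)) (Set.Ioi 0))
    (i2 : IntegrableOn (fun t => om k (k / T) t * (Xz t ^ 4 * gq (l1e Rs) J a (RR Rs) (II y) t)) (Set.Ioi 0))
    (q1 : |(∫ t in Set.Ioi (0:ℝ), om k (k / T) t * (Xz t ^ 4 * gq l0 J a (RR Rs) (II y) t)) - U| ≤ 7 * κ * U)
    (q2 : |(∫ t in Set.Ioi (0:ℝ), om k (k / T) t * (Xz t ^ 4 * gq (l1e Rs) J a (RR Rs) (II y) t)) - U| ≤ 7 * κ * U)
    (q5 : ∫ t in Set.Ioi (0:ℝ), wz k T t * gp J (1 + a) (RR Rs) (II y) t ≤ C5 * U)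
    (hc2 : Real.exp (-κ) * M ≤ U) :
    (1 - 24 * κ) * M ≤ W (4 + 2 * a) k T := by
  have hom : ∀ t ∈ Set.Ioi (0:ℝ), 0 ≤ om k (k / T) t := fun t ht => om_nn k hδ (le_of_lt ht)
  have i12 : IntegrableOn (fun t => 2 * (om k (k / T) t * (Xz t ^ 4 * gq l0 J a (RR Rs) (II y) t)) -
      om k (k / T) t * (Xz t ^ 4 * gq (l1e Rs) J a (RR Rs) (II y) t)) (Set.Ioi 0) := (i1.const_mul 2).sub i2
  have l1 := int_two (C := Real.exp (12 * Real.exp (-(Rs:ℝ)))) (p := 1 / (1 + a)) (q := a / (1 + a))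
    measurableSet_Ioi i12
    (iX5 hδ (β := 4 + 2 * a) (by linarith) (by linarith))
    (iwgp hBL hRs hδ (a := 1 + a) (by rw [abs_le]; constructor <;> linarith)) (fun t ht => by
      have h1 := low_plus (J := J) (I := II y) hRs ha0 ha t (Xz_nonneg t)
      have h2 := mul_le_mul_of_nonneg_left h1 (mul_nonneg (hom t ht) (sq_nonneg (Xz t)))
      rw [ewz]
      have e0 : Xz t ^ (4 + 2 * a) = Xz t ^ 2 * Xz t ^ (2 + 2 * a) := by
        rw [show (4:ℝ) + 2 * a = 2 + (2 + 2 * a) by ring]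
        exact rpow_split (Xz_nonneg t) (by linarith)
      rw [e0]
      refine le_trans (le_of_eq (by ring)) (h2.trans (le_of_eq (by ring))))
  have el : ∫ t in Set.Ioi (0:ℝ), (2 * (om k (k / T) t * (Xz t ^ 4 * gq l0 J a (RR Rs) (II y) t)) -
      om k (k / T) t * (Xz t ^ 4 * gq (l1e Rs) J a (RR Rs) (II y) t)) =
      2 * (∫ t in Set.Ioi (0:ℝ), om k (k / T) t * (Xz t ^ 4 * gq l0 J a (RR Rs) (II y) t)) -
      ∫ t in Set.Ioi (0:ℝ), om k (k / T) t * (Xz t ^ 4 * gq (l1e Rs) J a (RR Rs) (II y) t) := by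
    rw [integral_sub (i1.const_mul 2) i2, integral_const_mul]
  rw [el] at l1
  have hW0 : 0 ≤ W (4 + 2 * a) k T :=
    setIntegral_nonneg measurableSet_Ioi fun t ht => mul_nonneg (hom t ht) (Real.rpow_nonneg (Xz_nonneg t) _)
  exact num_low hκ hκ1 hM hU (Real.exp_pos _).le (Real.exp_le_exp.mpr h12) ha0 h5 haC5 hW0 q1 q2 q5 l1 hc2

/-- multiplicative error -/
lemma mult_err {κ E lamG W4 I err : ℝ} (hκ : 0 < κ) (hκ1 : κ ≤ 1 / 200) (hE : 0 ≤ E) (hW : 0 ≤ W4)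
    (h1 : lamG ≤ E * Real.exp (2 * κ)) (h3 : |I - lamG * W4| ≤ err) (h4 : err ≤ κ * (W4 * E)) :
    I ≤ (W4 * E) * (1 + 7 * κ) := by
  have h5 : Real.exp (2 * κ) ≤ 1 + 6 * κ := by
    have h5 := Real.exp_bound' (x := 2 * κ) (by linarith) (by linarith) (n := 2) (by norm_num)
    norm_num [Finset.sum_range_succ, Nat.factorial] at h5
    nlinarith
  have h6 := (abs_le.mp h3).2
  have h7 : lamG * W4 ≤ E * (1 + 6 * κ) * W4 :=
    mul_le_mul_of_nonneg_right (h1.trans (mul_le_mul_of_nonneg_left h5 hE)) hW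
  nlinarith [mul_nonneg hW hE]

lemma mult_err2 {κ E lamG W4 I err : ℝ} (hκ : 0 < κ) (hκ1 : κ ≤ 1 / 200) (hE : 0 ≤ E) (hW : 0 ≤ W4)
    (h1 : lamG ≤ E * Real.exp (2 * κ)) (h2 : E * Real.exp (-(2 * κ)) ≤ lamG)
    (h3 : |I - lamG * W4| ≤ err) (h4 : err ≤ κ * (W4 * E)) :
    |I - W4 * E| ≤ 7 * κ * (W4 * E) := by
  have hu := mult_err hκ hκ1 hE hW h1 h3 h4
  have h6 := (abs_le.mp h3).1
  have h5 : 1 - 2 * κ ≤ Real.exp (-(2 * κ)) := by
    have := Real.add_one_le_exp (-(2 * κ)); linarith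
  have h7 : E * (1 - 2 * κ) * W4 ≤ lamG * W4 :=
    mul_le_mul_of_nonneg_right ((mul_le_mul_of_nonneg_left h5 hE).trans h2) hW
  have h8 : 0 ≤ W4 * E := mul_nonneg hW hE
  rw [abs_le]
  constructor <;> nlinarith

/-- the choice of the range -/
lemma a0_ex4 {κ B C5 D : ℝ} (hκ : 0 < κ) (hB : 0 ≤ B) (h5 : 0 ≤ C5) (hD : 0 ≤ D) :
    ∃ a0 : ℝ, 0 < a0 ∧ a0 ≤ 1 / 80 ∧ ∀ a : ℝ, 0 ≤ a → a ≤ a0 → B * a ≤ κ ∧ a * C5 ≤ κ ∧
      5 * a * D ≤ κ := by
  have hdd : 0 < B + C5 + 5 * D + 1 := by positivity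
  refine ⟨min (1 / 80) (κ / (B + C5 + 5 * D + 1)), lt_min (by norm_num) (by positivity),
    min_le_left _ _, fun a ha0 ha => ?_⟩
  have h2 : a * (B + C5 + 5 * D + 1) ≤ κ := by
    have := ha.trans (min_le_right _ _)
    rwa [le_div_iff₀ hdd] at this
  have p1 : 0 ≤ a * B := by positivity
  have p3 : 0 ≤ a * C5 := by positivity
  have p4 : 0 ≤ a * D := by positivity
  refine ⟨by nlinarith, by nlinarith, by nlinarith⟩

lemma cmp4 {L V D κ b W4 : ℝ} (hL : 0 < L) (hW : 0 ≤ W4) (hV : |V - Real.log L| ≤ D) (hb : |b| * D ≤ κ) :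
    W4 * Real.exp (b * V) ≤ Real.exp κ * (L ^ b * W4) ∧
    Real.exp (-κ) * (L ^ b * W4) ≤ W4 * Real.exp (b * V) := by
  have e2 : L ^ b = Real.exp (Real.log L * b) := Real.rpow_def_of_pos hL _
  have h1 : |b * (V - Real.log L)| ≤ κ := by
    rw [abs_mul]; exact (mul_le_mul_of_nonneg_left hV (abs_nonneg b)).trans hb
  obtain ⟨h2, h3⟩ := abs_le.mp h1
  rw [e2]
  constructor
  · have : Real.exp (b * V) ≤ Real.exp κ * Real.exp (Real.log L * b) := by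
      rw [← Real.exp_add]; apply Real.exp_le_exp.mpr; nlinarith
    calc W4 * Real.exp (b * V) ≤ W4 * (Real.exp κ * Real.exp (Real.log L * b)) := mul_le_mul_of_nonneg_left this hW
      _ = _ := by ring
  · have : Real.exp (-κ) * Real.exp (Real.log L * b) ≤ Real.exp (b * V) := by
      rw [← Real.exp_add]; apply Real.exp_le_exp.mpr; nlinarith
    calc Real.exp (-κ) * (Real.exp (Real.log L * b) * W4) = W4 * (Real.exp (-κ) * Real.exp (Real.log L * b)) := by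
          ring
      _ ≤ _ := mul_le_mul_of_nonneg_left this hW

theorem t_WIN (hT4 : P_T4) (hW2 : P_W2) (hT2 : P_T2) (hW4 : P_W4) : P_WIN := by
  intro ε hε
  obtain ⟨κ, hκ, hκ1, hκε⟩ : ∃ κ : ℝ, 0 < κ ∧ κ ≤ 1 / 200 ∧ 24 * κ ≤ ε :=
    ⟨min (ε / 24) (1 / 200), lt_min (by positivity) (by norm_num), min_le_right _ _, by
      have := min_le_left (ε / 24) (1 / 200); linarith⟩
  obtain ⟨c, hc0, hrange⟩ := ranges
  obtain ⟨c4, C4', hc4, _, hW4⟩ := hW4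
  obtain ⟨B, hB, R0, hR0, hW2⟩ := hW2 c hc0
  obtain ⟨η1, hη1, _, hT4⟩ := hT4
  obtain ⟨C1, hC1, R1, hR1, hT4⟩ := hT4 c
  obtain ⟨η2, hη2, _, hT2⟩ := hT2
  obtain ⟨C2, hC2, hT2⟩ := hT2 c
  -- the parameter of the truncation
  obtain ⟨Rs, hRs, hRs0, hRs1, hRsκ⟩ : ∃ Rs : ℕ, 1 ≤ Rs ∧ R0 ≤ Rs ∧ R1 ≤ Rs ∧
      (12 + B) * Real.exp (-(Rs:ℝ)) ≤ κ := by
    have h1 : Tendsto (fun n : ℕ => (12 + B) * Real.exp (-(n:ℝ))) atTop (𝓝 ((12 + B) * 0)) :=
      (Real.tendsto_exp_neg_atTop_nhds_zero.comp tendsto_natCast_atTop_atTop).const_mul (12 + B)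
    rw [mul_zero] at h1
    have h2 := (h1.eventually_le_const hκ).and (eventually_ge_atTop (max 1 (max R0 R1)))
    obtain ⟨n, hn, hn2⟩ := h2.exists
    exact ⟨n, (le_max_left _ _).trans hn2, ((le_max_left _ _).trans (le_max_right _ _)).trans hn2,
      ((le_max_right _ _).trans (le_max_right _ _)).trans hn2, hn⟩
  have hx0 : 0 < Real.exp (-(Rs:ℝ)) := Real.exp_pos _
  have h12 : 12 * Real.exp (-(Rs:ℝ)) ≤ κ := by nlinarith [mul_pos hB hx0]
  have hBx : B * Real.exp (-(Rs:ℝ)) ≤ κ := by nlinarith [mul_pos hB hx0]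
  have hT4 := hT4 Rs hRs1
  have hT2 := hT2 Rs hRs
  -- the exponent of `y`
  obtain ⟨η, hη, hη_a, hη_b'⟩ := eta_ex (q := min (min η1 η2) (κ * c4)) (C := C1) (R := (Rs:ℝ))
    (lt_min (lt_min hη1 hη2) (by positivity)) hC1.le (Nat.cast_nonneg _)
  have hη_1 : 320 * ((Rs:ℝ) + 1) * η ≤ η1 := hη_a.trans ((min_le_left _ _).trans (min_le_left _ _))
  have hη_2 : 320 * ((Rs:ℝ) + 1) * η ≤ η2 :=
    hη_a.trans ((min_le_left _ _).trans (min_le_right _ _))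
  have hη_b : C1 * η ≤ κ * c4 := by
    have h1 := hη_b'.trans (min_le_right _ _)
    have h2 : 0 < C1 * η := mul_pos hC1 hη
    have h3 : (0:ℝ) ≤ Rs := Nat.cast_nonneg _
    nlinarith [mul_nonneg h3 h2.le]
  set D := c + |Real.log η| with hD
  have hD0 : 0 ≤ D := by positivity
  obtain ⟨a0, ha0, ha080, ha0s⟩ := a0_ex4 (κ := κ) (B := B) (C5 := C2 * Real.exp (3 * D) / c4) (D := D) hκ hB.le
    (by positivity) hD0
  refine ⟨2 * a0, by positivity, by linarith, ?_⟩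
  have hyT : ∀ᶠ T : ℝ in atTop, 144 ≤ Real.exp (η * Real.log T) :=
    (Real.tendsto_exp_atTop.comp (Real.tendsto_log_atTop.const_mul_atTop hη)).eventually_ge_atTop 144
  clear hη_a hη_b'
  filter_upwards [hT4, hT2, hW4, hyT, eventually_ge_atTop (1:ℝ), Real.tendsto_log_atTop.eventually_ge_atTop 1]
    with T hT4 hT2 hW4 hyT hT1 hL1 k hk
  have hT0 : 0 < T := by linarith
  have hT4 := hT4 k hk
  have hT2 := hT2 k hk
  have hW4' := (hW4 k hk).1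
  set L := Real.log T with hLd
  have hL0 : 0 < L := by linarith
  set y := Real.exp (η * L) with hyd
  have hly : Real.log y = η * L := Real.log_exp _
  obtain ⟨J, hRg, _, hend, hVV⟩ := hrange y hyT
  have hBL : BL c y J := ⟨hc0, hyT, hRg, hend, hVV⟩
  have hk1 : 1 ≤ k := by
    have := hk.1
    have h2 : (0:ℝ) < k := lt_of_lt_of_le (by positivity) this
    exact_mod_cast h2
  have hk0 : (0:ℝ) < k := by exact_mod_cast hk1
  have hδ : 0 < (k:ℝ) / T := by positivity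
  set V := ∑ i ∈ range J, vI (II y i) with hV
  have hVL : |V - Real.log L| ≤ D := by
    have e1 : Real.log (Real.log y) = Real.log η + Real.log L := by
      rw [hly, Real.log_mul hη.ne' hL0.ne']
    rw [e1] at hVV
    have e2 : V - Real.log L = (V - (Real.log η + Real.log L)) + Real.log η := by ring
    rw [e2]
    exact (abs_add_le _ _).trans (add_le_add hVV le_rfl)
  have hyg : ∀ q : ℝ, 320 * ((Rs:ℝ) + 1) * η ≤ q → 320 * ((Rs:ℝ) + 1) * Real.log y ≤ q * L := by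
    intro q hq
    calc 320 * ((Rs:ℝ) + 1) * Real.log y = (320 * ((Rs:ℝ) + 1) * η) * L := by rw [hly]; ring
      _ ≤ _ := mul_le_mul_of_nonneg_right hq hL0.le
  have hy1 := hyg η1 hη_1
  have hy2 := hyg η2 hη_2
  have hW0 : 0 ≤ W 4 k T := le_trans (by positivity) hW4'
  -- the size of the second moment term
  have heV : Real.exp (3 * V) ≤ L ^ 3 * Real.exp (3 * D) := by
    have h1 := (abs_le.mp hVL).2
    calc Real.exp (3 * V) ≤ Real.exp (3 * Real.log L + 3 * D) := Real.exp_le_exp.mpr (by linarith)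
      _ = L ^ 3 * Real.exp (3 * D) := by
        rw [Real.exp_add]
        congr 1
        rw [show 3 * Real.log L = ((3:ℕ):ℝ) * Real.log L by norm_num, Real.exp_nat_mul, Real.exp_log hL0]
  have hsec : ∀ b : ℝ, C2 * L * Real.exp ((3 + b) * V) ≤
      C2 * Real.exp (3 * D) / c4 * (W 4 k T * Real.exp (b * V)) := by
    intro b
    have hb := Real.exp_pos (b * V)
    calc C2 * L * Real.exp ((3 + b) * V) = C2 * L * (Real.exp (3 * V) * Real.exp (b * V)) := by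
          rw [← Real.exp_add]; congr 2; ring
      _ ≤ C2 * L * ((L ^ 3 * Real.exp (3 * D)) * Real.exp (b * V)) := by gcongr
      _ = C2 * Real.exp (3 * D) / c4 * ((c4 * L ^ 4) * Real.exp (b * V)) := by
          field_simp
      _ ≤ _ := by gcongr
  have herr : ∀ E : ℝ, 0 ≤ E → C1 * Real.log y * L ^ 3 * E ≤ κ * (W 4 k T * E) := by
    intro E hE
    calc C1 * Real.log y * L ^ 3 * E = (C1 * η) * L ^ 4 * E := by rw [hly]; ring
      _ ≤ (κ * c4) * L ^ 4 * E := by gcongr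
      _ = κ * ((c4 * L ^ 4) * E) := by ring
      _ ≤ _ := by gcongr
  have hlamP : ∀ b : ℝ, |b| ≤ 1 / 16 → B * |b| ≤ κ →
      lam w2 (GP J b (RR Rs) (II y)) ≤ EV J y b * Real.exp (2 * κ) := by
    intro b hb hBb
    have h1 := (hW2 J Rs (II y) (bb y) (RR Rs) b hRg hRs0 (RR_ge Rs) hb).1.2
    refine h1.trans ?_
    unfold EV
    rw [← Real.exp_add]
    apply Real.exp_le_exp.mpr
    nlinarith
  have hlamQ : ∀ (lm : ℕ → ℝ) (b : ℝ), (∀ i, 0 ≤ lm i) → (∀ i, lm i ≤ Real.exp (RR Rs i)) → |b| ≤ 1 / 16 →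
      B * |b| ≤ κ →
      lam w2 (GQ lm J b (RR Rs) (II y)) ≤ EV J y b * Real.exp (2 * κ) ∧
      EV J y b * Real.exp (-(2 * κ)) ≤ lam w2 (GQ lm J b (RR Rs) (II y)) := by
    intro lm b h0 h1 hb hBb
    have h2 := (hW2 J Rs (II y) (bb y) (RR Rs) b hRg hRs0 (RR_ge Rs) hb).2 lm h0 h1
    constructor
    · refine h2.2.trans ?_
      unfold EV
      rw [← Real.exp_add]
      apply Real.exp_le_exp.mpr
      nlinarith
    · refine le_trans ?_ h2.1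
      unfold EV
      rw [← Real.exp_add]
      apply Real.exp_le_exp.mpr
      nlinarith
  have hEV : ∀ b, 0 ≤ EV J y b := fun b => (Real.exp_pos _).le
  have hl0a : ∀ i, (0:ℝ) ≤ l0 i := fun i => le_rfl
  have hl0b : ∀ i, l0 i ≤ Real.exp (RR Rs i) := fun i => (Real.exp_pos _).le
  have hl1a : ∀ i, (0:ℝ) ≤ l1e Rs i := fun i => (Real.exp_pos _).le
  have hl1b : ∀ i, l1e Rs i ≤ Real.exp (RR Rs i) := fun i => le_rfl
  refine ⟨fun β hβ1 hβ2 => ?_, fun β hβ1 hβ2 => ?_⟩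
  · -- below four
    obtain ⟨a, hβe⟩ : ∃ a : ℝ, β = 4 - 2 * a := ⟨(4 - β) / 2, by ring⟩
    have ha0' : 0 ≤ a := by linarith
    have haa0 : a ≤ a0 := by linarith
    have ha16 : a ≤ 1 / 16 := by linarith
    have hna : |(-a)| = a := by rw [abs_neg, abs_of_nonneg ha0']
    obtain ⟨haB, haC5, ha5D⟩ := ha0s a ha0' haa0
    have habs : |4 * (-a) + (-a) ^ 2| ≤ 5 * a := by rw [abs_le]; constructor <;> nlinarith
    have hcmp := cmp4 (b := 4 * (-a) + (-a) ^ 2) (κ := κ) hL0 hW0 hVL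
      ((mul_le_mul_of_nonneg_right habs hD0).trans ha5D)
    have hMe : β ^ 2 / 4 - 4 = 4 * (-a) + (-a) ^ 2 := by rw [hβe]; ring
    rw [← hMe] at hcmp
    obtain ⟨i3, q3⟩ := hT4 y (-a) J (GP J (-a) (RR Rs) (II y)) hBL (Or.inl rfl) hy1 (by rw [hna]; exact ha16)
    simp_rw [← gp_eq hBL (-a) Rs] at i3 q3
    have q3' := mult_err hκ hκ1 (hEV (-a)) hW0 (hlamP (-a) (by rw [hna]; exact ha16) (by rw [hna]; exact haB)) q3
      (herr _ (hEV (-a)))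
    have q5 := hT2 y (-a) J hBL hy2 (by rw [hna]; exact ha16)
    have q5' := q5.trans (le_of_eq_of_le (by rw [← hV, show 3 + 4 * (-a) + (-a) ^ 2 = 3 + (β ^ 2 / 4 - 4) by
      rw [hMe]; ring]) (hsec (β ^ 2 / 4 - 4)))
    have hEe : EV J y (-a) = Real.exp ((β ^ 2 / 4 - 4) * V) := by unfold EV; rw [← hV, hMe]
    rw [hEe] at q3'
    have := win4_minus hBL hRs hδ hκ hκ1 (M := L ^ (β ^ 2 / 4 - 4) * W 4 k T) (U := W 4 k T *
      Real.exp ((β ^ 2 / 4 - 4) * V)) (by positivity) (by positivity) ha0' ha16 haC5 h12 i3 q3'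
      (by rw [sub_eq_add_neg]; exact q5') hcmp.1
    rw [← hβe] at this
    refine this.trans ?_
    rw [mul_assoc (1 + ε)]
    refine mul_le_mul_of_nonneg_right (by linarith) (by positivity)
  · -- above four
    obtain ⟨a, hβe⟩ : ∃ a : ℝ, β = 4 + 2 * a := ⟨(β - 4) / 2, by ring⟩
    have ha0' : 0 ≤ a := by linarith
    have haa0 : a ≤ a0 := by linarith
    have ha16 : a ≤ 1 / 16 := by linarith
    have hna : |a| = a := abs_of_nonneg ha0'
    obtain ⟨haB, haC5, ha5D⟩ := ha0s a ha0' haa0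
    have habs : |4 * a + a ^ 2| ≤ 5 * a := by rw [abs_le]; constructor <;> nlinarith
    have hcmp := cmp4 (b := 4 * a + a ^ 2) (κ := κ) hL0 hW0 hVL
      ((mul_le_mul_of_nonneg_right habs hD0).trans ha5D)
    have hMe : β ^ 2 / 4 - 4 = 4 * a + a ^ 2 := by rw [hβe]; ring
    rw [← hMe] at hcmp
    have hBa : B * |a| ≤ κ := by rw [hna]; exact haB
    have ha16' : |a| ≤ 1 / 16 := by rw [hna]; exact ha16
    obtain ⟨i1, q1⟩ := hT4 y a J (GQ l0 J a (RR Rs) (II y)) hBL (Or.inr ⟨l0, hl0a, hl0b, rfl⟩) hy1 ha16'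
    obtain ⟨i2, q2⟩ := hT4 y a J (GQ (l1e Rs) J a (RR Rs) (II y)) hBL (Or.inr ⟨l1e Rs, hl1a, hl1b, rfl⟩) hy1 ha16'
    simp_rw [← gq_eq hBL l0 a Rs] at i1 q1
    simp_rw [← gq_eq hBL (l1e Rs) a Rs] at i2 q2
    have h1 := hlamQ l0 a hl0a hl0b ha16' hBa
    have h2 := hlamQ (l1e Rs) a hl1a hl1b ha16' hBa
    have q1' := mult_err2 hκ hκ1 (hEV a) hW0 h1.1 h1.2 q1 (herr _ (hEV a))
    have q2' := mult_err2 hκ hκ1 (hEV a) hW0 h2.1 h2.2 q2 (herr _ (hEV a))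
    have q5 := hT2 y a J hBL hy2 ha16'
    have q5' := q5.trans (le_of_eq_of_le (by rw [← hV, show 3 + 4 * a + a ^ 2 = 3 + (β ^ 2 / 4 - 4) by
      rw [hMe]; ring]) (hsec (β ^ 2 / 4 - 4)))
    have hEe : EV J y a = Real.exp ((β ^ 2 / 4 - 4) * V) := by unfold EV; rw [← hV, hMe]
    rw [hEe] at q1' q2'
    have := win4_plus hBL hRs hδ hκ hκ1 (M := L ^ (β ^ 2 / 4 - 4) * W 4 k T) (U := W 4 k T *
      Real.exp ((β ^ 2 / 4 - 4) * V)) (by positivity) (by positivity) ha0' ha16 (by positivity) haC5 h12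
      i1 i2 q1' q2' q5' hcmp.2
    rw [← hβe] at this
    refine le_trans ?_ this
    rw [mul_assoc (1 - ε)]
    refine mul_le_mul_of_nonneg_right (by linarith) (by positivity)

end

end Pool.Agent.TH298.N4_WIN
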